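import Pool.Agent.Lib.EDG.Dat

/-!
# EDG: chains of the Cayley complex with coefficients, as a module over `A = D * F`

`CQ h X Q = (X × G) →₀ Q` with `(d w) (x, g) ⊗ v = (x, h w * g) ⊗ d w v`. The extension (`ext`) of the
`A`-module `Q` by `CQ h I Q` with `x_i (0, v) = ((i, 1) ⊗ x_i v, x_i v)`: an element `γ ρ_j - 1` of the
kernel which kills `Q` maps `(f, v)` to `(∂ (j, 1) ⊗ v, 0)`.
-/

set_option autoImplicit false

open SkewMonoidAlgebra

namespace Pool.Agent.Lib.EDG

open Pool.Agent.Lib.GD2 (Tri)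

noncomputable section

variable {D I G : Type} [Ring D] [MulSemiringAction (FreeGroup I) D] [Group G]

/-- chains with coefficients in `Q` -/
def CQ (_h : FreeGroup I →* G) (X Q : Type) [AddCommGroup Q] : Type := (X × G) →₀ Q

variable (h : FreeGroup I →* G) (X Q : Type) [AddCommGroup Q]

instance : AddCommGroup (CQ h X Q) := inferInstanceAs (AddCommGroup ((X × G) →₀ Q))

variable {X Q}

/-- the elementary chain -/
def sg (x : X) (g : G) : Q →+ CQ h X Q := Finsupp.singleAddHom (x, g)

theorem sg_apply (x : X) (g : G) (v : Q) : sg h x g v = (Finsupp.single (x, g) v : (X × G) →₀ Q) := rfl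

theorem CQ_induction {p : CQ h X Q → Prop} (f : CQ h X Q) (h0 : p 0)
    (ha : ∀ a b, p a → p b → p (a + b)) (hm : ∀ x g v, p (sg h x g v)) : p f := by
  refine Finsupp.induction_linear (motive := p) f h0 (fun a b => ha a b) (fun a b => hm a.1 a.2 b)

/-- additive maps out of chains -/
def CQlift {Y : Type} [AddCommGroup Y] (f : X → G → Q →+ Y) : CQ h X Q →+ Y :=
  Finsupp.liftAddHom fun xg : X × G => f xg.1 xg.2

theorem CQlift_sg {Y : Type} [AddCommGroup Y] (f : X → G → Q →+ Y) (x : X) (g : G) (v : Q) :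
    CQlift h f (sg h x g v) = f x g v := by
  unfold CQlift sg
  exact Finsupp.liftAddHom_apply_single _ _ _

variable [Module (SA D I) Q]

/-- apply `a` to the coefficients and `g` to the cells -/
def op (a : SA D I) (g : G) : AddMonoid.End (CQ h X Q) :=
  CQlift h fun x g' => (sg h x (g * g')).comp (DistribSMul.toAddMonoidHom Q a)

theorem op_sg (a : SA D I) (g : G) (x : X) (g' : G) (v : Q) :
    op h a g (sg h x g' v : CQ h X Q) = sg h x (g * g') (a • v) := CQlift_sg h _ _ _ _

theorem end_ext {f f' : AddMonoid.End (CQ h X Q)} (hf : ∀ x g v, f (sg h x g v) = f' (sg h x g v)) :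
    f = f' := by
  refine AddMonoidHom.ext fun ζ => ?_
  induction ζ using CQ_induction with
  | h0 => rw [map_zero, map_zero]
  | ha a b ha hb => rw [map_add, map_add, ha, hb]
  | hm x g v => exact hf x g v

theorem op_mul (a b : SA D I) (g g' : G) :
    (op h (a * b) (g * g') : AddMonoid.End (CQ h X Q)) = op h a g * op h b g' := by
  refine end_ext h fun x g₁ v => ?_
  change op h (a * b) (g * g') (sg h x g₁ v) = op h a g (op h b g' (sg h x g₁ v))
  rw [op_sg, op_sg, op_sg, mul_assoc, mul_smul]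

theorem op_one : (op h (1 : SA D I) (1 : G) : AddMonoid.End (CQ h X Q)) = 1 := by
  refine end_ext h fun x g₁ v => ?_
  rw [op_sg, one_smul, one_mul]
  rfl

theorem op_add (a b : SA D I) (g : G) :
    (op h (a + b) g : AddMonoid.End (CQ h X Q)) = op h a g + op h b g := by
  refine end_ext h fun x g₁ v => ?_
  change op h (a + b) g (sg h x g₁ v) = op h a g (sg h x g₁ v) + op h b g (sg h x g₁ v)
  rw [op_sg, op_sg, op_sg, add_smul, map_add]

theorem op_zero (g : G) : (op h (0 : SA D I) g : AddMonoid.End (CQ h X Q)) = 0 := by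
  refine end_ext h fun x g₁ v => ?_
  change op h (0 : SA D I) g (sg h x g₁ v) = 0
  rw [op_sg, zero_smul, map_zero]

/-- scalars -/
def opD : D →+* AddMonoid.End (CQ h X Q) where
  toFun d := op h (dd d : SA D I) 1
  map_one' := by rw [map_one, op_one]
  map_mul' d d' := by rw [map_mul, ← op_mul, one_mul]
  map_zero' := by rw [map_zero, op_zero]
  map_add' d d' := by rw [map_add, op_add]

/-- words -/
def opW (D : Type) [Ring D] [MulSemiringAction (FreeGroup I) D] [Module (SA D I) Q] :
    FreeGroup I →* AddMonoid.End (CQ h X Q) where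
  toFun w := op h (uu w : SA D I) (h w)
  map_one' := by rw [map_one, map_one, op_one]
  map_mul' w w' := by rw [map_mul, map_mul, op_mul]

/-- the action of `A` on chains -/
def opA : SA D I →+* AddMonoid.End (CQ h X Q) :=
  liftNCRingHom (opD h) (opW h D) (by
    intro d w
    change op h (dd (w • d) : SA D I) 1 * op h (uu w : SA D I) (h w) =
      op h (uu w : SA D I) (h w) * op h (dd d : SA D I) 1
    rw [← op_mul, ← op_mul, one_mul, mul_one, uu_mul_dd])

instance : Module (SA D I) (CQ h X Q) :=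
  Module.compHom (R := AddMonoid.End (CQ h X Q)) (CQ h X Q) (opA h)

theorem smul_CQ (a : SA D I) (f : CQ h X Q) : a • f = opA h a f := rfl

theorem opA_dd (d : D) : (opA h (dd d : SA D I) : AddMonoid.End (CQ h X Q)) = op h (dd d) 1 := by
  have h1 : (opA h (dd d : SA D I) : AddMonoid.End (CQ h X Q)) = opD h d * opW h D 1 :=
    liftNC_single _ _ _ _
  rw [h1, map_one, mul_one]
  rfl

theorem opA_uu (w : FreeGroup I) :
    (opA h (uu w : SA D I) : AddMonoid.End (CQ h X Q)) = op h (uu w : SA D I) (h w) := by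
  have h1 : (opA h (uu w : SA D I) : AddMonoid.End (CQ h X Q)) = opD h (1 : D) * opW h D w :=
    liftNC_single _ _ _ _
  rw [h1, map_one, one_mul]
  rfl

theorem dd_sg (d : D) (x : X) (g : G) (v : Q) :
    (dd d : SA D I) • (sg h x g v) = sg h x g ((dd d : SA D I) • v) := by
  rw [smul_CQ, opA_dd, op_sg, one_mul]

theorem uu_sg (w : FreeGroup I) (x : X) (g : G) (v : Q) :
    (uu w : SA D I) • (sg h x g v) = sg h x (h w * g) ((uu w : SA D I) • v) := by
  rw [smul_CQ, opA_uu, op_sg]

/-- relation elements which kill `Q` kill the chains -/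
theorem rel_CQ (d : D) (w : FreeGroup I) (hw : h w = 1) (hd : ∀ v : Q, (rel d w : SA D I) • v = 0)
    (f : CQ h X Q) : (rel d w : SA D I) • f = 0 := by
  induction f using CQ_induction with
  | h0 => rw [smul_zero]
  | ha a b ha hb => rw [smul_add, ha, hb, add_zero]
  | hm x g v =>
    have h1 := hd v
    unfold rel at h1 ⊢
    rw [sub_smul, one_smul, sub_eq_zero, mul_smul] at h1
    rw [sub_smul, one_smul, sub_eq_zero, mul_smul, uu_sg, dd_sg, h1, hw, one_mul]

/-- the elementary extension -/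
def tau (i : I) : Q →+ CQ h I Q :=
  (sg h i 1).comp (DistribSMul.toAddMonoidHom Q (uu (FreeGroup.of i) : SA D I))

theorem tau_apply (i : I) (v : Q) :
    tau (D := D) h i v = sg h i 1 ((uu (FreeGroup.of i) : SA D I) • v) := rfl

theorem tau_dd (i : I) (d : D) (v : Q) : tau (D := D) h i ((dd d : SA D I) • v) =
    (dd (FreeGroup.of i • d) : SA D I) • tau (D := D) h i v := by
  rw [tau_apply, tau_apply, dd_sg, smul_smul, uu_mul_dd, mul_smul]

/-- the extension of `Q` by the chains on the edges -/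
abbrev exC : SA D I →+* AddMonoid.End (CQ h I Q × Q) := ext (tau (D := D) h) (tau_dd h)

section Tri

variable {J : Type} (T : Tri G I J)

/-- the boundary of a triangle -/
def bdt (j : J) (g : G) : Q →+ CQ (FreeGroup.lift T.x) I Q :=
  sg _ (T.a j) g + sg _ (T.b j) (g * T.x (T.a j)) - sg _ (T.c j) g

theorem bdt_apply (j : J) (g : G) (v : Q) : bdt T j g v =
    T.bd Q (Finsupp.single (j, g) v) := by
  unfold Tri.bd
  rw [Finsupp.liftAddHom_apply_single]
  rfl

theorem uu_bdt (w : FreeGroup I) (j : J) (g : G) (v : Q) :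
    (uu w : SA D I) • bdt T j g v = bdt T j (FreeGroup.lift T.x w * g) ((uu w : SA D I) • v) := by
  unfold bdt
  rw [AddMonoidHom.sub_apply, AddMonoidHom.add_apply, smul_sub, smul_add, uu_sg, uu_sg, uu_sg,
    AddMonoidHom.sub_apply, AddMonoidHom.add_apply, mul_assoc]

theorem dd_bdt (d : D) (j : J) (g : G) (v : Q) :
    (dd d : SA D I) • bdt T j g v = bdt T j g ((dd d : SA D I) • v) := by
  unfold bdt
  rw [AddMonoidHom.sub_apply, AddMonoidHom.add_apply, smul_sub, smul_add, dd_sg, dd_sg, dd_sg,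
    AddMonoidHom.sub_apply, AddMonoidHom.add_apply]

theorem exC_rl (j : J) (v : Q) : exC (FreeGroup.lift T.x) (uu (T.rl j) : SA D I) (0, v) =
    (bdt T j 1 ((uu (T.rl j) : SA D I) • v), (uu (T.rl j) : SA D I) • v) := by
  have hx : FreeGroup.lift T.x (FreeGroup.of (T.a j)) * (FreeGroup.lift T.x (FreeGroup.of (T.b j)) *
      (FreeGroup.lift T.x (FreeGroup.of (T.c j))⁻¹ * 1)) = 1 := by
    rw [mul_one, map_inv, FreeGroup.lift_apply_of, FreeGroup.lift_apply_of,
      FreeGroup.lift_apply_of, ← mul_assoc, T.rel, mul_inv_cancel]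
  have hm : (uu (T.rl j) : SA D I) = uu (FreeGroup.of (T.a j)) * (uu (FreeGroup.of (T.b j)) *
      uu (FreeGroup.of (T.c j))⁻¹) := by
    unfold Tri.rl
    rw [map_mul, map_mul, mul_assoc]
  have hc : (uu (FreeGroup.of (T.c j)) : SA D I) • (uu (FreeGroup.of (T.c j))⁻¹ : SA D I) • v = v := by
    rw [smul_smul, uu_mul_inv, one_smul]
  rw [hm, ext_mul_apply, ext_mul_apply, ext_of_inv, ext_of, ext_of]
  refine Prod.ext ?_ ?_
  · change (uu (FreeGroup.of (T.a j)) : SA D I) • ((uu (FreeGroup.of (T.b j)) : SA D I) •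
        ((uu (FreeGroup.of (T.c j))⁻¹ : SA D I) • ((0 : CQ (FreeGroup.lift T.x) I Q) -
          tau (D := D) _ (T.c j) ((uu (FreeGroup.of (T.c j))⁻¹ : SA D I) • v))) +
        tau (D := D) _ (T.b j) ((uu (FreeGroup.of (T.c j))⁻¹ : SA D I) • v)) +
        tau (D := D) _ (T.a j) ((uu (FreeGroup.of (T.b j)) : SA D I) •
          ((uu (FreeGroup.of (T.c j))⁻¹ : SA D I) • v)) = _
    rw [tau_apply, tau_apply, tau_apply, hc, zero_sub, smul_neg, uu_sg, smul_neg, uu_sg, smul_add,
      smul_neg, uu_sg, uu_sg, hx]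
    unfold bdt
    rw [AddMonoidHom.sub_apply, AddMonoidHom.add_apply, mul_smul, mul_smul, mul_one, one_mul,
      FreeGroup.lift_apply_of, neg_add_eq_sub, sub_add_eq_add_sub, add_comm]
  · change (uu (FreeGroup.of (T.a j)) : SA D I) • (uu (FreeGroup.of (T.b j)) : SA D I) •
      (uu (FreeGroup.of (T.c j))⁻¹ : SA D I) • v = _
    rw [mul_smul, mul_smul]

end Tri

end

end Pool.Agent.Lib.EDG
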