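import Pool.Agent.Lib.EDG.Ext
import Pool.Agent.Lib.GD2.Defs

/-!
# EDG: crossed products of a division ring with a group as quotients of `D * F`

`Dat D I G J B`: a group `G` with the triangular presentation `T`, a ring `B` and a surjective ring
homomorphism `φ : D * F → B` whose kernel is generated by the elements `r j = γ_j ρ_j - 1`, where
`ρ_j` is the relator of `j` and `γ_j ρ_j` commutes with `D`.

`IK φ K` is the submodule of the sums of `a • x`, `φ a = 0`, `x ∈ K`.
-/

set_option autoImplicit false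

namespace Pool.Agent.Lib.EDG

open Pool.Agent.Lib.GD2 (Tri)

noncomputable section

/-- the element `γ ρ - 1` -/
def rel {D I : Type} [Ring D] [MulSemiringAction (FreeGroup I) D] (d : D) (w : FreeGroup I) :
    SA D I := dd d * uu w - 1

/-- a crossed product of the division ring `D` with the group `G` as a quotient of `D * F` -/
structure Dat (D I G J B : Type) [DivisionRing D] [MulSemiringAction (FreeGroup I) D] [Group G]
    [Ring B] where
  T : Tri G I J
  tsurj : Function.Surjective (FreeGroup.lift T.x)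
  h2 : T.H2
  γ : J → D
  γ0 : ∀ j, γ j ≠ 0
  γ_smul : ∀ j d, γ j * (T.rl j • d) = d * γ j
  φ : SA D I →+* B
  surj : Function.Surjective φ
  φ_r : ∀ j, φ (dd (γ j) * uu (T.rl j)) = 1
  ker : ∀ a, φ a = 0 → a ∈ Submodule.span (SA D I) {z | ∃ j y, z = rel (γ j) (T.rl j) * y}
  lift : ∀ w w', FreeGroup.lift T.x w = FreeGroup.lift T.x w' →
    ∃ d, φ (uu w) = φ (uu w' * dd d)

namespace Dat

variable {D I G J B : Type} [DivisionRing D] [MulSemiringAction (FreeGroup I) D] [Group G]
    [Ring B] (X : Dat D I G J B)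

/-- the relation elements -/
def r (j : J) : SA D I := rel (X.γ j) (X.T.rl j)

theorem φ_r0 (j : J) : X.φ (X.r j) = 0 := by
  unfold r rel
  rw [map_sub, X.φ_r, map_one, sub_self]

theorem r_dd (j : J) (d : D) : X.r j * dd d = dd d * X.r j := by
  unfold r rel
  rw [sub_mul, mul_sub, one_mul, mul_one, mul_assoc, uu_mul_dd, ← mul_assoc, ← mul_assoc, ← map_mul,
    ← map_mul, X.γ_smul]

/-- a word for every group element -/
def w (g : G) : FreeGroup I := (X.tsurj g).choose

theorem lift_w (g : G) : FreeGroup.lift X.T.x (X.w g) = g := (X.tsurj g).choose_spec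

theorem lift_rl (j : J) : FreeGroup.lift X.T.x (X.T.rl j) = 1 := by
  unfold Tri.rl
  rw [map_mul, map_mul, map_inv, FreeGroup.lift_apply_of, FreeGroup.lift_apply_of,
    FreeGroup.lift_apply_of, X.T.rel, mul_inv_cancel]

end Dat

section IK

variable {A B : Type} [Ring A] [Ring B] (φ : A →+* B)

/-- the submodule of the sums of `a • x`, `φ a = 0`, `x ∈ K` -/
def IK {M : Type} [AddCommGroup M] [Module A M] (K : Submodule A M) : Submodule A M :=
  Submodule.span A {z | ∃ a x, φ a = 0 ∧ x ∈ K ∧ z = a • x}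

variable {M N : Type} [AddCommGroup M] [Module A M] [AddCommGroup N] [Module A N]

theorem smul_mem_IK {K : Submodule A M} {a : A} {x : M} (ha : φ a = 0) (hx : x ∈ K) :
    a • x ∈ IK φ K := Submodule.subset_span ⟨a, x, ha, hx, rfl⟩

theorem IK_le_iff {K L : Submodule A M} :
    IK φ K ≤ L ↔ ∀ a x, φ a = 0 → x ∈ K → a • x ∈ L := by
  constructor
  · exact fun h a x ha hx => h (smul_mem_IK φ ha hx)
  · intro h
    refine Submodule.span_le.2 ?_
    rintro _ ⟨a, x, ha, hx, rfl⟩
    exact h a x ha hx

theorem IK_le (K : Submodule A M) : IK φ K ≤ K :=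
  (IK_le_iff φ).2 fun a _ _ hx => K.smul_mem a hx

theorem IK_mono {K L : Submodule A M} (h : K ≤ L) : IK φ K ≤ IK φ L :=
  (IK_le_iff φ).2 fun _ _ ha hx => smul_mem_IK φ ha (h hx)

theorem map_mem_IK (f : M →ₗ[A] N) {K : Submodule A M} {L : Submodule A N}
    (h : ∀ x ∈ K, f x ∈ L) {z : M} (hz : z ∈ IK φ K) : f z ∈ IK φ L := by
  have h1 : IK φ K ≤ (IK φ L).comap f := (IK_le_iff φ).2 fun a x ha hx => by
    rw [Submodule.mem_comap, map_smul]
    exact smul_mem_IK φ ha (h x hx)
  exact h1 hz

/-- `I Aⁿ` -/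
theorem mem_IK_top {n : ℕ} (z : Fin n → A) :
    z ∈ IK φ (⊤ : Submodule A (Fin n → A)) ↔ ∀ k, φ (z k) = 0 := by
  constructor
  · intro hz
    let L : Submodule A (Fin n → A) :=
      { carrier := {z | ∀ k, φ (z k) = 0}
        add_mem' := fun {a b} ha hb k => by
          rw [Pi.add_apply, map_add, ha k, hb k, add_zero]
        zero_mem' := fun k => map_zero φ
        smul_mem' := fun c x hx k => by
          rw [Pi.smul_apply, smul_eq_mul, map_mul, hx k, mul_zero] }
    have h : IK φ (⊤ : Submodule A (Fin n → A)) ≤ L := (IK_le_iff φ).2 fun a x ha _ k => by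
      rw [Pi.smul_apply, smul_eq_mul, map_mul, ha, zero_mul]
    exact h hz
  · intro hz
    have h : z = ∑ k, z k • (Pi.single k (1 : A) : Fin n → A) := by
      funext i
      rw [Finset.sum_apply, Finset.sum_eq_single i]
      · rw [Pi.smul_apply, Pi.single_eq_same, smul_eq_mul, mul_one]
      · intro k _ hk
        rw [Pi.smul_apply, Pi.single_eq_of_ne (Ne.symm hk), smul_zero]
      · exact fun h => absurd (Finset.mem_univ i) h
    rw [h]
    exact Submodule.sum_mem _ fun k _ => smul_mem_IK φ (hz k) trivial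

end IK

end

end Pool.Agent.Lib.EDG
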