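import Pool.Agent.Lib.EDG.Ind
import Pool.Agent.Lib.FPT.IRes

/-!
# EDG: finite free resolutions over a crossed product

A stage `(K, L)` with independent loops for `P ≤ Bⁿ`: `K` is free with basis `κ`, the coordinates of the loops
are a basis of the kernel of `Bᵐ → P`. For an idempotent matrix `e` take `P = Bⁿ (1 - e)`.
-/

set_option autoImplicit false

open SkewMonoidAlgebra

namespace Pool.Agent.Lib.EDG

open Pool.Agent.Lib.GD2 (Tri)
open Pool.Agent.Lib.FPT (FRes MFR)

noncomputable section

namespace Dat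

variable {D I G J B : Type} [DivisionRing D] [MulSemiringAction (FreeGroup I) D] [Group G]
    [Ring B] (X : Dat D I G J B)

/-- `im` as an additive homomorphism -/
def imA (n : ℕ) : (Fin n → SA D I) →+ (Fin n → B) where
  toFun := X.im
  map_zero' := X.im_zero
  map_add' := X.im_add

theorem im_sum {n : ℕ} {ι : Type} (s : Finset ι) (c : ι → SA D I) (z : ι → Fin n → SA D I) :
    X.im (∑ i ∈ s, c i • z i) = ∑ i ∈ s, X.φ (c i) • X.im (z i) := by
  have h : X.im (∑ i ∈ s, c i • z i) = ∑ i ∈ s, X.im (c i • z i) :=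
    _root_.map_sum (X.imA n) _ _
  rw [h]
  exact Finset.sum_congr rfl fun i _ => X.im_smul _ _

theorem im_eq_zero {n : ℕ} (z : Fin n → SA D I) :
    X.im z = 0 ↔ z ∈ IK X.φ (⊤ : Submodule (SA D I) (Fin n → SA D I)) := by
  rw [mem_IK_top]
  exact ⟨fun h k => congrFun h k, fun h => funext h⟩

theorem fres_of_stage {n : ℕ}
    (hF : ∀ Z : Submodule (SA D I) (Fin n → SA D I), Module.Free (SA D I) Z)
    {P : Submodule B (Fin n → B)} {K : Submodule (SA D I) (Fin n → SA D I)}
    {L : Finset (J × (Fin n → SA D I))} (st : X.Stg P K L) (hi : X.Indep K L) :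
    FRes B 1 P := by
  classical
  have hfree : Module.Free (SA D I) K := hF K
  have hfin : Module.Finite (SA D I) K := Module.Finite.iff_fg.2 st.fg
  obtain ⟨m, ⟨b⟩⟩ : ∃ m : ℕ, Nonempty (Module.Basis (Fin m) (SA D I) K) :=
    ⟨_, ⟨(Module.Free.chooseBasis (SA D I) K).reindex
      (Fintype.equivFin (Module.Free.ChooseBasisIndex (SA D I) K))⟩⟩
  -- the map `A^m → A^n` with image `K`
  let F : (Fin m → SA D I) →ₗ[SA D I] (Fin n → SA D I) :=
    K.subtype.comp b.equivFun.symm.toLinearMap
  have hF1 : ∀ c, F c = ∑ i, c i • (b i : Fin n → SA D I) := by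
    intro c
    change K.subtype (b.equivFun.symm c) = _
    rw [Module.Basis.equivFun_symm_apply, _root_.map_sum]
    rfl
  have hFK : ∀ c, F c ∈ K := fun c => (b.equivFun.symm c).2
  have hF2 : ∀ z : K, F (b.equivFun z) = z := fun z => by
    change K.subtype (b.equivFun.symm (b.equivFun z)) = z
    rw [LinearEquiv.symm_apply_apply]
    rfl
  have hFi : ∀ z : K, ∀ c, F c = z → c = b.equivFun z := by
    intro z c h
    have h1 : b.equivFun.symm c = z := Subtype.ext h
    rw [← h1, LinearEquiv.apply_symm_apply]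
  -- the map `B^m → P`
  let f : (Fin m → B) →ₗ[B] (Fin n → B) :=
    Fintype.linearCombination B fun i => X.im (b i : Fin n → SA D I)
  have hf : ∀ c, f (X.im c) = X.im (F c) := by
    intro c
    rw [hF1, im_sum]
    exact Fintype.linearCombination_apply B _ _
  have hfP : ∀ v, f v ∈ P := by
    intro v
    obtain ⟨c, rfl⟩ := X.im_surj v
    rw [hf]
    exact st.im_mem _ (hFK c)
  let f' : (Fin m → B) →ₗ[B] P := f.codRestrict P hfP
  have hf' : Function.Surjective f' := by
    rintro ⟨p, hp⟩
    obtain ⟨z, hz, h⟩ := st.im_sur p hp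
    refine ⟨X.im (b.equivFun ⟨z, hz⟩), Subtype.ext ?_⟩
    change f (X.im (b.equivFun ⟨z, hz⟩)) = p
    rw [hf, hF2, h]
  -- the loops
  let θ : L → (Fin m → SA D I) := fun l => b.equivFun ⟨X.r l.1.1 • l.1.2, st.loop l.1 l.2⟩
  have hθ : ∀ l, F (θ l) = X.r l.1.1 • l.1.2 := fun l => hF2 _
  let g : (L → B) →ₗ[B] (Fin m → B) := Fintype.linearCombination B fun l => X.im (θ l)
  have hg : ∀ a : L → SA D I, g (fun l => X.φ (a l)) = X.im (∑ l, a l • θ l) := by
    intro a
    rw [im_sum]
    exact Fintype.linearCombination_apply B _ _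
  have hFθ : ∀ a : L → SA D I, F (∑ l, a l • θ l) = ∑ l : L, a l • X.r l.1.1 • l.1.2 := by
    intro a
    rw [_root_.map_sum]
    refine Finset.sum_congr rfl fun l _ => ?_
    rw [map_smul, hθ]
  have hgk : ∀ β, g β ∈ LinearMap.ker f' := by
    intro β
    choose a ha using fun l => X.surj (β l)
    have h1 : g β = X.im (∑ l, a l • θ l) := by
      rw [← hg]
      congr 1
      exact funext fun l => (ha l).symm
    rw [LinearMap.mem_ker]
    refine Subtype.ext ?_
    change f (g β) = 0
    rw [h1, hf, hFθ, im_sum]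
    refine Finset.sum_eq_zero fun l _ => ?_
    rw [im_smul, φ_r0, zero_smul, smul_zero]
  let g' : (L → B) →ₗ[B] LinearMap.ker f' := g.codRestrict _ hgk
  have hg' : Function.Bijective g' := by
    constructor
    · rw [injective_iff_map_eq_zero]
      intro β hβ
      have h0 : g β = 0 := congrArg Subtype.val hβ
      choose a ha using fun l => X.surj (β l)
      have h1 : g β = X.im (∑ l, a l • θ l) := by
        rw [← hg]
        congr 1
        exact funext fun l => (ha l).symm
      rw [h1, im_eq_zero] at h0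
      have h2 : F (∑ l, a l • θ l) ∈ IK X.φ K := map_mem_IK X.φ F (fun x _ => hFK x) h0
      let a' : J × (Fin n → SA D I) → SA D I := fun l => if hl : l ∈ L then a ⟨l, hl⟩ else 0
      have h3 : X.lsum L a' = F (∑ l, a l • θ l) := by
        rw [hFθ]
        unfold lsum
        rw [← Finset.sum_coe_sort L]
        refine Finset.sum_congr rfl fun l _ => ?_
        simp only [a', dif_pos l.2]
      rw [← h3] at h2
      funext l
      have h4 := hi a' h2 l.1 l.2
      simp only [a', dif_pos l.2] at h4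
      rw [← ha l]
      exact h4
    · rintro ⟨v, hv⟩
      obtain ⟨c, rfl⟩ := X.im_surj v
      have h0 : f (X.im c) = 0 := congrArg Subtype.val hv
      rw [hf] at h0
      obtain ⟨z₁, h1, z₂, h2, h3⟩ := Submodule.mem_sup.1 (st.h1 (F c) (hFK c) h0)
      -- the coordinates of `z₁`
      have h4 : ∃ c₁, F c₁ = z₁ ∧ X.im c₁ = 0 := by
        have hz₁ : z₁ ∈ K := IK_le X.φ K h1
        refine ⟨b.equivFun ⟨z₁, hz₁⟩, hF2 _, ?_⟩
        rw [im_eq_zero]
        have h5 : (⟨z₁, hz₁⟩ : K) ∈ IK X.φ (⊤ : Submodule (SA D I) K) := by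
          have h6 : IK X.φ K ≤ (IK X.φ (⊤ : Submodule (SA D I) K)).map K.subtype := by
            refine (IK_le_iff X.φ).2 fun a x ha hx => ?_
            exact ⟨a • ⟨x, hx⟩, smul_mem_IK X.φ ha trivial, rfl⟩
          obtain ⟨z', hz', h7⟩ := h6 h1
          have h8 : z' = ⟨z₁, hz₁⟩ := Subtype.ext h7
          rwa [← h8]
        exact map_mem_IK X.φ b.equivFun.toLinearMap (K := ⊤) (L := ⊤)
          (fun _ _ => Submodule.mem_top) h5
      have h5 : ∃ a : L → SA D I, F (∑ l, a l • θ l) = z₂ := by
        refine Submodule.span_induction (p := fun z _ => ∃ a : L → SA D I, F (∑ l, a l • θ l) = z)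
          ?_ ?_ ?_ ?_ h2
        · rintro _ ⟨l, hl, rfl⟩
          refine ⟨Pi.single ⟨l, hl⟩ 1, ?_⟩
          rw [hFθ, Finset.sum_eq_single ⟨l, hl⟩]
          · rw [Pi.single_eq_same, one_smul]
          · intro l' _ hl'
            rw [Pi.single_eq_of_ne hl', zero_smul]
          · exact fun h => absurd (Finset.mem_univ _) h
        · refine ⟨0, ?_⟩
          rw [hFθ]
          exact Finset.sum_eq_zero fun l _ => zero_smul _ _
        · rintro x y _ _ ⟨a, ha⟩ ⟨a', ha'⟩
          refine ⟨a + a', ?_⟩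
          rw [← ha, ← ha', hFθ, hFθ, hFθ, ← Finset.sum_add_distrib]
          exact Finset.sum_congr rfl fun l _ => add_smul _ _ _
        · rintro c x _ ⟨a, ha⟩
          refine ⟨c • a, ?_⟩
          rw [← ha, hFθ, hFθ, Finset.smul_sum]
          exact Finset.sum_congr rfl fun l _ => by
            rw [Pi.smul_apply, smul_eq_mul, mul_smul]
      obtain ⟨c₁, h6, h7⟩ := h4
      obtain ⟨a, h8⟩ := h5
      refine ⟨fun l => X.φ (a l), Subtype.ext ?_⟩
      change g (fun l => X.φ (a l)) = X.im c
      have h9 : c = c₁ + ∑ l, a l • θ l := by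
        have h10 : F c = F (c₁ + ∑ l, a l • θ l) := by
          rw [map_add, h6, h8, h3]
        have h11 := hFi ⟨F c, hFK c⟩ c rfl
        have h12 := hFi ⟨F c, hFK c⟩ (c₁ + ∑ l, a l • θ l) h10.symm
        rw [h11, h12]
      rw [hg, h9, im_add, h7, zero_add]
  let e := LinearEquiv.ofBijective g' hg'
  exact ⟨m, f', hf', Module.Free.of_equiv e, Module.Finite.equiv e⟩

include X in
/-- the image of an idempotent matrix over `B` has a finite free resolution -/
theorem fres_idem {n : ℕ}
    (hF : ∀ Z : Submodule (SA D I) (Fin n → SA D I), Module.Free (SA D I) Z)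
    (e : Matrix (Fin n) (Fin n) B) (he : e * e = e) :
    FRes B 2 (LinearMap.range (Matrix.vecMulLinear e)) := by
  have h1 : e * (1 - e) = 0 := by rw [mul_sub, mul_one, he, sub_self]
  have h2 : (1 - e) * e = 0 := by rw [sub_mul, one_mul, he, sub_self]
  have hv : ∀ v : Fin n → B, Matrix.vecMul v (1 - e) = v - Matrix.vecMul v e := fun v => by
    rw [Matrix.vecMul_sub, Matrix.vecMul_one]
  obtain ⟨K, L, st⟩ := X.exists_stg (1 - e) e h1 (fun v h => by
    rw [hv, sub_eq_zero] at h
    exact ⟨v, h⟩)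
  obtain ⟨K', L', st', hi⟩ := X.exists_indep hF st
  have h3 := X.fres_of_stage hF st' hi
  have k : LinearMap.range (Matrix.vecMulLinear (1 - e)) =
      LinearMap.ker (Matrix.vecMulLinear e).rangeRestrict := by
    rw [LinearMap.ker_rangeRestrict]
    ext v
    rw [LinearMap.mem_ker, LinearMap.mem_range]
    constructor
    · rintro ⟨w, rfl⟩
      change Matrix.vecMul (Matrix.vecMul w (1 - e)) e = 0
      rw [Matrix.vecMul_vecMul, h2, Matrix.vecMul_zero]
    · intro h
      have h' : Matrix.vecMul v e = 0 := h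
      refine ⟨v, ?_⟩
      change Matrix.vecMul v (1 - e) = v
      rw [hv, h', sub_zero]
  exact ⟨n, (Matrix.vecMulLinear e).rangeRestrict, LinearMap.surjective_rangeRestrict _,
    FRes.of_equiv (LinearEquiv.ofEq _ _ k) h3⟩

include X in
/-- finitely generated projective `B`-modules are stably free -/
theorem mfr_idem {n : ℕ}
    (hF : ∀ Z : Submodule (SA D I) (Fin n → SA D I), Module.Free (SA D I) Z)
    (e : Matrix (Fin n) (Fin n) B) (he : e * e = e) :
    MFR B (LinearMap.range (Matrix.vecMulLinear e)) := ⟨2, X.fres_idem hF e he⟩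

end Dat

end

end Pool.Agent.Lib.EDG
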