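import Mathlib

/-!
# EDG: the twisted free group algebra `A = D * F` and extensions of its modules

`SA D I = D * F`, `F = FreeGroup I` acting on the ring `D`. For `A`-modules `C`, `M` and additive maps
`τ i : M → C` with `τ i (d m) = (x_i • d) τ i m` the group `C × M` carries the `A`-action for which
`x_i (f, m) = (x_i f + τ i m, x_i m)`: this is the ring homomorphism `ext`.
-/

set_option autoImplicit false

open SkewMonoidAlgebra

namespace Pool.Agent.Lib.EDG

noncomputable section

/-- the twisted free group algebra -/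
abbrev SA (D I : Type) [Ring D] [MulSemiringAction (FreeGroup I) D] : Type :=
  SkewMonoidAlgebra D (FreeGroup I)

variable {D I : Type} [Ring D] [MulSemiringAction (FreeGroup I) D]

/-- scalars -/
def dd : D →+* SA D I := singleOneRingHom

/-- group elements -/
def uu : FreeGroup I →* SA D I := SkewMonoidAlgebra.of D (FreeGroup I)

theorem dd_apply (d : D) : (dd d : SA D I) = single 1 d := rfl

theorem uu_apply (w : FreeGroup I) : (uu w : SA D I) = single w 1 := rfl

theorem dd_mul_uu (d : D) (w : FreeGroup I) : (dd d * uu w : SA D I) = single w d := by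
  rw [dd_apply, uu_apply, single_mul_single, one_mul, smul_one, mul_one]

theorem uu_mul_dd (w : FreeGroup I) (d : D) : (uu w * dd d : SA D I) = dd (w • d) * uu w := by
  rw [dd_mul_uu, dd_apply, uu_apply, single_mul_single, mul_one, one_mul]

theorem uu_inv_mul (w : FreeGroup I) : (uu w⁻¹ * uu w : SA D I) = 1 := by
  rw [← map_mul, inv_mul_cancel, map_one]

theorem uu_mul_inv (w : FreeGroup I) : (uu w * uu w⁻¹ : SA D I) = 1 := by
  rw [← map_mul, mul_inv_cancel, map_one]

theorem SA_induction {p : SA D I → Prop} (a : SA D I) (h0 : p 0)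
    (ha : ∀ a b, p a → p b → p (a + b)) (hm : ∀ d w, p (dd d * uu w)) : p a := by
  refine SkewMonoidAlgebra.induction_on a h0 (fun g d => ?_) (fun f g hf hg => ha _ _ hf hg)
  rw [← dd_mul_uu]
  exact hm d g

section ext

variable {C M : Type} [AddCommGroup C] [Module (SA D I) C] [AddCommGroup M] [Module (SA D I) M]

/-- the action of `x_i` on `C × M` -/
def extU (τ : I → M →+ C) (i : I) : (AddMonoid.End (C × M))ˣ where
  val :=
    { toFun := fun e =>
        ((uu (FreeGroup.of i) : SA D I) • e.1 + τ i e.2, (uu (FreeGroup.of i) : SA D I) • e.2)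
      map_zero' := by
        refine Prod.ext ?_ (smul_zero _)
        change (uu (FreeGroup.of i) : SA D I) • (0 : C) + τ i 0 = 0
        rw [smul_zero, map_zero, add_zero]
      map_add' := fun e e' => by
        refine Prod.ext ?_ (smul_add _ _ _)
        change (uu (FreeGroup.of i) : SA D I) • (e.1 + e'.1) + τ i (e.2 + e'.2) =
          ((uu (FreeGroup.of i) : SA D I) • e.1 + τ i e.2) +
          ((uu (FreeGroup.of i) : SA D I) • e'.1 + τ i e'.2)
        rw [map_add, smul_add]
        abel }
  inv :=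
    { toFun := fun e => ((uu (FreeGroup.of i)⁻¹ : SA D I) •
          (e.1 - τ i ((uu (FreeGroup.of i)⁻¹ : SA D I) • e.2)),
        (uu (FreeGroup.of i)⁻¹ : SA D I) • e.2)
      map_zero' := by
        refine Prod.ext ?_ (smul_zero _)
        change (uu (FreeGroup.of i)⁻¹ : SA D I) •
          ((0 : C) - τ i ((uu (FreeGroup.of i)⁻¹ : SA D I) • 0)) = 0
        rw [smul_zero, map_zero, sub_zero, smul_zero]
      map_add' := fun e e' => by
        refine Prod.ext ?_ (smul_add _ _ _)
        change (uu (FreeGroup.of i)⁻¹ : SA D I) •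
          ((e.1 + e'.1) - τ i ((uu (FreeGroup.of i)⁻¹ : SA D I) • (e.2 + e'.2))) =
          ((uu (FreeGroup.of i)⁻¹ : SA D I) •
            (e.1 - τ i ((uu (FreeGroup.of i)⁻¹ : SA D I) • e.2))) +
          ((uu (FreeGroup.of i)⁻¹ : SA D I) •
            (e'.1 - τ i ((uu (FreeGroup.of i)⁻¹ : SA D I) • e'.2)))
        rw [← smul_add, smul_add _ e.2, map_add]
        congr 1
        abel }
  val_inv := by
    refine AddMonoidHom.ext fun e => ?_
    refine Prod.ext ?_ ?_
    · change (uu (FreeGroup.of i) : SA D I) • (uu (FreeGroup.of i)⁻¹ : SA D I) •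
        (e.1 - τ i ((uu (FreeGroup.of i)⁻¹ : SA D I) • e.2)) +
        τ i ((uu (FreeGroup.of i)⁻¹ : SA D I) • e.2) = e.1
      rw [smul_smul, uu_mul_inv, one_smul, sub_add_cancel]
    · change (uu (FreeGroup.of i) : SA D I) • (uu (FreeGroup.of i)⁻¹ : SA D I) • e.2 = e.2
      rw [smul_smul, uu_mul_inv, one_smul]
  inv_val := by
    refine AddMonoidHom.ext fun e => ?_
    refine Prod.ext ?_ ?_
    · change (uu (FreeGroup.of i)⁻¹ : SA D I) • ((uu (FreeGroup.of i) : SA D I) • e.1 + τ i e.2 -
        τ i ((uu (FreeGroup.of i)⁻¹ : SA D I) • (uu (FreeGroup.of i) : SA D I) • e.2)) = e.1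
      rw [smul_smul _ _ e.2, uu_inv_mul, one_smul, add_sub_cancel_right, smul_smul, uu_inv_mul,
        one_smul]
    · change (uu (FreeGroup.of i)⁻¹ : SA D I) • (uu (FreeGroup.of i) : SA D I) • e.2 = e.2
      rw [smul_smul, uu_inv_mul, one_smul]

/-- the action of the free group on `C × M` -/
def extW (τ : I → M →+ C) : FreeGroup I →* (AddMonoid.End (C × M))ˣ :=
  FreeGroup.lift (extU (D := D) τ)

/-- the operator of a group element -/
def exW (τ : I → M →+ C) (w : FreeGroup I) (e : C × M) : C × M := (extW (D := D) τ w).1 e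

theorem exW_of (τ : I → M →+ C) (i : I) (e : C × M) : exW (D := D) τ (FreeGroup.of i) e =
    ((uu (FreeGroup.of i) : SA D I) • e.1 + τ i e.2, (uu (FreeGroup.of i) : SA D I) • e.2) := by
  unfold exW extW
  rw [FreeGroup.lift_apply_of]
  rfl

theorem exW_of_inv (τ : I → M →+ C) (i : I) (e : C × M) : exW (D := D) τ (FreeGroup.of i)⁻¹ e =
    ((uu (FreeGroup.of i)⁻¹ : SA D I) • (e.1 - τ i ((uu (FreeGroup.of i)⁻¹ : SA D I) • e.2)),
    (uu (FreeGroup.of i)⁻¹ : SA D I) • e.2) := by
  unfold exW extW
  rw [map_inv, FreeGroup.lift_apply_of]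
  rfl

theorem exW_one (τ : I → M →+ C) (e : C × M) : exW (D := D) τ 1 e = e := by
  unfold exW
  rw [map_one]
  rfl

theorem exW_mul (τ : I → M →+ C) (w w' : FreeGroup I) (e : C × M) :
    exW (D := D) τ (w * w') e = exW (D := D) τ w (exW (D := D) τ w' e) := by
  unfold exW
  rw [map_mul]
  rfl

theorem exW_mul_inv (τ : I → M →+ C) (w : FreeGroup I) (e : C × M) :
    exW (D := D) τ w (exW (D := D) τ w⁻¹ e) = e := by
  rw [← exW_mul, mul_inv_cancel, exW_one]

theorem exW_inv_mul (τ : I → M →+ C) (w : FreeGroup I) (e : C × M) :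
    exW (D := D) τ w⁻¹ (exW (D := D) τ w e) = e := by
  rw [← exW_mul, inv_mul_cancel, exW_one]

/-- a property of group elements which holds for generators and is closed under products and inverses -/
theorem FG_induction {p : FreeGroup I → Prop} (w : FreeGroup I) (h1 : p 1)
    (hg : ∀ i, p (FreeGroup.of i)) (hm : ∀ w w', p w → p w' → p (w * w')) (hi : ∀ w, p w → p w⁻¹) :
    p w := by
  induction w using FreeGroup.induction_on with
  | C1 => exact h1
  | of i => exact hg i
  | inv_of i h => exact hi _ h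
  | mul x y hx hy => exact hm _ _ hx hy

theorem exW_snd (τ : I → M →+ C) (w : FreeGroup I) (e : C × M) :
    (exW (D := D) τ w e).2 = (uu w : SA D I) • e.2 := by
  induction w using FG_induction generalizing e with
  | h1 => rw [exW_one, map_one, one_smul]
  | hg i => rw [exW_of]
  | hm w w' h h' => rw [exW_mul, h, h', map_mul, mul_smul]
  | hi w h =>
    have h2 := h (exW (D := D) τ w⁻¹ e)
    rw [exW_mul_inv] at h2
    rw [h2, smul_smul, uu_inv_mul, one_smul]

theorem exW_fst (τ : I → M →+ C) (w : FreeGroup I) (f : C) :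
    exW (D := D) τ w (f, 0) = ((uu w : SA D I) • f, 0) := by
  induction w using FG_induction generalizing f with
  | h1 => rw [exW_one, map_one, one_smul]
  | hg i => rw [exW_of, map_zero, add_zero, smul_zero]
  | hm w w' h h' => rw [exW_mul, h', h, map_mul, mul_smul]
  | hi w h =>
    have h2 := h ((uu w⁻¹ : SA D I) • f)
    rw [smul_smul, uu_mul_inv, one_smul] at h2
    rw [← h2, exW_inv_mul]

theorem exW_dd (τ : I → M →+ C)
    (hτ : ∀ i d m, τ i ((dd d : SA D I) • m) = (dd (FreeGroup.of i • d) : SA D I) • τ i m)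
    (w : FreeGroup I) (d : D) (e : C × M) :
    exW (D := D) τ w ((dd d : SA D I) • e) = (dd (w • d) : SA D I) • exW (D := D) τ w e := by
  induction w using FG_induction generalizing d e with
  | h1 => rw [exW_one, exW_one, one_smul]
  | hg i =>
    rw [exW_of, exW_of]
    refine Prod.ext ?_ ?_
    · change (uu (FreeGroup.of i) : SA D I) • (dd d : SA D I) • e.1 + τ i ((dd d : SA D I) • e.2) =
        (dd (FreeGroup.of i • d) : SA D I) • ((uu (FreeGroup.of i) : SA D I) • e.1 + τ i e.2)
      rw [hτ, smul_smul, uu_mul_dd, mul_smul, smul_add]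
    · change (uu (FreeGroup.of i) : SA D I) • (dd d : SA D I) • e.2 =
        (dd (FreeGroup.of i • d) : SA D I) • (uu (FreeGroup.of i) : SA D I) • e.2
      rw [smul_smul, uu_mul_dd, mul_smul]
  | hm w w' h h' => rw [exW_mul, h', h, exW_mul, mul_smul]
  | hi w h =>
    have h2 := h (w⁻¹ • d) (exW (D := D) τ w⁻¹ e)
    rw [smul_inv_smul, exW_mul_inv] at h2
    rw [← h2, exW_inv_mul]

/-- the ring homomorphism `A → End (C × M)` -/
def ext (τ : I → M →+ C)
    (hτ : ∀ i d m, τ i ((dd d : SA D I) • m) = (dd (FreeGroup.of i • d) : SA D I) • τ i m) :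
    SA D I →+* AddMonoid.End (C × M) :=
  liftNCRingHom ((Module.toAddMonoidEnd (SA D I) (C × M)).comp dd)
    ((Units.coeHom _).comp (extW (D := D) τ)) (by
      intro x y
      refine AddMonoidHom.ext fun e => ?_
      exact (exW_dd τ hτ y x e).symm)

variable (τ : I → M →+ C)
    (hτ : ∀ i d m, τ i ((dd d : SA D I) • m) = (dd (FreeGroup.of i • d) : SA D I) • τ i m)

theorem ext_mul_apply (a b : SA D I) (e : C × M) : ext τ hτ (a * b) e = ext τ hτ a (ext τ hτ b e) := by
  rw [map_mul]; rfl

theorem ext_add_apply (a b : SA D I) (e : C × M) : ext τ hτ (a + b) e = ext τ hτ a e + ext τ hτ b e := by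
  rw [map_add]; rfl

theorem ext_dd (d : D) (e : C × M) : ext τ hτ (dd d) e = (dd d : SA D I) • e := by
  have h : ext τ hτ (dd d) = ((Module.toAddMonoidEnd (SA D I) (C × M)).comp dd) d *
      ((Units.coeHom _).comp (extW (D := D) τ)) 1 := liftNC_single _ _ _ _
  rw [h, map_one, mul_one]
  rfl

theorem ext_uu (w : FreeGroup I) (e : C × M) : ext τ hτ (uu w) e = exW (D := D) τ w e := by
  have h : ext τ hτ (uu w) = ((Module.toAddMonoidEnd (SA D I) (C × M)).comp dd) 1 *
      ((Units.coeHom _).comp (extW (D := D) τ)) w := liftNC_single _ _ _ _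
  rw [h, map_one, one_mul]
  rfl

theorem ext_of (i : I) (e : C × M) : ext τ hτ (uu (FreeGroup.of i)) e =
    ((uu (FreeGroup.of i) : SA D I) • e.1 + τ i e.2, (uu (FreeGroup.of i) : SA D I) • e.2) := by
  rw [ext_uu, exW_of]

theorem ext_of_inv (i : I) (e : C × M) : ext τ hτ (uu (FreeGroup.of i)⁻¹) e =
    ((uu (FreeGroup.of i)⁻¹ : SA D I) • (e.1 - τ i ((uu (FreeGroup.of i)⁻¹ : SA D I) • e.2)),
    (uu (FreeGroup.of i)⁻¹ : SA D I) • e.2) := by
  rw [ext_uu, exW_of_inv]

theorem ext_snd (a : SA D I) (e : C × M) : (ext τ hτ a e).2 = a • e.2 := by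
  induction a using SA_induction with
  | h0 => rw [map_zero, zero_smul]; rfl
  | ha a b h h' => rw [ext_add_apply, add_smul, ← h, ← h']; rfl
  | hm d w => rw [ext_mul_apply, ext_dd, ext_uu, mul_smul, ← exW_snd τ]; rfl

theorem ext_fst (a : SA D I) (f : C) : ext τ hτ a (f, 0) = (a • f, 0) := by
  induction a using SA_induction with
  | h0 => rw [map_zero, zero_smul]; rfl
  | ha a b h h' => rw [ext_add_apply, add_smul, h, h', Prod.mk_add_mk, add_zero]
  | hm d w => rw [ext_mul_apply, ext_dd, ext_uu, mul_smul, exW_fst]; exact Prod.ext rfl (smul_zero _)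

end ext

end

end Pool.Agent.Lib.EDG
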