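import Pool.Agent.Lib.EDG.IM

/-!
# EDG: stages with independent loops, and the resolution
-/

set_option autoImplicit false
set_option linter.unusedSectionVars false

namespace Pool.Agent.Lib.EDG

noncomputable section

variable {D I B : Type} [DivisionRing D] [MulSemiringAction (FreeGroup I) D] [Ring B]
variable {G J : Type} {φ : SA D I →+* B} {κ Λ : Type} [Fintype κ] [Fintype Λ]

/-- the loops of `s` are independent -/
def Stg.Indep {X : XD G J φ} {P : Submodule B (κ → B)} {j : Λ → J} {y : Λ → κ → SA D I}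
    {s : Finset Λ} (T : Stg X P j y s) : Prop :=
  ∀ a : Λ → SA D I, (∀ l, l ∉ s → a l = 0) → ∑ l, a l • X.r (j l) • y l ∈ IM φ T.K →
    ∀ l, φ (a l) = 0

section aux

variable [DecidableEq J] [DecidableEq G]

/-- the family `g ↦ d_g y` placed at `(g, j)` -/
def plc (j : J) (v : κ → SA D I) : (G →₀ D) →+ (G × J →₀ (κ → SA D I)) :=
  Finsupp.liftAddHom fun g => (Finsupp.singleAddHom (g, j)).comp
    (((smulAddHom (SA D I) (κ → SA D I)).flip v).comp (dd (D := D) (I := I)).toAddMonoidHom)

theorem plc_single (j : J) (v : κ → SA D I) (g : G) (d : D) :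
    plc j v (Finsupp.single g d) = Finsupp.single (g, j) ((dd d : SA D I) • v) := by
  unfold plc
  rw [Finsupp.liftAddHom_apply_single]
  rfl

theorem plc_apply (j : J) (v : κ → SA D I) (d : G →₀ D) (g : G) (j' : J) :
    plc j v d (g, j') = if j = j' then (dd (d g) : SA D I) • v else 0 := by
  induction d using Finsupp.induction_linear with
  | zero => rw [map_zero, Finsupp.zero_apply, Finsupp.zero_apply, map_zero, zero_smul, ite_self]
  | add f f' h h' =>
    rw [map_add, Finsupp.add_apply, h, h', Finsupp.add_apply, map_add, add_smul]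
    split_ifs
    · rfl
    · rw [add_zero]
  | single g' d' =>
    rw [plc_single, Finsupp.single_apply, Finsupp.single_apply]
    by_cases h1 : g' = g
    · by_cases h2 : j = j'
      · rw [if_pos (by rw [h1, h2]), if_pos h2, if_pos h1]
      · rw [if_neg (by rintro h; exact h2 (Prod.mk.inj h).2), if_neg h2]
    · rw [if_neg (by rintro h; exact h1 (Prod.mk.inj h).1), if_neg h1, map_zero, zero_smul, ite_self]

theorem plc_sum (X : XD G J φ) (j : J) (v : κ → SA D I) (d : G →₀ D) :
    ((plc j v d).sum fun gj v => X.w gj.1 • X.r gj.2 • v) =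
      (d.sum fun g x => X.w g * dd x) • X.r j • v := by
  induction d using Finsupp.induction_linear with
  | zero => rw [map_zero, Finsupp.sum_zero_index, Finsupp.sum_zero_index, zero_smul]
  | add f f' h h' =>
    rw [map_add, Finsupp.sum_add_index', h, h', Finsupp.sum_add_index', add_smul]
    · intro g; rw [map_zero, mul_zero]
    · intro g x x'; rw [map_add, mul_add]
    · intro gj; rw [smul_zero, smul_zero]
    · intro gj x x'; rw [smul_add, smul_add]
  | single g' d' =>
    rw [plc_single, Finsupp.sum_single_index, Finsupp.sum_single_index]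
    · change X.w g' • X.r j • (dd d' : SA D I) • v = _
      rw [smul_smul (X.r j), X.rd, mul_smul (dd d'), smul_smul]
    · rw [map_zero, mul_zero]
    · rw [smul_zero, smul_zero]

end aux

/-- remove a dependent loop -/
theorem step {X : XD G J φ} (hC : LemC X κ) {P : Submodule B (κ → B)} {j : Λ → J}
    {y : Λ → κ → SA D I} {s : Finset Λ} [DecidableEq Λ] (T : Stg X P j y s) (hT : ¬ T.Indep) :
    ∃ l0 ∈ s, Nonempty (Stg X P j y (s.erase l0)) := by
  classical
  unfold Stg.Indep at hT
  push Not at hT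
  obtain ⟨a, has, haK, l0, hl0⟩ := hT
  have hl0s : l0 ∈ s := by
    by_contra h
    rw [has l0 h, map_zero] at hl0
    exact hl0 rfl
  choose d hd using fun l => X.hex (a l)
  -- normalise
  let d' : Λ → G →₀ D := fun l => if l ∈ s then d l else 0
  have hd' : ∀ l, φ (a l) = φ ((d' l).sum fun g x => X.w g * dd x) := by
    intro l
    by_cases h : l ∈ s
    · change _ = φ (Finsupp.sum (if l ∈ s then d l else 0) _)
      rw [if_pos h]
      exact hd l
    · change _ = φ (Finsupp.sum (if l ∈ s then d l else 0) _)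
      rw [if_neg h, has l h, Finsupp.sum_zero_index]
  have hd0 : d' l0 ≠ 0 := by
    intro h
    apply hl0
    rw [hd', h, Finsupp.sum_zero_index, map_zero]
  obtain ⟨g0, hg0⟩ := Finsupp.ne_iff.1 hd0
  rw [Finsupp.zero_apply] at hg0
  let y' : G × J →₀ (κ → SA D I) := ∑ l, plc (j l) (y l) (d' l)
  have hy' : ∀ g j', y' (g, j') = ∑ l, if j l = j' then (dd (d' l g) : SA D I) • y l else 0 := by
    intro g j'
    change (∑ l, plc (j l) (y l) (d' l)) (g, j') = _
    rw [Finsupp.finsetSum_apply]
    exact Finset.sum_congr rfl fun l _ => plc_apply _ _ _ _ _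
  have hyK : ∀ gj : G × J, X.r gj.2 • y' gj ∈ T.K := by
    rintro ⟨g, j'⟩
    rw [hy', Finset.smul_sum]
    refine Submodule.sum_mem _ fun l _ => ?_
    by_cases h : j l = j'
    · rw [if_pos h, ← h, smul_smul, X.rd, mul_smul]
      exact T.K.smul_mem _ (T.hK l)
    · rw [if_neg h, smul_zero]
      exact Submodule.zero_mem _
  have hysum : (y'.sum fun gj v => X.w gj.1 • X.r gj.2 • v) =
      ∑ l, ((d' l).sum fun g x => X.w g * dd x) • X.r (j l) • y l := by
    have h : ∀ t : Finset Λ, ((∑ l ∈ t, plc (j l) (y l) (d' l)).sum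
        fun gj v => X.w gj.1 • X.r gj.2 • v) =
        ∑ l ∈ t, ((d' l).sum fun g x => X.w g * dd x) • X.r (j l) • y l := by
      intro t
      induction t using Finset.induction_on with
      | empty => rw [Finset.sum_empty, Finset.sum_empty, Finsupp.sum_zero_index]
      | insert l t hl ih =>
        rw [Finset.sum_insert hl, Finset.sum_insert hl, Finsupp.sum_add_index', ih, plc_sum]
        · intro gj; rw [smul_zero, smul_zero]
        · intro gj x x'; rw [smul_add, smul_add]
    exact h Finset.univ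
  have hyI : (y'.sum fun gj v => X.w gj.1 • X.r gj.2 • v) ∈ IM φ T.K := by
    rw [hysum]
    have e : ∑ l, ((d' l).sum fun g x => X.w g * dd x) • X.r (j l) • y l =
        ∑ l, a l • X.r (j l) • y l -
        ∑ l, (a l - ((d' l).sum fun g x => X.w g * dd x)) • X.r (j l) • y l := by
      rw [← Finset.sum_sub_distrib]
      refine Finset.sum_congr rfl fun l _ => ?_
      rw [sub_smul]
      abel
    rw [e]
    refine Submodule.sub_mem _ haK (Submodule.sum_mem _ fun l _ => ?_)
    refine smul_mem_IM φ ?_ (T.hK l)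
    rw [map_sub, ← hd', sub_self]
  have hCy := hC T.K T.fg y' hyK hyI
  let K' : Submodule (SA D I) (κ → SA D I) := T.K ⊔ Submodule.span (SA D I) (Set.range y')
  have hKK' : T.K ≤ K' := le_sup_left
  have hle : K' ≤ T.K ⊔ IM φ K' := by
    refine sup_le le_sup_left (Submodule.span_le.2 ?_)
    rintro _ ⟨gj, rfl⟩
    exact hCy gj
  have hfg : K'.FG := by
    refine T.fg.sup ?_
    have h : (Set.range y') ⊆ insert 0 (y' '' y'.support) := by
      rintro _ ⟨gj, rfl⟩
      by_cases h : y' gj = 0
      · left; exact h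
      · right; exact ⟨gj, Finsupp.mem_support_iff.2 h, rfl⟩
    have h2 : (Set.range y').Finite :=
      ((y'.support.finite_toSet.image _).insert 0).subset h
    exact Submodule.fg_span h2
  have hyl0 : y' (g0, j l0) ∈ K' := Submodule.mem_sup_right (Submodule.subset_span ⟨_, rfl⟩)
  -- the removed loop
  have hrem : X.r (j l0) • y l0 ∈ IM φ K' ⊔ Submodule.span (SA D I)
      ((fun l => X.r (j l) • y l) '' (s.erase l0 : Finset Λ)) := by
    have e1 := hy' g0 (j l0)
    rw [← Finset.add_sum_erase _ _ (Finset.mem_univ l0), if_pos rfl] at e1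
    have e2 : X.r (j l0) • y l0 = (dd (d' l0 g0)⁻¹ : SA D I) • (X.r (j l0) • y' (g0, j l0) -
        X.r (j l0) • ∑ l ∈ Finset.univ.erase l0,
          if j l = j l0 then (dd (d' l g0) : SA D I) • y l else 0) := by
      rw [e1, smul_add, add_sub_cancel_right, smul_smul, smul_smul, mul_assoc, X.rd, ← mul_assoc,
        ← map_mul,
        inv_mul_cancel₀ hg0, map_one, one_mul]
    rw [e2]
    refine Submodule.smul_mem _ _ (Submodule.sub_mem _ ?_ ?_)
    · exact Submodule.mem_sup_left (smul_mem_IM φ (X.φr _) hyl0)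
    · rw [Finset.smul_sum]
      refine Submodule.sum_mem _ fun l hl => ?_
      by_cases h : j l = j l0
      · rw [if_pos h]
        by_cases hs : l ∈ s
        · rw [← h, smul_smul, X.rd, mul_smul]
          refine Submodule.smul_mem _ _ (Submodule.mem_sup_right (Submodule.subset_span ⟨l, ?_, rfl⟩))
          exact Finset.mem_coe.2 (Finset.mem_erase.2 ⟨(Finset.mem_erase.1 hl).1, hs⟩)
        · have h3 : d' l = 0 := if_neg hs
          rw [h3, Finsupp.zero_apply, map_zero, zero_smul, smul_zero]
          exact Submodule.zero_mem _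
      · rw [if_neg h, smul_zero]
        exact Submodule.zero_mem _
  refine ⟨l0, hl0s, ⟨⟨K', hfg, fun l => hKK' (T.hK l), fun z => ?_, ?_⟩⟩⟩
  · rw [← T.hP z]
    constructor
    · intro hz
      have h2 : K' ⊔ IM φ ⊤ ≤ T.K ⊔ IM φ ⊤ :=
        sup_le (hle.trans (sup_le_sup_left (IM_mono φ le_top) _)) le_sup_right
      exact h2 hz
    · intro hz
      exact sup_le_sup_right hKK' _ hz
  · rintro x ⟨hx1, hx2⟩
    obtain ⟨k, hk, z, hz, rfl⟩ := Submodule.mem_sup.1 (hle hx1)
    have hk2 : k ∈ T.K ⊓ IM φ ⊤ := by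
      refine ⟨hk, ?_⟩
      have h3 := Submodule.sub_mem _ hx2 (IM_mono φ (le_top : K' ≤ ⊤) hz)
      rwa [add_sub_cancel_right] at h3
    have h4 : IM φ T.K ⊔ Submodule.span (SA D I) ((fun l => X.r (j l) • y l) '' s) ≤
        IM φ K' ⊔ Submodule.span (SA D I)
          ((fun l => X.r (j l) • y l) '' (s.erase l0 : Finset Λ)) := by
      refine sup_le ((IM_mono φ hKK').trans le_sup_left) (Submodule.span_le.2 ?_)
      rintro _ ⟨l, hl, rfl⟩
      by_cases h : l = l0
      · rw [h]; exact hrem
      · exact Submodule.mem_sup_right (Submodule.subset_span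
          ⟨l, Finset.mem_coe.2 (Finset.mem_erase.2 ⟨h, hl⟩), rfl⟩)
    exact Submodule.add_mem _ (h4 (T.hH hk2)) (Submodule.mem_sup_left hz)

/-- there is a stage with independent loops -/
theorem exists_indep {X : XD G J φ} (hC : LemC X κ) {P : Submodule B (κ → B)} {j : Λ → J}
    {y : Λ → κ → SA D I} {s : Finset Λ} (T : Stg X P j y s) :
    ∃ (s' : Finset Λ) (T' : Stg X P j y s'), T'.Indep := by
  classical
  induction hn : s.card generalizing s with
  | zero =>
    refine ⟨s, T, fun a ha _ l => ?_⟩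
    rw [ha l (by rw [Finset.card_eq_zero.1 hn]; exact Finset.notMem_empty l), map_zero]
  | succ n ih =>
    by_cases h : T.Indep
    · exact ⟨s, T, h⟩
    · obtain ⟨l0, hl0, ⟨T'⟩⟩ := step hC T h
      exact ih T' (by rw [Finset.card_erase_of_mem hl0, hn]; rfl)

/-- **the resolution** -/
theorem exists_res {X : XD G J φ} (hC : LemC X κ) {P : Submodule B (κ → B)} {j : Λ → J}
    {y : Λ → κ → SA D I} {s : Finset Λ} (T : Stg X P j y s) :
    ∃ (a m : ℕ) (θ : Matrix (Fin a) (Fin m) B) (η : Matrix (Fin m) κ B),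
      (∀ β : Fin a → B, Matrix.vecMul β θ = 0 → β = 0) ∧
      (∀ γ : Fin m → B, Matrix.vecMul γ η = 0 ↔ ∃ β : Fin a → B, γ = Matrix.vecMul β θ) ∧
      (∀ z : κ → B, z ∈ P ↔ ∃ γ : Fin m → B, z = Matrix.vecMul γ η) := by
  classical
  obtain ⟨s', T', hT⟩ := exists_indep hC T
  obtain ⟨m, ⟨b⟩⟩ := exists_fin_basis T'.K T'.fg
  let e : Fin s'.card ≃ s' := s'.equivFin.symm
  let θ0 : Fin s'.card → Fin m → SA D I := fun l k =>
    b.repr ⟨X.r (j (e l).1) • y (e l).1, T'.hK _⟩ k
  have hθ0 : ∀ l, X.r (j (e l).1) • y (e l).1 = ∑ k, θ0 l k • (b k).1 := by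
    intro l
    have h := congrArg Subtype.val (b.sum_repr ⟨X.r (j (e l).1) • y (e l).1, T'.hK _⟩)
    rw [AddSubmonoidClass.coe_finsetSum] at h
    exact h.symm
  have hspan : Submodule.span (SA D I) (Set.range fun k => (b k).1) = T'.K := by
    have h : (Set.range fun k => (b k).1) = T'.K.subtype '' Set.range b := by
      rw [← Set.range_comp]; rfl
    rw [h, Submodule.span_image, b.span_eq, Submodule.map_top, Submodule.range_subtype]
  have hI : IM φ (Submodule.span (SA D I) (Set.range fun k => (b k).1)) = IM φ T'.K :=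
    congrArg (IM φ) hspan
  have hind : ∀ c c' : Fin m → SA D I, ∑ k, c k • (b k).1 = ∑ k, c' k • (b k).1 → c = c' := by
    intro c c' h
    have h2 : ∑ k, c k • b k = ∑ k, c' k • b k := by
      apply Subtype.ext
      rw [AddSubmonoidClass.coe_finsetSum, AddSubmonoidClass.coe_finsetSum]
      exact h
    have h3 := congrArg b.repr h2
    rw [map_sum, map_sum] at h3
    funext k
    have h4 := congrArg (fun f => f k) h3
    simpa [Finsupp.finsetSum_apply, Finsupp.single_apply] using h4
  -- sums over loops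
  have hloop : ∀ β : Fin s'.card → SA D I, ∑ l, β l • X.r (j (e l).1) • y (e l).1 =
      ∑ k, (∑ l, β l * θ0 l k) • (b k).1 := by
    intro β
    have h1 : ∀ l, β l • X.r (j (e l).1) • y (e l).1 = ∑ k, (β l * θ0 l k) • (b k).1 := by
      intro l
      rw [hθ0, Finset.smul_sum]
      exact Finset.sum_congr rfl fun k _ => by rw [mul_smul]
    rw [Finset.sum_congr rfl fun l _ => h1 l, Finset.sum_comm]
    exact Finset.sum_congr rfl fun k _ => by rw [Finset.sum_smul]
  let θ : Matrix (Fin s'.card) (Fin m) B := fun l k => φ (θ0 l k)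
  let η : Matrix (Fin m) κ B := fun k i => φ ((b k).1 i)
  have hvθ : ∀ β : Fin s'.card → SA D I, Matrix.vecMul (fun l => φ (β l)) θ =
      fun k => φ (∑ l, β l * θ0 l k) := by
    intro β
    funext k
    change ∑ l, φ (β l) * φ (θ0 l k) = _
    rw [map_sum]
    exact Finset.sum_congr rfl fun l _ => by rw [map_mul]
  have hvη : ∀ γ : Fin m → SA D I, Matrix.vecMul (fun l => φ (γ l)) η =
      fun i => φ ((∑ k, γ k • (b k).1) i) := by
    intro γ
    funext i
    change ∑ k, φ (γ k) * φ ((b k).1 i) = _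
    rw [Finset.sum_apply, map_sum]
    exact Finset.sum_congr rfl fun l _ => by rw [Pi.smul_apply, smul_eq_mul, map_mul]
  have hsurj : ∀ {n : ℕ} (β : Fin n → B), ∃ β' : Fin n → SA D I, β = fun l => φ (β' l) := by
    intro n β
    choose β' h using fun l => X.surj (β l)
    exact ⟨β', funext fun l => (h l).symm⟩
  refine ⟨s'.card, m, θ, η, ?_, ?_, ?_⟩
  · intro β hβ
    obtain ⟨β', rfl⟩ := hsurj β
    rw [hvθ] at hβ
    let a : Λ → SA D I := fun l => if h : l ∈ s' then β' (e.symm ⟨l, h⟩) else 0
    have ha : ∀ l, a (e l).1 = β' l := by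
      intro l
      change (if h : (e l).1 ∈ s' then β' (e.symm ⟨(e l).1, h⟩) else 0) = _
      rw [dif_pos (e l).2]
      congr 1
      exact e.symm_apply_apply l
    have hsum : ∑ l, a l • X.r (j l) • y l = ∑ l, β' l • X.r (j (e l).1) • y (e l).1 := by
      have h1 : ∑ l, a l • X.r (j l) • y l = ∑ l ∈ s', a l • X.r (j l) • y l := by
        symm
        refine Finset.sum_subset (Finset.subset_univ _) fun l _ hl => ?_
        change (if h : l ∈ s' then β' (e.symm ⟨l, h⟩) else 0) • _ = _
        rw [dif_neg hl, zero_smul]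
      rw [h1, ← Finset.sum_coe_sort, ← e.sum_comp]
      exact Finset.sum_congr rfl fun l _ => by rw [ha]
    have h := hT a (fun l hl => dif_neg hl) (by
      rw [hsum, hloop]
      exact hI.le ((mem_IM_span φ _ _).2 ⟨_, fun k => congrFun hβ k, rfl⟩))
    funext l
    rw [← ha l]
    exact h _
  · intro γ
    constructor
    · intro hγ
      obtain ⟨γ', rfl⟩ := hsurj γ
      rw [hvη] at hγ
      have hx1 : (∑ k, γ' k • (b k).1) ∈ T'.K :=
        Submodule.sum_mem _ fun k _ => T'.K.smul_mem _ (b k).2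
      have hx2 : (∑ k, γ' k • (b k).1) ∈ IM φ (⊤ : Submodule (SA D I) (κ → SA D I)) :=
        (mem_IM_top φ _).2 fun i => congrFun hγ i
      obtain ⟨u, hu, v, hv, huv⟩ := Submodule.mem_sup.1 (T'.hH ⟨hx1, hx2⟩)
      obtain ⟨c, hc, rfl⟩ := (mem_IM_span φ _ _).1 (hI.ge hu)
      have hv2 : ∃ β : Fin s'.card → SA D I, v = ∑ l, β l • X.r (j (e l).1) • y (e l).1 := by
        have h : (fun l => X.r (j l) • y l) '' (s' : Set Λ) =
            Set.range fun l : Fin s'.card => X.r (j (e l).1) • y (e l).1 := by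
          ext x
          constructor
          · rintro ⟨l, hl, rfl⟩
            refine ⟨e.symm ⟨l, hl⟩, ?_⟩
            change X.r (j (e (e.symm ⟨l, hl⟩)).1) • y (e (e.symm ⟨l, hl⟩)).1 = _
            rw [e.apply_symm_apply]
          · rintro ⟨l, rfl⟩
            exact ⟨(e l).1, (e l).2, rfl⟩
        rw [h] at hv
        obtain ⟨β, hβ⟩ := (Submodule.mem_span_range_iff_exists_fun _).1 hv
        exact ⟨β, hβ.symm⟩
      obtain ⟨β, rfl⟩ := hv2
      refine ⟨fun l => φ (β l), ?_⟩
      rw [hvθ]
      rw [hloop, ← Finset.sum_add_distrib] at huv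
      have h5 := hind (fun k => c k + ∑ l, β l * θ0 l k) γ' (by
        rw [← huv]
        exact Finset.sum_congr rfl fun k _ => by rw [add_smul])
      funext k
      rw [← h5, map_add, hc, zero_add]
    · rintro ⟨β, rfl⟩
      obtain ⟨β', rfl⟩ := hsurj β
      rw [hvθ, hvη (fun k => ∑ l, β' l * θ0 l k), ← hloop]
      funext i
      rw [Finset.sum_apply, map_sum]
      refine Finset.sum_eq_zero fun l _ => ?_
      rw [Pi.smul_apply, Pi.smul_apply, smul_eq_mul, smul_eq_mul, map_mul, map_mul, X.φr, zero_mul,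
        mul_zero]
  · intro z
    choose z' hz' using fun k => X.surj (z k)
    have ez : z = fun k => φ (z' k) := funext fun k => (hz' k).symm
    constructor
    · intro hz
      rw [ez, ← T'.hP z'] at hz
      obtain ⟨k, hk, t, ht, hkt⟩ := Submodule.mem_sup.1 hz
      obtain ⟨γ, hγ⟩ := (Submodule.mem_span_range_iff_exists_fun _).1 (hspan.ge hk)
      refine ⟨fun l => φ (γ l), ?_⟩
      rw [hvη, hγ, ez]
      funext i
      rw [← hkt, Pi.add_apply, map_add, (mem_IM_top φ t).1 ht i, add_zero]
    · rintro ⟨γ, rfl⟩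
      obtain ⟨γ', rfl⟩ := hsurj γ
      rw [hvη, ← T'.hP]
      refine Submodule.mem_sup_left (Submodule.sum_mem _ fun k _ => T'.K.smul_mem _ (b k).2)

end

end Pool.Agent.Lib.EDG
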