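import Pool.Agent.Lib.EDG.FirS

/-!
# EDG: submodules of free modules over the twisted free group algebra are free
-/

set_option autoImplicit false
set_option linter.unusedSectionVars false

open SkewMonoidAlgebra

namespace Pool.Agent.Lib.EDG

noncomputable section

variable {D I κ : Type} [DivisionRing D] [MulSemiringAction (FreeGroup I) D] [DecidableEq I]
  [Fintype κ] [DecidableEq κ]

section proof

variable (Z : Submodule (SA D I) (κ → SA D I)) (S : Set (FreeGroup I × κ))

/-- index set of all coordinates -/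
abbrev Ix : Type := (S × I) ⊕ κ

/-- the target of a coordinate -/
def tg : Ix (I := I) S → FreeGroup I × κ
  | Sum.inl si => (FreeGroup.of si.2 * si.1.1.1, si.1.1.2)
  | Sum.inr k => (1, k)

/-- forest elements -/
def Fo : Submodule (SA D I) (Ix (I := I) S →₀ SA D I) where
  carrier := {f | ∀ ω, tg S ω ∉ S → f ω = 0}
  add_mem' hf hg ω h := by rw [Finsupp.add_apply, hf ω h, hg ω h, add_zero]
  zero_mem' ω _ := rfl
  smul_mem' a f hf ω h := by rw [Finsupp.smul_apply, hf ω h, smul_zero]

theorem mem_Fo {f : Ix (I := I) S →₀ SA D I} : f ∈ Fo S ↔ ∀ ω, tg S ω ∉ S → f ω = 0 := Iff.rfl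

theorem single_mem_Fo {ω : Ix (I := I) S} (h : tg S ω ∈ S) (a : SA D I) :
    Finsupp.single ω a ∈ Fo (D := D) S := by
  intro ω' h'
  rw [Finsupp.single_apply, if_neg]
  rintro rfl
  exact h' h

variable {Z S} (bs : Module.Basis S D ((κ → SA D I) ⧸ Z))

/-- the map `τ_i` on coordinates -/
def tau0 (i : I) : (S →₀ D) →+ (Ix (I := I) S →₀ SA D I) :=
  Finsupp.liftAddHom fun s => (Finsupp.singleAddHom (Sum.inl (s, i))).comp
    ((dd (D := D) (I := I)).toAddMonoidHom.comp
      (MulSemiringAction.toRingHom (FreeGroup I) D (FreeGroup.of i)).toAddMonoidHom)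

theorem tau0_single (i : I) (s : S) (d : D) :
    tau0 (S := S) (D := D) i (Finsupp.single s d) =
      Finsupp.single (Sum.inl (s, i)) (dd (FreeGroup.of i • d)) := by
  unfold tau0
  rw [Finsupp.liftAddHom_apply_single]
  rfl

/-- the maps `τ_i` -/
def tau (i : I) : ((κ → SA D I) ⧸ Z) →+ (Ix (I := I) S →₀ SA D I) :=
  (tau0 i).comp bs.repr.toAddMonoidHom

theorem tau_bs (i : I) (s : S) : tau bs i (bs s) = Finsupp.single (Sum.inl (s, i)) 1 := by
  unfold tau
  rw [AddMonoidHom.comp_apply]
  change tau0 i (bs.repr (bs s)) = _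
  rw [bs.repr_self, tau0_single, smul_one, map_one]

theorem tau_dd (i : I) (d : D) (m : (κ → SA D I) ⧸ Z) :
    tau bs i ((dd d : SA D I) • m) = (dd (FreeGroup.of i • d) : SA D I) • tau bs i m := by
  unfold tau
  rw [dd_smul]
  change tau0 i (bs.repr (d • m)) = (dd (FreeGroup.of i • d) : SA D I) • tau0 i (bs.repr m)
  rw [map_smul]
  generalize bs.repr m = g
  induction g using Finsupp.induction_linear with
  | zero => rw [smul_zero, map_zero, smul_zero]
  | add f g hf hg => rw [smul_add, map_add, map_add, smul_add, hf, hg]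
  | single s e =>
    rw [Finsupp.smul_single, tau0_single, tau0_single, Finsupp.smul_single, smul_eq_mul,
      smul_mul', map_mul, smul_eq_mul]

/-- `ρ : M → V` -/
def rho : ((κ → SA D I) ⧸ Z) →ₗ[D] (κ → SA D I) :=
  (Finsupp.linearCombination D fun s : S => (mono s.1 : κ → SA D I)).comp bs.repr.toLinearMap

theorem rho_bs (s : S) : rho bs (bs s) = mono s.1 := by
  unfold rho
  rw [LinearMap.comp_apply, LinearEquiv.coe_coe, bs.repr_self, Finsupp.linearCombination_single,
    one_smul]

theorem rho_induction {p : (κ → SA D I) → Prop} (m : (κ → SA D I) ⧸ Z) (h0 : p 0)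
    (ha : ∀ y y', p y → p y' → p (y + y')) (hs : ∀ (d : D) (s : S), p (d • mono s.1)) :
    p (rho bs m) := by
  unfold rho
  rw [LinearMap.comp_apply]
  generalize (bs.repr.toLinearMap m) = g
  induction g using Finsupp.induction_linear with
  | zero => rw [map_zero]; exact h0
  | add f g hf hg => rw [map_add]; exact ha _ _ hf hg
  | single s e => rw [Finsupp.linearCombination_single]; exact hs e s

variable (hb : ∀ s : S, bs s = Z.mkQ (mono s.1))

include hb in
theorem mkQ_rho (m : (κ → SA D I) ⧸ Z) : Z.mkQ (rho bs m) = m := by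
  have h : ∀ m, (Z.mkQ.restrictScalars D).comp (rho bs) m = m := by
    intro m
    have h2 : (Z.mkQ.restrictScalars D).comp (rho bs) = LinearMap.id := by
      refine bs.ext fun s => ?_
      rw [LinearMap.comp_apply, rho_bs]
      exact (hb s).symm
    rw [h2]
    rfl
  exact h m

include hb in
theorem rho_mono {v : FreeGroup I × κ} (hv : v ∈ S) : rho bs (Z.mkQ (mono v)) = mono v := by
  rw [← hb ⟨v, hv⟩, rho_bs]

/-- the map `V → C × M` -/
def cc (y : κ → SA D I) : (Ix (I := I) S →₀ SA D I) × ((κ → SA D I) ⧸ Z) :=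
  ∑ k, ext (tau bs) (tau_dd bs) (y k) (Finsupp.single (Sum.inr k) 1, Z.mkQ (mono (1, k)))

theorem cc_add (y y' : κ → SA D I) : cc bs (y + y') = cc bs y + cc bs y' := by
  unfold cc
  rw [← Finset.sum_add_distrib]
  exact Finset.sum_congr rfl fun k _ => by rw [Pi.add_apply, ext_add_apply]

theorem cc_smul (a : SA D I) (y : κ → SA D I) :
    cc bs (a • y) = ext (tau bs) (tau_dd bs) a (cc bs y) := by
  unfold cc
  rw [_root_.map_sum]
  exact Finset.sum_congr rfl fun k _ => by rw [Pi.smul_apply, smul_eq_mul, ext_mul_apply]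

theorem cc_root (k : κ) :
    cc bs (mono (1, k)) = (Finsupp.single (Sum.inr k) 1, Z.mkQ (mono (1, k))) := by
  unfold cc
  rw [Finset.sum_eq_single k]
  · unfold mono
    rw [Pi.single_eq_same, map_one, map_one]
    rfl
  · intro k' _ hk
    unfold mono
    rw [Pi.single_eq_of_ne hk, map_zero]
    rfl
  · intro h
    exact absurd (Finset.mem_univ k) h

theorem sum_mono (y : κ → SA D I) : ∑ k, y k • (mono (1, k) : κ → SA D I) = y := by
  conv_rhs => rw [← Finset.univ_sum_single y]
  refine Finset.sum_congr rfl fun k _ => ?_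
  unfold mono
  rw [← Pi.single_smul, map_one, smul_eq_mul, mul_one]

theorem cc_snd (y : κ → SA D I) : (cc bs y).2 = Z.mkQ y := by
  conv_rhs => rw [← sum_mono y]
  unfold cc
  rw [Prod.snd_sum, _root_.map_sum]
  exact Finset.sum_congr rfl fun k _ => by rw [ext_snd, map_smul]

/-- the map `Z → C` -/
def cZ : Z →ₗ[SA D I] (Ix (I := I) S →₀ SA D I) where
  toFun z := (cc bs z.1).1
  map_add' z z' := by
    change (cc bs (z.1 + z'.1)).1 = _
    rw [cc_add]
    rfl
  map_smul' a z := by
    change (cc bs (a • z.1)).1 = a • (cc bs z.1).1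
    have h : cc bs z.1 = ((cc bs z.1).1, 0) := by
      refine Prod.ext rfl ?_
      rw [cc_snd]
      exact (Submodule.Quotient.mk_eq_zero Z).2 z.2
    rw [cc_smul, h, ext_fst]

theorem cZ_apply (z : Z) : cZ bs z = (cc bs z.1).1 := rfl

include hb in
theorem cc_mono_mem (hS : Closed κ S) (w : FreeGroup I) (k : κ) (h : (w, k) ∈ S) :
    (cc bs (mono (w, k))).1 ∈ Fo (D := D) S := by
  induction hn : w.norm generalizing w with
  | zero =>
    obtain rfl := FreeGroup.norm_eq_zero.1 hn
    rw [cc_root]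
    exact single_mem_Fo (I := I) S (ω := Sum.inr k) h 1
  | succ n ih =>
    have hw : w ≠ 1 := by
      rintro rfl
      rw [FreeGroup.norm_one] at hn
      omega
    obtain ⟨x, w', hp, rfl⟩ := exists_par hw
    have hw' : (w', k) ∈ S := hS x w' k hp h
    have ih' := ih w' hw' (by have := par_norm hp; omega)
    obtain ⟨i, b⟩ := x
    cases b with
    | true =>
      rw [lt_true] at h ⊢
      rw [← uu_smul_mono, cc_smul, ext_of, cc_snd, ← hb ⟨(w', k), hw'⟩, tau_bs]
      refine Submodule.add_mem _ (Submodule.smul_mem _ _ ih') ?_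
      exact single_mem_Fo (I := I) S (ω := Sum.inl (⟨(w', k), hw'⟩, i)) h 1
    | false =>
      rw [lt_false] at h ⊢
      rw [← uu_smul_mono, cc_smul, ext_of_inv, cc_snd, ← map_smul, uu_smul_mono, ← hb ⟨_, h⟩,
        tau_bs]
      refine Submodule.smul_mem _ _ (Submodule.sub_mem _ ih' ?_)
      refine single_mem_Fo (I := I) S (ω := Sum.inl (⟨_, h⟩, i)) ?_ 1
      change (FreeGroup.of i * ((FreeGroup.of i)⁻¹ * w'), k) ∈ S
      rw [mul_inv_cancel_left]
      exact hw'

include hb in
theorem cc_rho_mem (hS : Closed κ S) (m : (κ → SA D I) ⧸ Z) :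
    (cc bs (rho bs m)).1 ∈ Fo (D := D) S := by
  refine rho_induction (p := fun y => (cc bs y).1 ∈ Fo (D := D) S) bs m ?_ ?_ ?_
  · have h : cc bs (0 : κ → SA D I) = 0 := by
      have := cc_smul bs 0 (0 : κ → SA D I)
      rw [zero_smul, map_zero] at this
      exact this
    rw [h]
    exact Submodule.zero_mem _
  · intro y y' h h'
    rw [cc_add]
    exact Submodule.add_mem _ h h'
  · intro d s
    rw [← dd_smul (I := I), cc_smul, ext_dd]
    exact Submodule.smul_mem _ _ (cc_mono_mem bs hb hS s.1.1 s.1.2 s.2)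

include hb in
theorem cc_tg (hS : Closed κ S) (ω : Ix (I := I) S) :
    (cc bs (mono (tg S ω))).1 - Finsupp.single ω 1 ∈ Fo (D := D) S := by
  rcases ω with ⟨⟨⟨w, k⟩, hs⟩, i⟩ | k
  · change (cc bs (mono (FreeGroup.of i * w, k))).1 - _ ∈ _
    rw [← uu_smul_mono, cc_smul, ext_of, cc_snd, ← hb ⟨(w, k), hs⟩, tau_bs, add_sub_cancel_right]
    exact Submodule.smul_mem _ _ (cc_mono_mem bs hb hS w k hs)
  · change (cc bs (mono (1, k))).1 - _ ∈ _
    rw [cc_root, sub_self]
    exact Submodule.zero_mem _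

/-- the index set of the basis -/
abbrev Om (S : Set (FreeGroup I × κ)) : Type := {ω : Ix (I := I) S // tg S ω ∉ S}

/-- the basis elements -/
def bb (hb : ∀ s : S, bs s = Z.mkQ (mono s.1)) (ω : Om S) : Z :=
  ⟨mono (tg S ω.1) - rho bs (Z.mkQ (mono (tg S ω.1))), by
    rw [← Submodule.Quotient.mk_eq_zero Z, Submodule.Quotient.mk_sub, sub_eq_zero]
    exact (mkQ_rho bs hb _).symm⟩

theorem bb_indep (hS : Closed κ S) : LinearIndependent (SA D I) (bb bs hb) := by
  classical
  let L : Z →ₗ[SA D I] (Om S →₀ SA D I) :=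
    (Finsupp.lsubtypeDomain {ω : Ix (I := I) S | tg S ω ∉ S}).comp (cZ bs)
  refine LinearIndependent.of_comp L ?_
  have h : ∀ ω, L (bb bs hb ω) = Finsupp.single ω 1 := by
    intro ω
    have h1 : (cc bs (bb bs hb ω).1).1 - Finsupp.single ω.1 1 ∈ Fo (D := D) S := by
      have e : (cc bs (bb bs hb ω).1) + cc bs (rho bs (Z.mkQ (mono (tg S ω.1)))) =
          cc bs (mono (tg S ω.1)) := by
        rw [← cc_add]
        congr 1
        exact sub_add_cancel _ _
      have e2 : (cc bs (bb bs hb ω).1).1 = (cc bs (mono (tg S ω.1))).1 -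
          (cc bs (rho bs (Z.mkQ (mono (tg S ω.1))))).1 := by
        rw [← e]
        exact (add_sub_cancel_right _ _).symm
      rw [e2, sub_right_comm]
      exact Submodule.sub_mem _ (cc_tg bs hb hS ω.1) (cc_rho_mem bs hb hS _)
    ext1 ω'
    have h2 := h1 ω'.1 ω'.2
    rw [Finsupp.sub_apply, sub_eq_zero] at h2
    change (cc bs (bb bs hb ω).1).1 ω'.1 = _
    rw [h2, Finsupp.single_apply, Finsupp.single_apply]
    simp only [Subtype.ext_iff]
  have h2 : (L ∘ bb bs hb) = fun ω => Finsupp.single ω (1 : SA D I) := funext h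
  rw [h2]
  exact (Finsupp.basisSingleOne (R := SA D I) (ι := Om S)).linearIndependent

/-- the span of the basis elements -/
def Zs (hb : ∀ s : S, bs s = Z.mkQ (mono s.1)) : Submodule (SA D I) (κ → SA D I) :=
  Submodule.span (SA D I) (Set.range fun ω => (bb bs hb ω : κ → SA D I))

theorem Zs_le : Zs bs hb ≤ Z := by
  refine Submodule.span_le.2 ?_
  rintro _ ⟨ω, rfl⟩
  exact (bb bs hb ω).2

/-- good elements -/
def GG (y : κ → SA D I) : Prop := y - rho bs (Z.mkQ y) ∈ Zs bs hb

theorem GG_add {y y' : κ → SA D I} (h : GG bs hb y) (h' : GG bs hb y') : GG bs hb (y + y') := by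
  unfold GG at *
  rw [map_add, map_add]
  have : y + y' - (rho bs (Z.mkQ y) + rho bs (Z.mkQ y')) =
    (y - rho bs (Z.mkQ y)) + (y' - rho bs (Z.mkQ y')) := by abel
  rw [this]
  exact Submodule.add_mem _ h h'

theorem GG_zero : GG bs hb 0 := by
  unfold GG
  rw [map_zero, map_zero, sub_zero]
  exact Submodule.zero_mem _

theorem GG_smul {y : κ → SA D I} (d : D) (h : GG bs hb y) : GG bs hb (d • y) := by
  unfold GG at *
  have h2 : Z.mkQ (d • y) = d • Z.mkQ y := rfl
  rw [h2, map_smul, ← smul_sub, ← dd_smul (I := I)]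
  exact Submodule.smul_mem _ _ h

theorem GG_of_mem {y : κ → SA D I} (h : y ∈ Zs bs hb) : GG bs hb y := by
  unfold GG
  have h2 : Z.mkQ y = 0 := (Submodule.Quotient.mk_eq_zero Z).2 (Zs_le bs hb h)
  rw [h2, map_zero, sub_zero]
  exact h

theorem GG_tg (ω : Ix (I := I) S) : GG bs hb (mono (tg S ω)) := by
  unfold GG
  by_cases h : tg S ω ∈ S
  · rw [rho_mono bs hb h, sub_self]
    exact Submodule.zero_mem _
  · exact Submodule.subset_span ⟨⟨ω, h⟩, rfl⟩

theorem GG_rho_pos (i : I) (m : (κ → SA D I) ⧸ Z) :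
    GG bs hb ((uu (FreeGroup.of i) : SA D I) • rho bs m) := by
  refine rho_induction (p := fun y => GG bs hb ((uu (FreeGroup.of i) : SA D I) • y)) bs m ?_ ?_ ?_
  · rw [smul_zero]; exact GG_zero bs hb
  · intro y y' h h'
    rw [smul_add]
    exact GG_add bs hb h h'
  · intro d s
    rw [uu_smul_d, uu_smul_mono]
    exact GG_smul bs hb _ (GG_tg bs hb (Sum.inl (s, i)))

theorem GG_neg_mono (i : I) (s : S) :
    GG bs hb (mono ((FreeGroup.of i)⁻¹ * s.1.1, s.1.2)) := by
  have h1 := GG_rho_pos bs hb i (Z.mkQ (mono ((FreeGroup.of i)⁻¹ * s.1.1, s.1.2)))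
  unfold GG at h1 ⊢
  rw [map_smul, mkQ_rho bs hb, ← map_smul Z.mkQ, uu_smul_mono, mul_inv_cancel_left,
    rho_mono bs hb s.2] at h1
  have h2 := Submodule.smul_mem _ (uu (FreeGroup.of i)⁻¹ : SA D I) (Submodule.neg_mem _ h1)
  rw [neg_sub, smul_sub, uu_inv_smul, uu_smul_mono] at h2
  exact h2

theorem GG_uu (w : FreeGroup I) (y : κ → SA D I) (hy : GG bs hb y) :
    GG bs hb ((uu w : SA D I) • y) := by
  have dec : ∀ y : κ → SA D I, GG bs hb y → ∀ a : SA D I,
      GG bs hb (a • rho bs (Z.mkQ y)) → GG bs hb (a • y) := by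
    intro y hy a h
    have e : a • y = a • (y - rho bs (Z.mkQ y)) + a • rho bs (Z.mkQ y) := by
      rw [← smul_add, sub_add_cancel]
    rw [e]
    exact GG_add bs hb (GG_of_mem bs hb (Submodule.smul_mem _ _ hy)) h
  have key : (∀ y : κ → SA D I, GG bs hb y → GG bs hb ((uu w : SA D I) • y)) ∧
      (∀ y : κ → SA D I, GG bs hb y → GG bs hb ((uu w⁻¹ : SA D I) • y)) := by
    induction w using FG_induction with
    | h1 =>
      refine ⟨fun m hm => ?_, fun m hm => ?_⟩
      · rw [map_one, one_smul]; exact hm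
      · rw [inv_one, map_one, one_smul]; exact hm
    | hg i =>
      refine ⟨fun m hm => dec m hm _ (GG_rho_pos bs hb i _), fun m hm => dec m hm _ ?_⟩
      refine rho_induction (p := fun y => GG bs hb ((uu (FreeGroup.of i)⁻¹ : SA D I) • y)) bs _
        ?_ ?_ ?_
      · rw [smul_zero]; exact GG_zero bs hb
      · intro y y' h h'
        rw [smul_add]
        exact GG_add bs hb h h'
      · intro d s
        rw [uu_smul_d, uu_smul_mono]
        exact GG_smul bs hb _ (GG_neg_mono bs hb i s)
    | hm w w' h h' =>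
      refine ⟨fun m hm => ?_, fun m hm => ?_⟩
      · rw [map_mul, mul_smul]; exact h.1 _ (h'.1 _ hm)
      · rw [mul_inv_rev, map_mul, mul_smul]; exact h'.2 _ (h.2 _ hm)
    | hi w h => exact ⟨h.2, by rw [inv_inv]; exact h.1⟩
  exact key.1 y hy

theorem GG_all (y : κ → SA D I) : GG bs hb y := by
  have hy : y ∈ Submodule.span D (Set.range (mono : FreeGroup I × κ → κ → SA D I)) := by
    rw [span_mono]; trivial
  induction hy using Submodule.span_induction with
  | mem y h =>
    obtain ⟨⟨w, k⟩, rfl⟩ := h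
    have h2 := GG_uu bs hb w _ (GG_tg bs hb (Sum.inr k))
    unfold tg at h2
    rw [uu_smul_mono, mul_one] at h2
    exact h2
  | zero => exact GG_zero bs hb
  | add y y' _ _ h h' => exact GG_add bs hb h h'
  | smul d y _ h => exact GG_smul bs hb d h

theorem le_Zs : Z ≤ Zs bs hb := by
  intro z hz
  have h := GG_all bs hb z
  unfold GG at h
  rwa [show Z.mkQ z = 0 from (Submodule.Quotient.mk_eq_zero Z).2 hz, map_zero, sub_zero] at h

theorem bb_span : ⊤ ≤ Submodule.span (SA D I) (Set.range (bb bs hb)) := by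
  rintro ⟨z, hz⟩ -
  have h := le_Zs bs hb hz
  unfold Zs at h
  have h2 : (Set.range fun ω => (bb bs hb ω : κ → SA D I)) =
      Z.subtype '' Set.range (bb bs hb) := by
    rw [← Set.range_comp]
    rfl
  rw [h2, Submodule.span_image] at h
  obtain ⟨z', hz', e⟩ := h
  have : z' = ⟨z, hz⟩ := Subtype.ext e
  rw [← this]
  exact hz'

end proof

/-- **submodules of free modules of finite rank are free** -/
theorem free_submodule (Z : Submodule (SA D I) (κ → SA D I)) : Module.Free (SA D I) Z := by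
  obtain ⟨S, hS, bs, hb⟩ := exists_S Z
  exact Module.Free.of_basis (Module.Basis.mk (bb_indep bs hb hS) (bb_span bs hb))

omit [DecidableEq I] [DecidableEq κ] in
/-- a finitely generated submodule has a finite basis -/
theorem exists_fin_basis (Z : Submodule (SA D I) (κ → SA D I)) (hZ : Z.FG) :
    ∃ m : ℕ, Nonempty (Module.Basis (Fin m) (SA D I) Z) := by
  classical
  have h1 : Module.Free (SA D I) Z := free_submodule Z
  have h2 : Module.Finite (SA D I) Z := Module.Finite.iff_fg.2 hZ
  have b := Module.Free.chooseBasis (SA D I) Z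
  have h3 : Finite (Module.Free.ChooseBasisIndex (SA D I) Z) := Module.Finite.finite_basis b
  obtain ⟨m, ⟨e⟩⟩ := Finite.exists_equiv_fin (Module.Free.ChooseBasisIndex (SA D I) Z)
  exact ⟨m, ⟨b.reindex e⟩⟩

end

end Pool.Agent.Lib.EDG
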