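import Pool.Agent.Lib.EDG.Tree

/-!
# EDG: a closed set of monomials which is a basis modulo a submodule
-/

set_option autoImplicit false
set_option linter.unusedSectionVars false

open SkewMonoidAlgebra

namespace Pool.Agent.Lib.EDG

noncomputable section

section tower

variable {D I : Type} [Ring D] [MulSemiringAction (FreeGroup I) D]

theorem d_smul_eq (d : D) (a : SA D I) : d • a = dd d * a := by
  induction a using SA_induction with
  | h0 => rw [smul_zero, mul_zero]
  | ha a b h h' => rw [smul_add, mul_add, h, h']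
  | hm e w => rw [dd_mul_uu, smul_single, dd_apply, single_mul_single, one_mul, one_smul, smul_eq_mul]

instance instTower : IsScalarTower D (SA D I) (SA D I) :=
  ⟨fun d a b => by rw [smul_eq_mul, smul_eq_mul, d_smul_eq, d_smul_eq, mul_assoc]⟩

theorem dd_smul {M : Type} [AddCommGroup M] [Module (SA D I) M] [Module D M]
    [IsScalarTower D (SA D I) M] (d : D) (m : M) : (dd d : SA D I) • m = d • m := by
  have h : (dd d : SA D I) = d • (1 : SA D I) := by rw [d_smul_eq, mul_one]
  rw [h, smul_assoc, one_smul]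

theorem uu_smul_d {M : Type} [AddCommGroup M] [Module (SA D I) M] [Module D M]
    [IsScalarTower D (SA D I) M] (w : FreeGroup I) (d : D) (m : M) :
    (uu w : SA D I) • d • m = (w • d) • (uu w : SA D I) • m := by
  rw [← dd_smul (I := I) d m, smul_smul, uu_mul_dd, mul_smul, dd_smul]

theorem uu_inv_smul {M : Type} [AddCommGroup M] [Module (SA D I) M] (w : FreeGroup I) (m : M) :
    (uu w⁻¹ : SA D I) • (uu w : SA D I) • m = m := by
  rw [smul_smul, uu_inv_mul, one_smul]

theorem uu_smul_inv {M : Type} [AddCommGroup M] [Module (SA D I) M] (w : FreeGroup I) (m : M) :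
    (uu w : SA D I) • (uu w⁻¹ : SA D I) • m = m := by
  rw [smul_smul, uu_mul_inv, one_smul]

variable {κ : Type} [DecidableEq κ]

/-- monomials -/
def mono (v : FreeGroup I × κ) : κ → SA D I := Pi.single v.2 (uu v.1)

theorem uu_smul_mono (w w' : FreeGroup I) (k : κ) :
    (uu w : SA D I) • (mono (w', k) : κ → SA D I) = mono (w * w', k) := by
  unfold mono
  rw [← Pi.single_smul, smul_eq_mul, map_mul]

theorem span_mono [Finite κ] :
    Submodule.span D (Set.range (mono : FreeGroup I × κ → κ → SA D I)) = ⊤ := by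
  have := Fintype.ofFinite κ
  rw [eq_top_iff]
  intro y _
  rw [← Finset.univ_sum_single y]
  refine Submodule.sum_mem _ fun k _ => ?_
  generalize y k = a
  induction a using SA_induction with
  | h0 => rw [Pi.single_zero]; exact Submodule.zero_mem _
  | ha a b h h' => rw [Pi.single_add]; exact Submodule.add_mem _ h h'
  | hm d w =>
    rw [← d_smul_eq, Pi.single_smul]
    exact Submodule.smul_mem _ _ (Submodule.subset_span ⟨(w, k), rfl⟩)

end tower

variable {D I κ : Type} [DivisionRing D] [MulSemiringAction (FreeGroup I) D] [DecidableEq I]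
  [Finite κ] [DecidableEq κ]

/-- closed sets of monomials, independent modulo `Z` -/
def GoodS (Z : Submodule (SA D I) (κ → SA D I)) (S : Set (FreeGroup I × κ)) : Prop :=
  Closed κ S ∧ LinearIndepOn D (fun v => Z.mkQ (mono v)) S

theorem exists_maxS (Z : Submodule (SA D I) (κ → SA D I)) :
    ∃ S, Maximal (· ∈ {S | GoodS Z S}) S := by
  refine zorn_subset _ fun c hc hch => ?_
  refine ⟨⋃₀ c, ⟨?_, ?_⟩, fun s hs => Set.subset_sUnion_of_mem hs⟩
  · rintro x w k hp ⟨s, hs, hm⟩
    exact ⟨s, hs, (hc hs).1 x w k hp hm⟩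
  · exact linearIndepOn_sUnion_of_directed hch.directedOn fun s hs => (hc hs).2

theorem maxS_step {Z : Submodule (SA D I) (κ → SA D I)} {S : Set (FreeGroup I × κ)}
    (hS : Maximal (· ∈ {S | GoodS Z S}) S) {v : FreeGroup I × κ} (hc : Closed κ (insert v S)) :
    Z.mkQ (mono v) ∈ Submodule.span D ((fun v => Z.mkQ (mono v)) '' S) := by
  by_contra h
  have h2 : GoodS Z (insert v S) := ⟨hc, hS.prop.2.insert h⟩
  have h3 : insert v S ⊆ S := hS.le_of_ge h2 (Set.subset_insert _ _)
  exact h (Submodule.subset_span ⟨v, h3 (Set.mem_insert _ _), rfl⟩)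

theorem maxS_letter {Z : Submodule (SA D I) (κ → SA D I)} {S : Set (FreeGroup I × κ)}
    (hS : Maximal (· ∈ {S | GoodS Z S}) S) (x : I × Bool) {m : (κ → SA D I) ⧸ Z}
    (hm : m ∈ Submodule.span D ((fun v => Z.mkQ (mono v)) '' S)) :
    (uu (lt x) : SA D I) • m ∈ Submodule.span D ((fun v => Z.mkQ (mono v)) '' S) := by
  induction hm using Submodule.span_induction with
  | mem m h =>
    obtain ⟨⟨w, k⟩, hw, rfl⟩ := h
    have h2 : (uu (lt x) : SA D I) • Z.mkQ (mono (w, k)) = Z.mkQ (mono (lt x * w, k)) := by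
      rw [← map_smul, uu_smul_mono]
    rw [h2]
    rcases par_or x w with hp | hp
    · exact maxS_step hS (hS.prop.1.ins hp hw)
    · refine Submodule.subset_span ⟨_, hS.prop.1 _ _ _ hp ?_, rfl⟩
      rw [← lt_inv, inv_mul_cancel_left]
      exact hw
  | zero => rw [smul_zero]; exact Submodule.zero_mem _
  | add m m' _ _ h h' => rw [smul_add]; exact Submodule.add_mem _ h h'
  | smul d m _ h => rw [uu_smul_d]; exact Submodule.smul_mem _ _ h

theorem maxS_uu {Z : Submodule (SA D I) (κ → SA D I)} {S : Set (FreeGroup I × κ)}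
    (hS : Maximal (· ∈ {S | GoodS Z S}) S) (w : FreeGroup I) : ∀ m : (κ → SA D I) ⧸ Z,
    m ∈ Submodule.span D ((fun v => Z.mkQ (mono v)) '' S) →
    (uu w : SA D I) • m ∈ Submodule.span D ((fun v => Z.mkQ (mono v)) '' S) := by
  have key : (∀ m : (κ → SA D I) ⧸ Z, m ∈ Submodule.span D ((fun v => Z.mkQ (mono v)) '' S) →
      (uu w : SA D I) • m ∈ Submodule.span D ((fun v => Z.mkQ (mono v)) '' S)) ∧
      (∀ m : (κ → SA D I) ⧸ Z, m ∈ Submodule.span D ((fun v => Z.mkQ (mono v)) '' S) →
      (uu w⁻¹ : SA D I) • m ∈ Submodule.span D ((fun v => Z.mkQ (mono v)) '' S)) := by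
    induction w using FG_induction with
    | h1 =>
      refine ⟨fun m hm => ?_, fun m hm => ?_⟩
      · rw [map_one, one_smul]; exact hm
      · rw [inv_one, map_one, one_smul]; exact hm
    | hg i =>
      refine ⟨fun m hm => ?_, fun m hm => ?_⟩
      · rw [← lt_true]; exact maxS_letter hS _ hm
      · rw [← lt_false]; exact maxS_letter hS _ hm
    | hm w w' h h' =>
      refine ⟨fun m hm => ?_, fun m hm => ?_⟩
      · rw [map_mul, mul_smul]; exact h.1 _ (h'.1 _ hm)
      · rw [mul_inv_rev, map_mul, mul_smul]; exact h'.2 _ (h.2 _ hm)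
    | hi w h => exact ⟨h.2, by rw [inv_inv]; exact h.1⟩
  exact key.1

/-- a closed set of monomials which is a basis modulo `Z` -/
theorem exists_S (Z : Submodule (SA D I) (κ → SA D I)) : ∃ S : Set (FreeGroup I × κ), Closed κ S ∧
    ∃ bs : Module.Basis S D ((κ → SA D I) ⧸ Z), ∀ s : S, bs s = Z.mkQ (mono s.1) := by
  obtain ⟨S, hS⟩ := exists_maxS Z
  refine ⟨S, hS.prop.1, ?_⟩
  have hroot : ∀ k : κ, Z.mkQ (mono (1, k)) ∈
      Submodule.span D ((fun v => Z.mkQ (mono v)) '' S) := fun k =>
    maxS_step hS (hS.prop.1.ins_root k)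
  have hall : ∀ v : FreeGroup I × κ, Z.mkQ (mono v) ∈
      Submodule.span D ((fun v => Z.mkQ (mono v)) '' S) := by
    rintro ⟨w, k⟩
    have h := maxS_uu hS w _ (hroot k)
    rw [← map_smul, uu_smul_mono, mul_one] at h
    exact h
  have htop : ⊤ ≤ Submodule.span D (Set.range fun s : S => Z.mkQ (mono s.1)) := by
    intro m _
    obtain ⟨y, rfl⟩ := Z.mkQ_surjective m
    have hy : y ∈ Submodule.span D (Set.range (mono : FreeGroup I × κ → κ → SA D I)) := by
      rw [span_mono]; trivial
    have hr : (Set.range fun s : S => Z.mkQ (mono s.1)) = (fun v => Z.mkQ (mono v)) '' S := by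
      ext m
      constructor
      · rintro ⟨s, rfl⟩; exact ⟨s.1, s.2, rfl⟩
      · rintro ⟨v, hv, rfl⟩; exact ⟨⟨v, hv⟩, rfl⟩
    rw [hr]
    induction hy using Submodule.span_induction with
    | mem y h =>
      obtain ⟨v, rfl⟩ := h
      exact hall v
    | zero => rw [map_zero]; exact Submodule.zero_mem _
    | add y y' _ _ h h' => rw [map_add]; exact Submodule.add_mem _ (h trivial) (h' trivial)
    | smul d y _ h => exact Submodule.smul_mem _ d (h trivial)
  exact ⟨Module.Basis.mk hS.prop.2 htop, fun s => Module.Basis.mk_apply _ _ s⟩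

end

end Pool.Agent.Lib.EDG
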