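import Pool.Agent.Lib.EDG.Fir

/-!
# EDG: the submodules `I K`, the data, Lemma C and stages (statements)
-/

set_option autoImplicit false
set_option linter.unusedSectionVars false

namespace Pool.Agent.Lib.EDG

noncomputable section

section IM

variable {A B V : Type} [Ring A] [Ring B] [AddCommGroup V] [Module A V] (φ : A →+* B)

/-- `I K`, where `I = ker φ` -/
def IM (K : Submodule A V) : Submodule A V :=
  Submodule.span A {x | ∃ a, φ a = 0 ∧ ∃ z ∈ K, x = a • z}

theorem smul_mem_IM {K : Submodule A V} {a : A} (ha : φ a = 0) {z : V} (hz : z ∈ K) :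
    a • z ∈ IM φ K := Submodule.subset_span ⟨a, ha, z, hz, rfl⟩

theorem IM_mono {K K' : Submodule A V} (h : K ≤ K') : IM φ K ≤ IM φ K' := by
  refine Submodule.span_mono ?_
  rintro x ⟨a, ha, z, hz, rfl⟩
  exact ⟨a, ha, z, h hz, rfl⟩

theorem IM_le (K : Submodule A V) : IM φ K ≤ K := by
  refine Submodule.span_le.2 ?_
  rintro x ⟨a, ha, z, hz, rfl⟩
  exact K.smul_mem a hz

theorem IM_sup (K K' : Submodule A V) : IM φ (K ⊔ K') ≤ IM φ K ⊔ IM φ K' := by
  refine Submodule.span_le.2 ?_
  rintro x ⟨a, ha, z, hz, rfl⟩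
  obtain ⟨z1, h1, z2, h2, rfl⟩ := Submodule.mem_sup.1 hz
  rw [smul_add]
  exact Submodule.add_mem_sup (smul_mem_IM φ ha h1) (smul_mem_IM φ ha h2)

/-- elements of `I K` for `K` generated by a finite family -/
theorem mem_IM_span {ι : Type} [Fintype ι] (k : ι → V) (x : V) :
    x ∈ IM φ (Submodule.span A (Set.range k)) ↔
      ∃ a : ι → A, (∀ l, φ (a l) = 0) ∧ x = ∑ l, a l • k l := by
  constructor
  · intro h
    induction h using Submodule.span_induction with
    | mem x hx =>
      obtain ⟨a, ha, z, hz, rfl⟩ := hx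
      obtain ⟨c, rfl⟩ := (Submodule.mem_span_range_iff_exists_fun A).1 hz
      refine ⟨fun l => a * c l, fun l => by rw [map_mul, ha, zero_mul], ?_⟩
      rw [Finset.smul_sum]
      exact Finset.sum_congr rfl fun l _ => by rw [mul_smul]
    | zero => exact ⟨0, fun l => map_zero φ, by simp⟩
    | add x y _ _ hx hy =>
      obtain ⟨a, ha, rfl⟩ := hx
      obtain ⟨b, hb, rfl⟩ := hy
      refine ⟨a + b, fun l => by rw [Pi.add_apply, map_add, ha, hb, add_zero], ?_⟩
      rw [← Finset.sum_add_distrib]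
      exact Finset.sum_congr rfl fun l _ => by rw [Pi.add_apply, add_smul]
    | smul c x _ hx =>
      obtain ⟨a, ha, rfl⟩ := hx
      refine ⟨fun l => c * a l, fun l => by rw [map_mul, ha, mul_zero], ?_⟩
      rw [Finset.smul_sum]
      exact Finset.sum_congr rfl fun l _ => by rw [mul_smul]
  · rintro ⟨a, ha, rfl⟩
    exact Submodule.sum_mem _ fun l _ => smul_mem_IM φ (ha l) (Submodule.subset_span ⟨l, rfl⟩)

theorem mem_IM_top {κ : Type} [Fintype κ] (z : κ → A) :
    z ∈ IM φ (⊤ : Submodule A (κ → A)) ↔ ∀ k, φ (z k) = 0 := by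
  classical
  constructor
  · intro h
    induction h using Submodule.span_induction with
    | mem x hx =>
      obtain ⟨a, ha, z, hz, rfl⟩ := hx
      intro k
      rw [Pi.smul_apply, smul_eq_mul, map_mul, ha, zero_mul]
    | zero => exact fun k => map_zero φ
    | add x y _ _ hx hy => exact fun k => by rw [Pi.add_apply, map_add, hx k, hy k, add_zero]
    | smul c x _ hx => exact fun k => by rw [Pi.smul_apply, smul_eq_mul, map_mul, hx k, mul_zero]
  · intro h
    have e : z = ∑ k, z k • (Pi.single k (1 : A) : κ → A) := by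
      conv_lhs => rw [← Finset.univ_sum_single z]
      refine Finset.sum_congr rfl fun k _ => ?_
      rw [← Pi.single_smul, smul_eq_mul, mul_one]
    rw [e]
    exact Submodule.sum_mem _ fun k _ => smul_mem_IM φ (h k) trivial

end IM

variable {D I B : Type} [DivisionRing D] [MulSemiringAction (FreeGroup I) D] [Ring B]

/-- the data: `φ : A = D * F → B = D * G`, the relators `r j` and lifts `w g` -/
structure XD (G J : Type) (φ : SA D I →+* B) where
  surj : Function.Surjective φ
  r : J → SA D I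
  φr : ∀ j, φ (r j) = 0
  rd : ∀ j d, r j * dd d = dd d * r j
  w : G → SA D I
  hex : ∀ a, ∃ d : G →₀ D, φ a = φ (d.sum fun g x => w g * dd x)

variable {G J : Type} {φ : SA D I →+* B}

/-- the statement of Lemma C -/
def LemC (X : XD G J φ) (κ : Type) : Prop :=
  ∀ K : Submodule (SA D I) (κ → SA D I), K.FG → ∀ y : G × J →₀ (κ → SA D I),
    (∀ gj, X.r gj.2 • y gj ∈ K) → (y.sum fun gj v => X.w gj.1 • X.r gj.2 • v) ∈ IM φ K →
    ∀ gj, y gj ∈ K ⊔ IM φ (K ⊔ Submodule.span (SA D I) (Set.range y))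

/-- a stage for the submodule `P` of `B^κ`, with loops `(j l, y l)`, `l : Λ` -/
structure Stg (X : XD G J φ) {κ Λ : Type} (P : Submodule B (κ → B)) (j : Λ → J)
    (y : Λ → κ → SA D I) (s : Finset Λ) where
  K : Submodule (SA D I) (κ → SA D I)
  fg : K.FG
  hK : ∀ l, X.r (j l) • y l ∈ K
  hP : ∀ z : κ → SA D I, z ∈ K ⊔ IM φ ⊤ ↔ (fun k => φ (z k)) ∈ P
  hH : K ⊓ IM φ ⊤ ≤ IM φ K ⊔ Submodule.span (SA D I) ((fun l => X.r (j l) • y l) '' s)

end

end Pool.Agent.Lib.EDG
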