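import Pool.Agent.Lib.EDG.Dat

/-!
# EDG: stages

`P ≤ Bⁿ`. A stage `(K, L)` for `P`: a finitely generated submodule `K` of `Aⁿ` with image `P` in `Bⁿ` and a
finite set `L` of pairs `l = (j, y)` with `r_j y ∈ K` such that the elements of `K` with image `0` lie in
`I K + ∑ A r_j y`. Existence for `P = Bᵐ b` with finitely generated kernel: lift everything to `A`.
-/

set_option autoImplicit false

open SkewMonoidAlgebra

namespace Pool.Agent.Lib.EDG

open Pool.Agent.Lib.GD2 (Tri)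

noncomputable section

namespace Dat

variable {D I G J B : Type} [DivisionRing D] [MulSemiringAction (FreeGroup I) D] [Group G]
    [Ring B] (X : Dat D I G J B)

/-- the image of a vector in `Bⁿ` -/
def im {n : ℕ} (z : Fin n → SA D I) : Fin n → B := fun k => X.φ (z k)

theorem im_add {n : ℕ} (z z' : Fin n → SA D I) : X.im (z + z') = X.im z + X.im z' :=
  funext fun _ => map_add X.φ _ _

theorem im_sub {n : ℕ} (z z' : Fin n → SA D I) : X.im (z - z') = X.im z - X.im z' :=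
  funext fun _ => map_sub X.φ _ _

theorem im_zero {n : ℕ} : X.im (0 : Fin n → SA D I) = 0 := funext fun _ => map_zero X.φ

theorem im_smul {n : ℕ} (a : SA D I) (z : Fin n → SA D I) : X.im (a • z) = X.φ a • X.im z :=
  funext fun _ => map_mul X.φ _ _

theorem im_surj {n : ℕ} (p : Fin n → B) : ∃ z, X.im z = p :=
  ⟨fun k => (X.surj (p k)).choose, funext fun k => (X.surj (p k)).choose_spec⟩

/-- the span of the loops -/
def lp {n : ℕ} (L : Finset (J × (Fin n → SA D I))) : Submodule (SA D I) (Fin n → SA D I) :=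
  Submodule.span (SA D I) {z | ∃ l ∈ L, z = X.r l.1 • l.2}

/-- a stage for `P` -/
structure Stg {n : ℕ} (P : Submodule B (Fin n → B)) (K : Submodule (SA D I) (Fin n → SA D I))
    (L : Finset (J × (Fin n → SA D I))) : Prop where
  fg : K.FG
  im_mem : ∀ z ∈ K, X.im z ∈ P
  im_sur : ∀ p ∈ P, ∃ z ∈ K, X.im z = p
  loop : ∀ l ∈ L, X.r l.1 • l.2 ∈ K
  h1 : ∀ z ∈ K, X.im z = 0 → z ∈ IK X.φ K ⊔ X.lp L

theorem im_ker {n : ℕ} (z : Fin n → SA D I) (hz : X.im z = 0) :
    z ∈ Submodule.span (SA D I) {z : Fin n → SA D I | ∃ j y, z = X.r j • y} := by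
  classical
  have h : z = ∑ k, z k • (Pi.single k (1 : SA D I) : Fin n → SA D I) := by
    funext i
    rw [Finset.sum_apply, Finset.sum_eq_single i]
    · rw [Pi.smul_apply, Pi.single_eq_same, smul_eq_mul, mul_one]
    · intro k _ hk
      rw [Pi.smul_apply, Pi.single_eq_of_ne (Ne.symm hk), smul_zero]
    · exact fun h => absurd (Finset.mem_univ i) h
  rw [h]
  refine Submodule.sum_mem _ fun k _ => ?_
  have h1 := X.ker (z k) (congrFun hz k)
  refine Submodule.span_induction (p := fun a _ => a • (Pi.single k (1 : SA D I) : Fin n → SA D I) ∈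
    Submodule.span (SA D I) {z : Fin n → SA D I | ∃ j y, z = X.r j • y}) ?_ ?_ ?_ ?_ h1
  · rintro _ ⟨j, y, rfl⟩
    rw [mul_smul]
    exact Submodule.subset_span ⟨j, _, rfl⟩
  · rw [zero_smul]
    exact Submodule.zero_mem _
  · intro x y _ _ hx hy
    rw [add_smul]
    exact Submodule.add_mem _ hx hy
  · intro c x _ hx
    rw [smul_eq_mul, mul_smul]
    exact Submodule.smul_mem _ _ hx

/-- finitely many loops suffice -/
theorem exists_lp {n q : ℕ} (z : Fin q → Fin n → SA D I) (hz : ∀ i, X.im (z i) = 0) :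
    ∃ L, ∀ i, z i ∈ X.lp L := by
  classical
  have h1 : ∀ i, ∃ L, z i ∈ X.lp L := by
    intro i
    refine Submodule.span_induction (p := fun a _ => ∃ L, a ∈ X.lp L) ?_ ?_ ?_ ?_
      (X.im_ker (z i) (hz i))
    · rintro _ ⟨j, y, rfl⟩
      exact ⟨{(j, y)}, Submodule.subset_span ⟨(j, y), Finset.mem_singleton_self _, rfl⟩⟩
    · exact ⟨∅, Submodule.zero_mem _⟩
    · rintro x y _ _ ⟨L, hL⟩ ⟨L', hL'⟩
      refine ⟨L ∪ L', Submodule.add_mem _ (Submodule.span_mono ?_ hL) (Submodule.span_mono ?_ hL')⟩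
      · rintro _ ⟨l, hl, rfl⟩
        exact ⟨l, Finset.mem_union_left _ hl, rfl⟩
      · rintro _ ⟨l, hl, rfl⟩
        exact ⟨l, Finset.mem_union_right _ hl, rfl⟩
    · rintro c x _ ⟨L, hL⟩
      exact ⟨L, Submodule.smul_mem _ _ hL⟩
  choose L hL using h1
  refine ⟨Finset.univ.biUnion L, fun i => Submodule.span_mono ?_ (hL i)⟩
  rintro _ ⟨l, hl, rfl⟩
  exact ⟨l, Finset.mem_biUnion.2 ⟨i, Finset.mem_univ i, hl⟩, rfl⟩

theorem lp_im {n : ℕ} (L : Finset (J × (Fin n → SA D I))) {z : Fin n → SA D I} (hz : z ∈ X.lp L) :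
    X.im z = 0 := by
  refine Submodule.span_induction (p := fun a _ => X.im a = 0) ?_ ?_ ?_ ?_ hz
  · rintro _ ⟨l, _, rfl⟩
    rw [im_smul, φ_r0, zero_smul]
  · exact X.im_zero
  · intro x y _ _ hx hy
    rw [im_add, hx, hy, add_zero]
  · intro c x _ hx
    rw [im_smul, hx, smul_zero]

theorem lp_fg {n : ℕ} (L : Finset (J × (Fin n → SA D I))) : (X.lp L).FG := by
  classical
  refine ⟨L.image fun l => X.r l.1 • l.2, ?_⟩
  unfold lp
  congr 1
  ext z
  rw [Finset.coe_image]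
  exact ⟨fun ⟨l, hl, h⟩ => ⟨l, hl, h.symm⟩, fun ⟨l, hl, h⟩ => ⟨l, hl, h.symm⟩⟩

/-- existence of stages -/
theorem exists_stg {m n q : ℕ} (b : Matrix (Fin m) (Fin n) B) (s : Matrix (Fin q) (Fin m) B)
    (hs : s * b = 0) (hk : ∀ v : Fin m → B, Matrix.vecMul v b = 0 → ∃ u, v = Matrix.vecMul u s) :
    ∃ K L, X.Stg (LinearMap.range (Matrix.vecMulLinear b)) K L := by
  classical
  choose b' hb' using fun i => X.im_surj (b i)
  choose s' hs' using fun i => X.im_surj (s i)
  -- `v ᵥ* b'` as a linear map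
  let f : (Fin m → SA D I) →ₗ[SA D I] (Fin n → SA D I) := Matrix.vecMulLinear (Matrix.of b')
  have hf : ∀ v, X.im (f v) = Matrix.vecMul (X.im v) b := by
    intro v
    funext k
    change X.φ (Matrix.vecMul v (Matrix.of b') k) = Matrix.vecMul (X.im v) b k
    rw [Matrix.vecMul_eq_sum, Matrix.vecMul_eq_sum, Finset.sum_apply, Finset.sum_apply,
      _root_.map_sum]
    refine Finset.sum_congr rfl fun i _ => ?_
    rw [Pi.smul_apply, Pi.smul_apply, smul_eq_mul, smul_eq_mul, map_mul]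
    congr 1
    exact congrFun (hb' i) k
  let g : (Fin q → SA D I) →ₗ[SA D I] (Fin m → SA D I) := Matrix.vecMulLinear (Matrix.of s')
  have hg : ∀ v, X.im (g v) = Matrix.vecMul (X.im v) s := by
    intro v
    funext k
    change X.φ (Matrix.vecMul v (Matrix.of s') k) = Matrix.vecMul (X.im v) s k
    rw [Matrix.vecMul_eq_sum, Matrix.vecMul_eq_sum, Finset.sum_apply, Finset.sum_apply,
      _root_.map_sum]
    refine Finset.sum_congr rfl fun i _ => ?_
    rw [Pi.smul_apply, Pi.smul_apply, smul_eq_mul, smul_eq_mul, map_mul]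
    congr 1
    exact congrFun (hs' i) k
  obtain ⟨L, hL⟩ := X.exists_lp (fun i => f (s' i)) (fun i => by
    rw [hf, hs']
    have h1 : (s * b) i = 0 := by rw [hs]; rfl
    rw [← Matrix.mul_apply_eq_vecMul, h1])
  have hgs : ∀ u, f (g u) ∈ X.lp L := by
    intro u
    have h1 : g u = ∑ i, u i • s' i := Matrix.vecMul_eq_sum u (Matrix.of s')
    rw [h1, _root_.map_sum]
    refine Submodule.sum_mem _ fun i _ => ?_
    rw [map_smul]
    exact Submodule.smul_mem _ _ (hL i)
  refine ⟨LinearMap.range f ⊔ X.lp L, L, ?_, ?_, ?_, ?_, ?_⟩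
  · exact Submodule.FG.sup (Module.Finite.iff_fg.1 inferInstance) (X.lp_fg L)
  · intro z hz
    obtain ⟨z₁, ⟨v, rfl⟩, z₂, hz₂, rfl⟩ := Submodule.mem_sup.1 hz
    rw [im_add, X.lp_im L hz₂, add_zero, hf]
    exact ⟨X.im v, rfl⟩
  · rintro _ ⟨v, rfl⟩
    obtain ⟨v', rfl⟩ := X.im_surj v
    exact ⟨f v', Submodule.mem_sup_left ⟨v', rfl⟩, hf v'⟩
  · intro l hl
    exact Submodule.mem_sup_right (Submodule.subset_span ⟨l, hl, rfl⟩)
  · intro z hz hz0
    obtain ⟨z₁, ⟨v, rfl⟩, z₂, hz₂, rfl⟩ := Submodule.mem_sup.1 hz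
    rw [im_add, X.lp_im L hz₂, add_zero, hf] at hz0
    obtain ⟨u, hu⟩ := hk _ hz0
    obtain ⟨u', rfl⟩ := X.im_surj u
    rw [← hg] at hu
    have h1 : v - g u' ∈ IK X.φ (⊤ : Submodule (SA D I) (Fin m → SA D I)) := by
      rw [mem_IK_top]
      intro k
      rw [Pi.sub_apply, map_sub, sub_eq_zero]
      exact congrFun hu k
    have h2 : f (v - g u') ∈ IK X.φ (LinearMap.range f ⊔ X.lp L) :=
      map_mem_IK X.φ f (K := ⊤) (L := LinearMap.range f ⊔ X.lp L)
        (fun x _ => Submodule.mem_sup_left (LinearMap.mem_range_self f x)) h1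
    have h3 : f v + z₂ = f (v - g u') + (f (g u') + z₂) := by
      rw [map_sub]
      abel
    rw [h3]
    exact Submodule.add_mem_sup h2 (Submodule.add_mem _ (hgs u') hz₂)

end Dat

end

end Pool.Agent.Lib.EDG
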