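import Pool.Agent.Lib.EDG.LemC
import Pool.Agent.Lib.EDG.Stg

/-!
# EDG: stages with independent loops

If the loops of a stage are dependent, Lemma C gives a larger `K'` with `K' = K + I K'`, for which one of the
loops can be omitted. By induction there is a stage with independent loops.
-/

set_option autoImplicit false

open SkewMonoidAlgebra

namespace Pool.Agent.Lib.EDG

open Pool.Agent.Lib.GD2 (Tri)

noncomputable section

namespace Dat

variable {D I G J B : Type} [DivisionRing D] [MulSemiringAction (FreeGroup I) D] [Group G]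
    [Ring B] (X : Dat D I G J B)

/-- `∑ w_g d_g` in `B` -/
def ev : (G →₀ D) →+ B := Finsupp.liftAddHom fun g =>
  X.φ.toAddMonoidHom.comp ((AddMonoidHom.mulLeft (uu (X.w g) : SA D I)).comp
    (dd : D →+* SA D I).toAddMonoidHom)

theorem ev_single (g : G) (d : D) : X.ev (Finsupp.single g d) = X.φ (uu (X.w g) * dd d) := by
  unfold ev
  rw [Finsupp.liftAddHom_apply_single]
  rfl

theorem ev_eq_sum (f : G →₀ D) (Γ : Finset G) (h : f.support ⊆ Γ) :
    X.ev f = ∑ g ∈ Γ, X.φ (uu (X.w g) * dd (f g)) := by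
  unfold ev
  rw [Finsupp.liftAddHom_apply, Finsupp.sum_of_support_subset f h]
  · rfl
  · intro g _
    exact map_zero _

/-- every element is `∑ w_g d_g` modulo the kernel -/
theorem exists_ev (a : SA D I) : ∃ f : G →₀ D, X.φ a = X.ev f := by
  induction a using SA_induction with
  | h0 => exact ⟨0, by rw [map_zero, map_zero]⟩
  | ha a b ha hb =>
    obtain ⟨f, hf⟩ := ha
    obtain ⟨f', hf'⟩ := hb
    exact ⟨f + f', by rw [map_add, map_add, hf, hf']⟩
  | hm d w =>
    obtain ⟨d', hd'⟩ := X.lift w (X.w (FreeGroup.lift X.T.x w)) (X.lift_w _).symm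
    refine ⟨Finsupp.single (FreeGroup.lift X.T.x w) (d' * (w⁻¹ • d)), ?_⟩
    have h1 : (dd d * uu w : SA D I) = uu w * dd (w⁻¹ • d) := by
      rw [uu_mul_dd, smul_inv_smul]
    rw [h1, map_mul, hd', ev_single, ← map_mul, map_mul dd, mul_assoc]

/-- `∑ a_l r_l y_l` -/
def lsum {n : ℕ} (L : Finset (J × (Fin n → SA D I))) (a : J × (Fin n → SA D I) → SA D I) :
    Fin n → SA D I := ∑ l ∈ L, a l • X.r l.1 • l.2

/-- replace the coefficients by sums of `w_g d` -/
theorem exists_rep {n : ℕ} {P : Submodule B (Fin n → B)} {K : Submodule (SA D I) (Fin n → SA D I)}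
    {L : Finset (J × (Fin n → SA D I))} (st : X.Stg P K L)
    (a : J × (Fin n → SA D I) → SA D I) (ha : X.lsum L a ∈ IK X.φ K) :
    ∃ (Γ : Finset G) (f : J × (Fin n → SA D I) → G → D),
      (∀ l ∈ L, X.φ (a l) = ∑ g ∈ Γ, X.φ (uu (X.w g) * dd (f l g))) ∧
      ∑ l ∈ L, ∑ g ∈ Γ, (uu (X.w g) : SA D I) • X.r l.1 • (dd (f l g) : SA D I) • l.2 ∈
        IK X.φ K := by
  classical
  choose f hf using fun l => X.exists_ev (a l)
  refine ⟨L.biUnion fun l => (f l).support, fun l g => f l g, fun l hl => ?_, ?_⟩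
  · rw [hf l]
    exact X.ev_eq_sum (f l) _ (Finset.subset_biUnion_of_mem (fun l => (f l).support) hl)
  · generalize hΓ : (L.biUnion fun l => (f l).support) = Γ
    have h1 : ∀ l ∈ L, X.φ (a l - ∑ g ∈ Γ, uu (X.w g) * dd (f l g)) = 0 := by
      intro l hl
      rw [map_sub, _root_.map_sum, sub_eq_zero, hf l]
      refine X.ev_eq_sum (f l) _ ?_
      rw [← hΓ]
      exact Finset.subset_biUnion_of_mem (fun l => (f l).support) hl
    have h2 : ∑ l ∈ L, ∑ g ∈ Γ, (uu (X.w g) : SA D I) • X.r l.1 • (dd (f l g) : SA D I) • l.2 =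
        X.lsum L a - ∑ l ∈ L, (a l - ∑ g ∈ Γ, uu (X.w g) * dd (f l g)) • X.r l.1 • l.2 := by
      unfold lsum
      rw [← Finset.sum_sub_distrib]
      refine Finset.sum_congr rfl fun l _ => ?_
      rw [sub_smul, sub_sub_cancel, Finset.sum_smul]
      refine Finset.sum_congr rfl fun g _ => ?_
      rw [smul_smul (X.r l.1), X.r_dd, mul_smul, mul_smul]
    rw [h2]
    exact Submodule.sub_mem _ ha (Submodule.sum_mem _ fun l hl =>
      smul_mem_IK X.φ (h1 l hl) (st.loop l hl))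

/-- the loops of a stage are independent -/
def Indep {n : ℕ} (K : Submodule (SA D I) (Fin n → SA D I))
    (L : Finset (J × (Fin n → SA D I))) : Prop :=
  ∀ a, X.lsum L a ∈ IK X.φ K → ∀ l ∈ L, X.φ (a l) = 0

/-- one step -/
theorem step {n : ℕ} (hF : ∀ Z : Submodule (SA D I) (Fin n → SA D I), Module.Free (SA D I) Z)
    {P : Submodule B (Fin n → B)} {K : Submodule (SA D I) (Fin n → SA D I)}
    {L : Finset (J × (Fin n → SA D I))} (st : X.Stg P K L) (h : ¬ X.Indep K L) :
    ∃ K' L', X.Stg P K' L' ∧ L'.card < L.card := by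
  classical
  unfold Indep at h
  push Not at h
  obtain ⟨a, ha, l0, hl0, hal⟩ := h
  obtain ⟨Γ, f, hf, hs⟩ := X.exists_rep st a ha
  obtain ⟨g0, hg0, hfg⟩ : ∃ g0 ∈ Γ, f l0 g0 ≠ 0 := by
    by_contra h
    push Not at h
    refine hal ?_
    rw [hf l0 hl0]
    refine Finset.sum_eq_zero fun g hg => ?_
    rw [h g hg, map_zero, mul_zero, map_zero]
  let y : J × G → (Fin n → SA D I) := fun p => ∑ l ∈ L with l.1 = p.1, (dd (f l p.2) : SA D I) • l.2
  let S : Finset (J × G) := (L.image Prod.fst) ×ˢ Γ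
  let Z : Submodule (SA D I) (Fin n → SA D I) := K ⊔ Submodule.span (SA D I) (y '' S)
  have hKZ : K ≤ Z := le_sup_left
  have hyZ : ∀ p ∈ S, y p ∈ Z := fun p hp =>
    Submodule.mem_sup_right (Submodule.subset_span ⟨p, hp, rfl⟩)
  have hfree : Module.Free (SA D I) Z := hF Z
  have hs' : ∑ p ∈ S, (uu (X.w p.2) : SA D I) • X.r p.1 • y p ∈ IK X.φ K := by
    have h1 : ∑ p ∈ S, (uu (X.w p.2) : SA D I) • X.r p.1 • y p =
        ∑ l ∈ L, ∑ g ∈ Γ, (uu (X.w g) : SA D I) • X.r l.1 • (dd (f l g) : SA D I) • l.2 := by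
      rw [Finset.sum_product,
        ← Finset.sum_fiberwise_of_maps_to (g := Prod.fst) (t := L.image Prod.fst)
          (fun l hl => Finset.mem_image_of_mem _ hl)]
      refine Finset.sum_congr rfl fun j _ => ?_
      rw [Finset.sum_comm]
      refine Finset.sum_congr rfl fun g _ => ?_
      simp only [y]
      rw [Finset.smul_sum, Finset.smul_sum]
      refine Finset.sum_congr rfl fun l hl => ?_
      rw [(Finset.mem_filter.1 hl).2]
    rw [h1]
    exact hs
  have hC := X.lemC K S y Z hKZ hyZ hs'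
  have hZ : Z ≤ K ⊔ IK X.φ Z := by
    refine sup_le le_sup_left (Submodule.span_le.2 ?_)
    rintro _ ⟨p, hp, rfl⟩
    exact hC p hp
  have him : ∀ z ∈ IK X.φ Z, X.im z = 0 := fun z hz =>
    funext fun k => (mem_IK_top X.φ z).1 (IK_mono X.φ le_top hz) k
  -- the loop of `l0` is superfluous
  have hl : X.r l0.1 • l0.2 ∈ IK X.φ Z ⊔ X.lp (L.erase l0) := by
    have hp : ((l0.1, g0) : J × G) ∈ S :=
      Finset.mem_product.2 ⟨Finset.mem_image_of_mem _ hl0, hg0⟩
    have h1 : X.r l0.1 • y (l0.1, g0) ∈ IK X.φ Z ⊔ X.lp (L.erase l0) :=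
      Submodule.mem_sup_left (smul_mem_IK X.φ (X.φ_r0 _) (hyZ _ hp))
    have h2 : X.r l0.1 • y (l0.1, g0) = (dd (f l0 g0) : SA D I) • X.r l0.1 • l0.2 +
        ∑ l ∈ (L.filter fun l => l.1 = l0.1).erase l0, (dd (f l g0) : SA D I) • X.r l.1 • l.2 := by
      have h3 : y (l0.1, g0) = (dd (f l0 g0) : SA D I) • l0.2 +
          ∑ l ∈ (L.filter fun l => l.1 = l0.1).erase l0, (dd (f l g0) : SA D I) • l.2 :=
        (Finset.add_sum_erase (L.filter fun l => l.1 = l0.1)
          (fun l => (dd (f l g0) : SA D I) • l.2) (Finset.mem_filter.2 ⟨hl0, rfl⟩)).symm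
      rw [h3, smul_add, Finset.smul_sum, smul_smul, X.r_dd, mul_smul]
      congr 1
      refine Finset.sum_congr rfl fun l hl => ?_
      rw [smul_smul, X.r_dd, mul_smul, (Finset.mem_filter.1 (Finset.mem_of_mem_erase hl)).2]
    have h4 : ∑ l ∈ (L.filter fun l => l.1 = l0.1).erase l0,
        (dd (f l g0) : SA D I) • X.r l.1 • l.2 ∈ IK X.φ Z ⊔ X.lp (L.erase l0) :=
      Submodule.mem_sup_right (Submodule.sum_mem _ fun l hl => Submodule.smul_mem _ _
        (Submodule.subset_span ⟨l, Finset.mem_erase.2 ⟨Finset.ne_of_mem_erase hl,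
          (Finset.mem_filter.1 (Finset.mem_of_mem_erase hl)).1⟩, rfl⟩))
    have h5 : (dd (f l0 g0) : SA D I) • X.r l0.1 • l0.2 ∈ IK X.φ Z ⊔ X.lp (L.erase l0) := by
      have h7 : (dd (f l0 g0) : SA D I) • X.r l0.1 • l0.2 = X.r l0.1 • y (l0.1, g0) -
          ∑ l ∈ (L.filter fun l => l.1 = l0.1).erase l0,
            (dd (f l g0) : SA D I) • X.r l.1 • l.2 := by
        rw [h2, add_sub_cancel_right]
      rw [h7]
      exact Submodule.sub_mem _ h1 h4
    have h6 := Submodule.smul_mem _ (dd (f l0 g0)⁻¹ : SA D I) h5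
    rwa [smul_smul, ← map_mul, inv_mul_cancel₀ hfg, map_one, one_smul] at h6
  refine ⟨Z, L.erase l0, ⟨?_, ?_, ?_, ?_, ?_⟩, Finset.card_erase_lt_of_mem hl0⟩
  · refine Submodule.FG.sup st.fg ⟨S.image y, ?_⟩
    rw [Finset.coe_image]
  · intro z hz
    obtain ⟨z₁, h1, z₂, h2, rfl⟩ := Submodule.mem_sup.1 (hZ hz)
    rw [im_add, him z₂ h2, add_zero]
    exact st.im_mem z₁ h1
  · intro p hp
    obtain ⟨z, hz, h1⟩ := st.im_sur p hp
    exact ⟨z, hKZ hz, h1⟩
  · intro l hl
    exact hKZ (st.loop l (Finset.mem_of_mem_erase hl))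
  · intro z hz hz0
    obtain ⟨z₁, h1, z₂, h2, rfl⟩ := Submodule.mem_sup.1 (hZ hz)
    rw [im_add, him z₂ h2, add_zero] at hz0
    refine Submodule.add_mem _ ?_ (Submodule.mem_sup_left h2)
    have h3 : IK X.φ K ⊔ X.lp L ≤ IK X.φ Z ⊔ X.lp (L.erase l0) := by
      refine sup_le ((IK_mono X.φ hKZ).trans le_sup_left) (Submodule.span_le.2 ?_)
      rintro _ ⟨l, hl', rfl⟩
      by_cases h4 : l = l0
      · rw [h4]
        exact hl
      · exact Submodule.mem_sup_right (Submodule.subset_span ⟨l, Finset.mem_erase.2 ⟨h4, hl'⟩, rfl⟩)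
    exact h3 (st.h1 z₁ h1 hz0)

/-- a stage with independent loops -/
theorem exists_indep {n : ℕ}
    (hF : ∀ Z : Submodule (SA D I) (Fin n → SA D I), Module.Free (SA D I) Z)
    {P : Submodule B (Fin n → B)} {K : Submodule (SA D I) (Fin n → SA D I)}
    {L : Finset (J × (Fin n → SA D I))} (st : X.Stg P K L) :
    ∃ K' L', X.Stg P K' L' ∧ X.Indep K' L' := by
  induction h : L.card using Nat.strong_induction_on generalizing K L with
  | _ k ih =>
    by_cases h1 : X.Indep K L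
    · exact ⟨K, L, st, h1⟩
    · obtain ⟨K', L', st', h2⟩ := X.step hF st h1
      exact ih L'.card (h ▸ h2) st' rfl

end Dat

end

end Pool.Agent.Lib.EDG
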