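import Pool.Agent.Lib.EDG.CQ

/-!
# EDG: Lemma C

`K` a submodule of `Aⁿ`, `y p ∈ Aⁿ` for `p = (j, g)` in a finite set `S`, `∑ w_g r_j y p ∈ I K`,
`Z = K + ∑ A y p` free. Then `y p ∈ K + I Z`. For `Q = Z / (K + I Z)` the extension `exC` of `Q` gives an
additive map `cc : Z → CQ × Q` with `cc (a z) = a (cc z)`, `(cc z).2 = q z`; it vanishes on `I K`, and
`cc (w_g r_j y) = (∂ (j, g) ⊗ w_g q y, 0)`. Now use that `∂` is injective.
-/

set_option autoImplicit false

open SkewMonoidAlgebra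

namespace Pool.Agent.Lib.EDG

open Pool.Agent.Lib.GD2 (Tri)

noncomputable section

section

variable {D I G : Type} [Ring D] [MulSemiringAction (FreeGroup I) D] [Group G]
variable (h : FreeGroup I →* G) {M Q : Type} [AddCommGroup M] [Module (SA D I) M]
  [AddCommGroup Q] [Module (SA D I) Q]

/-- a crossed homomorphism from a free module -/
theorem exists_cc [Module.Free (SA D I) M] (q : M →ₗ[SA D I] Q) :
    ∃ cc : M →+ CQ h I Q × Q, (∀ (a : SA D I) z, cc (a • z) = exC h a (cc z)) ∧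
      ∀ z, (cc z).2 = q z := by
  let b := Module.Free.chooseBasis (SA D I) M
  let L : (Module.Free.ChooseBasisIndex (SA D I) M →₀ SA D I) →+ CQ h I Q × Q :=
    Finsupp.liftAddHom fun k => (AddMonoidHom.eval ((0, q (b k)) : CQ h I Q × Q)).comp
      (exC (D := D) h).toAddMonoidHom
  have hL : ∀ k a, L (Finsupp.single k a) = exC h a (0, q (b k)) := fun k a =>
    Finsupp.liftAddHom_apply_single _ _ _
  have h1 : ∀ (a : SA D I) f, L (a • f) = exC h a (L f) := by
    intro a f
    induction f using Finsupp.induction_linear with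
    | zero => rw [smul_zero, map_zero, map_zero]
    | add f g hf hg => rw [smul_add, map_add, hf, hg, map_add, map_add]
    | single k c => rw [Finsupp.smul_single, smul_eq_mul, hL, hL, ext_mul_apply]
  have h2 : ∀ f, (L f).2 = q (b.repr.symm f) := by
    intro f
    induction f using Finsupp.induction_linear with
    | zero => rw [map_zero, map_zero, map_zero]; rfl
    | add f g hf hg => rw [map_add, map_add, map_add, ← hf, ← hg]; rfl
    | single k c =>
      rw [hL, Module.Basis.repr_symm_single, map_smul]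
      exact ext_snd _ _ _ _
  refine ⟨L.comp b.repr.toAddEquiv.toAddMonoidHom, fun a z => ?_, fun z => ?_⟩
  · change L (b.repr (a • z)) = exC h a (L (b.repr z))
    rw [map_smul, h1]
  · change (L (b.repr z)).2 = q z
    rw [h2, LinearEquiv.symm_apply_apply]

end

namespace Dat

variable {D I G J B : Type} [DivisionRing D] [MulSemiringAction (FreeGroup I) D] [Group G]
    [Ring B] (X : Dat D I G J B)

section Q

variable {Q : Type} [AddCommGroup Q] [Module (SA D I) Q]

/-- the kernel of `φ` kills a module killed by the relation elements -/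
theorem kill {M : Type} [AddCommGroup M] [Module (SA D I) M]
    (hM : ∀ j (v : M), X.r j • v = 0) {a : SA D I} (ha : X.φ a = 0) (v : M) : a • v = 0 := by
  refine Submodule.span_induction (p := fun a _ => ∀ v : M, a • v = 0) ?_ ?_ ?_ ?_ (X.ker a ha) v
  · rintro _ ⟨j, y, rfl⟩ v
    rw [mul_smul]
    exact hM j _
  · exact fun v => zero_smul _ v
  · exact fun x y _ _ h1 h2 v => by rw [add_smul, h1, h2, add_zero]
  · exact fun c x _ h1 v => by rw [smul_eq_mul, mul_smul, h1, smul_zero]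

/-- chains with coefficients in a module killed by the relation elements -/
theorem kill_CQ (hQ : ∀ j (v : Q), X.r j • v = 0) {a : SA D I} (ha : X.φ a = 0)
    (f : CQ (FreeGroup.lift X.T.x) I Q) : a • f = 0 :=
  X.kill (fun j f => rel_CQ _ (X.γ j) (X.T.rl j) (X.lift_rl j) (hQ j) f) ha f

/-- the relation elements on the extension -/
theorem exC_r (hQ : ∀ j (v : Q), X.r j • v = 0) (j : J)
    (e : CQ (FreeGroup.lift X.T.x) I Q × Q) :
    exC (FreeGroup.lift X.T.x) (X.r j) e = (bdt X.T j 1 e.2, 0) := by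
  obtain ⟨f, v⟩ := e
  have h1 : exC (FreeGroup.lift X.T.x) (X.r j) (f, (0 : Q)) = 0 := by
    rw [exC, ext_fst, X.kill_CQ hQ (X.φ_r0 j)]
    rfl
  have hv : (dd (X.γ j) : SA D I) • (uu (X.T.rl j) : SA D I) • v = v := by
    have h2 := hQ j v
    unfold r rel at h2
    rwa [sub_smul, one_smul, sub_eq_zero, mul_smul] at h2
  have h2 : exC (FreeGroup.lift X.T.x) (X.r j) ((0 : CQ (FreeGroup.lift X.T.x) I Q), v) =
      (bdt X.T j 1 v, 0) := by
    unfold r rel
    rw [map_sub, map_one]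
    change exC (FreeGroup.lift X.T.x) (dd (X.γ j) * uu (X.T.rl j)) (0, v) - (0, v) = _
    rw [exC, ext_mul_apply, ← exC, exC_rl, exC, ext_dd]
    refine Prod.ext ?_ ?_
    · change (dd (X.γ j) : SA D I) • bdt X.T j 1 ((uu (X.T.rl j) : SA D I) • v) -
        (0 : CQ (FreeGroup.lift X.T.x) I Q) = bdt X.T j 1 v
      rw [dd_bdt, hv, sub_zero]
    · change (dd (X.γ j) : SA D I) • (uu (X.T.rl j) : SA D I) • v - v = 0
      rw [hv, sub_self]
  have h3 : ((f, v) : CQ (FreeGroup.lift X.T.x) I Q × Q) = (f, 0) + (0, v) := by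
    rw [Prod.mk_add_mk, add_zero, zero_add]
  rw [h3, map_add, h1, h2, zero_add, Prod.mk_add_mk, zero_add]

end Q

/-- Lemma C -/
theorem lemC {n : ℕ} (K : Submodule (SA D I) (Fin n → SA D I)) (S : Finset (J × G))
    (y : J × G → (Fin n → SA D I)) (Z : Submodule (SA D I) (Fin n → SA D I)) (hK : K ≤ Z)
    (hy : ∀ p ∈ S, y p ∈ Z) [Module.Free (SA D I) Z]
    (hs : ∑ p ∈ S, (uu (X.w p.2) : SA D I) • X.r p.1 • y p ∈ IK X.φ K) :
    ∀ p ∈ S, y p ∈ K ⊔ IK X.φ Z := by
  classical
  let N : Submodule (SA D I) Z := (K ⊔ IK X.φ Z).comap Z.subtype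
  let q : Z →ₗ[SA D I] (Z ⧸ N) := N.mkQ
  have hq : ∀ z : Z, q z = 0 ↔ (z : Fin n → SA D I) ∈ K ⊔ IK X.φ Z := fun z => by
    rw [Submodule.mkQ_apply, Submodule.Quotient.mk_eq_zero]
    exact Submodule.mem_comap
  have hQ : ∀ j (v : Z ⧸ N), X.r j • v = 0 := by
    intro j v
    obtain ⟨z, rfl⟩ := N.mkQ_surjective v
    have h1 : q (X.r j • z) = 0 := (hq _).2
      (Submodule.mem_sup_right (smul_mem_IK X.φ (X.φ_r0 j) z.2))
    rw [map_smul] at h1
    exact h1
  obtain ⟨cc, hcc, hc2⟩ := exists_cc (FreeGroup.lift X.T.x) q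
  -- `cc` vanishes on `I K`
  let L : Submodule (SA D I) Z :=
    { carrier := {z | cc z = 0}
      add_mem' := fun {a b} ha hb => by
        change cc (a + b) = 0
        rw [map_add, show cc a = 0 from ha, show cc b = 0 from hb, add_zero]
      zero_mem' := map_zero cc
      smul_mem' := fun c x hx => by
        change cc (c • x) = 0
        rw [hcc, show cc x = 0 from hx, map_zero] }
  have hL : IK X.φ K ≤ L.map Z.subtype := by
    refine (IK_le_iff X.φ).2 fun a x ha hx => ?_
    refine ⟨a • ⟨x, hK hx⟩, ?_, rfl⟩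
    change cc (a • ⟨x, hK hx⟩) = 0
    have h1 : (cc ⟨x, hK hx⟩).2 = 0 := by
      rw [hc2]
      exact (hq _).2 (Submodule.mem_sup_left hx)
    have h2 : cc ⟨x, hK hx⟩ = ((cc ⟨x, hK hx⟩).1, 0) := Prod.ext rfl h1
    rw [hcc, h2, exC, ext_fst, X.kill_CQ hQ ha]
    rfl
  let y' : J × G → Z := fun p => if hp : p ∈ S then ⟨y p, hy p hp⟩ else 0
  have hy' : ∀ p ∈ S, (y' p : Fin n → SA D I) = y p := fun p hp => by
    simp only [y', dif_pos hp]
  have hs' : ∑ p ∈ S, (uu (X.w p.2) : SA D I) • X.r p.1 • y' p ∈ L := by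
    obtain ⟨z, hz, hz'⟩ := hL hs
    have h1 : z = ∑ p ∈ S, (uu (X.w p.2) : SA D I) • X.r p.1 • y' p := by
      refine Subtype.ext ?_
      change Z.subtype z = Z.subtype _
      rw [hz', _root_.map_sum]
      refine Finset.sum_congr rfl fun p hp => ?_
      rw [map_smul, map_smul, Submodule.subtype_apply, hy' p hp]
    rwa [← h1]
  have hs2 : ∑ p ∈ S, bdt X.T p.1 p.2 ((uu (X.w p.2) : SA D I) • q (y' p)) = 0 := by
    have h1 : cc (∑ p ∈ S, (uu (X.w p.2) : SA D I) • X.r p.1 • y' p) = 0 := hs'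
    rw [_root_.map_sum] at h1
    have h2 : ∀ p ∈ S, cc ((uu (X.w p.2) : SA D I) • X.r p.1 • y' p) =
        (bdt X.T p.1 p.2 ((uu (X.w p.2) : SA D I) • q (y' p)), 0) := by
      intro p _
      rw [hcc, hcc, X.exC_r hQ, hc2, exC, ext_fst, uu_bdt, X.lift_w, mul_one]
    rw [Finset.sum_congr rfl h2] at h1
    have h3 := congrArg (AddMonoidHom.fst (CQ (FreeGroup.lift X.T.x) I (Z ⧸ N)) (Z ⧸ N)) h1
    rw [_root_.map_sum, map_zero] at h3
    exact h3
  have hs3 : X.T.bd (Z ⧸ N) (∑ p ∈ S, Finsupp.single p ((uu (X.w p.2) : SA D I) • q (y' p))) = 0 := by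
    rw [_root_.map_sum]
    have h8 : ∀ p ∈ S, X.T.bd (Z ⧸ N) (Finsupp.single p ((uu (X.w p.2) : SA D I) • q (y' p))) =
        bdt X.T p.1 p.2 ((uu (X.w p.2) : SA D I) • q (y' p)) := fun p _ =>
      (bdt_apply X.T p.1 p.2 _).symm
    rw [Finset.sum_congr rfl h8]
    exact hs2
  have hs4 := X.h2 (Z ⧸ N) _ hs3
  intro p hp
  have h5 : (uu (X.w p.2) : SA D I) • q (y' p) = 0 := by
    have h6 := congrArg (fun f => f p) hs4
    simp only [Finsupp.finsetSum_apply, Finsupp.coe_zero, Pi.zero_apply] at h6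
    rw [Finset.sum_eq_single_of_mem p hp, Finsupp.single_eq_same] at h6
    · exact h6
    · intro b _ hb
      exact Finsupp.single_eq_of_ne' hb
  have h6 : q (y' p) = 0 := by
    have h7 := congrArg (fun v => (uu (X.w p.2)⁻¹ : SA D I) • v) h5
    simp only [smul_zero, smul_smul, uu_inv_mul, one_smul] at h7
    exact h7
  have h7 := (hq _).1 h6
  rwa [hy' p hp] at h7

end Dat

end

end Pool.Agent.Lib.EDG
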