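import Pool.Agent.Lib.EDG.Dat
import Pool.Agent.Lib.STG.Gr

/-!
# EDG: a graded division ring as a quotient of a twisted free group algebra
-/

set_option autoImplicit false

namespace Pool.Agent.Lib.EDG

open Pool.Agent.Lib.GD2 (Tri)
open Pool.Agent.Lib.STG (RG)

noncomputable section

section gr

variable {G B : Type} [Group G] [Ring B] (R : RG G B)

theorem p_of_hom {g h : G} {b : B} (hb : R.p g b = b) (hg : h ≠ g) : R.p h b = 0 := by
  rw [← hb]
  exact R.pp' h g b hg

/-- the inverse of a homogeneous unit is homogeneous -/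
theorem inv_hom {g : G} (u : Bˣ) (hu : R.p g u = u) : R.p g⁻¹ (u⁻¹ : Bˣ) = (u⁻¹ : Bˣ) := by
  classical
  have h1 : R.p 1 ((u : B) * (u⁻¹ : Bˣ)) = (u : B) * R.p g⁻¹ (u⁻¹ : Bˣ) := by
    conv_lhs => rw [← R.sum_dec ((u⁻¹ : Bˣ) : B), Finsupp.sum, Finset.mul_sum, map_sum]
    have h2 : ∀ h : G, R.p 1 ((u : B) * R.dec ((u⁻¹ : Bˣ) : B) h) =
        if h = g⁻¹ then (u : B) * R.p g⁻¹ (u⁻¹ : Bˣ) else 0 := by
      intro h
      rw [R.dec_apply]
      have h3 := R.mul g h u (R.p h (u⁻¹ : Bˣ)) hu (R.pp h _)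
      split_ifs with hh
      · subst hh
        rw [mul_inv_cancel] at h3
        exact h3
      · refine p_of_hom R h3 ?_
        intro h4
        apply hh
        exact eq_inv_of_mul_eq_one_right h4.symm
    rw [Finset.sum_congr rfl fun h _ => h2 h, Finset.sum_ite_eq']
    split_ifs with hs
    · rfl
    · rw [Finsupp.notMem_support_iff, R.dec_apply] at hs
      rw [hs, mul_zero]
  rw [Units.mul_inv, R.one] at h1
  calc R.p g⁻¹ (u⁻¹ : Bˣ) = (u⁻¹ : Bˣ) * ((u : B) * R.p g⁻¹ (u⁻¹ : Bˣ)) := by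
        rw [← mul_assoc, Units.inv_mul, one_mul]
    _ = (u⁻¹ : Bˣ) := by rw [← h1, mul_one]

/-- the component of degree one -/
def D0 : Subring B where
  carrier := {b | R.p 1 b = b}
  mul_mem' {a b} ha hb := by
    have h := R.mul 1 1 a b ha hb
    rw [mul_one] at h
    exact h
  one_mem' := R.one
  add_mem' {a b} ha hb := by
    change R.p 1 (a + b) = a + b
    rw [map_add, show R.p 1 a = a from ha, show R.p 1 b = b from hb]
  zero_mem' := map_zero _
  neg_mem' {a} ha := by
    change R.p 1 (-a) = -a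
    rw [map_neg, show R.p 1 a = a from ha]

theorem nontrivial_of (hne : ∀ g, ∃ b, b ≠ 0 ∧ R.p g b = b) : Nontrivial B := by
  obtain ⟨b, hb, -⟩ := hne 1
  exact ⟨⟨b, 0, hb⟩⟩

end gr

/-! ### homogeneous units with given degrees -/

/-- a graded division ring with homogeneous units `u i` of degree `x i` -/
structure UN {G B : Type} [Group G] [Ring B] (R : RG G B) {I : Type} (x : I → G) where
  hdiv : ∀ g b, R.p g b = b → b ≠ 0 → IsUnit b
  hne : ∀ g, ∃ b, b ≠ 0 ∧ R.p g b = b
  u : I → Bˣ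
  hu : ∀ i, R.p (x i) (u i : B) = u i

theorem exists_UN {G B : Type} [Group G] [Ring B] (R : RG G B)
    (hdiv : ∀ g b, R.p g b = b → b ≠ 0 → IsUnit b) (hne : ∀ g, ∃ b, b ≠ 0 ∧ R.p g b = b)
    {I : Type} (x : I → G) : Nonempty (UN R x) := by
  have hne' := hne
  choose b hb hq using hne'
  choose v hv using fun g => hdiv g (b g) (hq g) (hb g)
  exact ⟨⟨hdiv, hne, fun i => v (x i), fun i => by rw [hv]; exact hq _⟩⟩

namespace UN

variable {G B : Type} [Group G] [Ring B] {R : RG G B} {I : Type} {x : I → G} (U : UN R x)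

/-- the units `u_w`, `w` in the free group -/
def uw : FreeGroup I →* Bˣ := FreeGroup.lift U.u

theorem uw_hom (w : FreeGroup I) : R.p (FreeGroup.lift x w) (U.uw w : B) = U.uw w := by
  induction w using FreeGroup.induction_on with
  | C1 => rw [map_one, map_one, Units.val_one]; exact R.one
  | of i =>
    unfold uw
    rw [FreeGroup.lift_apply_of, FreeGroup.lift_apply_of]
    exact U.hu i
  | inv_of i h =>
    rw [map_inv, map_inv]
    exact inv_hom R _ h
  | mul v w hv hw =>
    rw [map_mul, map_mul, Units.val_mul]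
    exact R.mul _ _ _ _ hv hw

/-- the component of degree one -/
def DD (_ : UN R x) : Type := (D0 R)

instance instRingDD : Ring U.DD := inferInstanceAs (Ring (D0 R))

theorem DD_nontrivial : Nontrivial U.DD := by
  have h1 := nontrivial_of R U.hne
  exact (inferInstance : Nontrivial (D0 R))

theorem DD_unit (a : U.DD) : IsUnit a ∨ a = 0 := by
  by_cases ha : a = 0
  · exact Or.inr ha
  · left
    obtain ⟨u, hu⟩ := U.hdiv 1 (a : (D0 R)).1 (a : (D0 R)).2 (fun h => ha (Subtype.ext h))
    have h1 : R.p 1 (u : B) = u := by rw [hu]; exact (a : (D0 R)).2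
    have h2 := inv_hom R u h1
    rw [inv_one] at h2
    refine ⟨⟨a, (⟨((u⁻¹ : Bˣ) : B), h2⟩ : (D0 R)), ?_, ?_⟩, rfl⟩
    · refine Subtype.ext ?_
      change (a : (D0 R)).1 * (u⁻¹ : Bˣ) = 1
      rw [← hu, Units.mul_inv]
    · refine Subtype.ext ?_
      change ((u⁻¹ : Bˣ) : B) * (a : (D0 R)).1 = 1
      rw [← hu, Units.inv_mul]

/-- the component of degree one is a division ring -/
instance instDivDD : DivisionRing U.DD :=
  @DivisionRing.ofIsUnitOrEqZero U.DD U.DD_nontrivial U.instRingDD U.DD_unit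

/-- the inclusion -/
def val : U.DD →+* B := (D0 R).subtype

theorem val_inj : Function.Injective U.val := Subtype.val_injective

theorem p_val (d : U.DD) : R.p 1 (U.val d) = U.val d := d.2

/-- elements of degree one -/
def inD (b : B) (hb : R.p 1 b = b) : U.DD := ⟨b, hb⟩

theorem val_inD (b : B) (hb : R.p 1 b = b) : U.val (U.inD b hb) = b := rfl

theorem conj_mem (w : FreeGroup I) (d : U.DD) :
    R.p 1 ((U.uw w : B) * U.val d * (U.uw w⁻¹ : Bˣ)) = (U.uw w : B) * U.val d * (U.uw w⁻¹ : Bˣ) := by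
  have h1 := R.mul _ _ _ _ (U.uw_hom w) (U.p_val d)
  have h2 := R.mul _ _ _ _ h1 (U.uw_hom w⁻¹)
  rw [mul_one, map_inv (FreeGroup.lift x), mul_inv_cancel] at h2
  exact h2

/-- the action of the free group on the component of degree one -/
instance : MulSemiringAction (FreeGroup I) U.DD where
  smul w d := U.inD _ (U.conj_mem w d)
  one_smul d := by
    refine U.val_inj ?_
    change (U.uw 1 : B) * U.val d * (U.uw 1⁻¹ : Bˣ) = U.val d
    rw [inv_one, map_one, Units.val_one, one_mul, mul_one]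
  mul_smul v w d := by
    refine U.val_inj ?_
    change (U.uw (v * w) : B) * U.val d * (U.uw (v * w)⁻¹ : Bˣ) =
      (U.uw v : B) * ((U.uw w : B) * U.val d * (U.uw w⁻¹ : Bˣ)) * (U.uw v⁻¹ : Bˣ)
    rw [mul_inv_rev, map_mul, map_mul, Units.val_mul, Units.val_mul]
    simp only [mul_assoc]
  smul_zero w := by
    refine U.val_inj ?_
    change (U.uw w : B) * U.val 0 * (U.uw w⁻¹ : Bˣ) = U.val 0
    rw [map_zero, mul_zero, zero_mul]
  smul_add w d e := by
    refine U.val_inj ?_
    change (U.uw w : B) * U.val (d + e) * (U.uw w⁻¹ : Bˣ) =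
      (U.uw w : B) * U.val d * (U.uw w⁻¹ : Bˣ) + (U.uw w : B) * U.val e * (U.uw w⁻¹ : Bˣ)
    rw [map_add, mul_add, add_mul]
  smul_one w := by
    refine U.val_inj ?_
    change (U.uw w : B) * U.val 1 * (U.uw w⁻¹ : Bˣ) = U.val 1
    rw [map_one, mul_one, map_inv, Units.mul_inv]
  smul_mul w d e := by
    refine U.val_inj ?_
    change (U.uw w : B) * U.val (d * e) * (U.uw w⁻¹ : Bˣ) =
      (U.uw w : B) * U.val d * (U.uw w⁻¹ : Bˣ) * ((U.uw w : B) * U.val e * (U.uw w⁻¹ : Bˣ))
    have h : ((U.uw w⁻¹ : Bˣ) : B) * (U.uw w : B) = 1 := by rw [map_inv, Units.inv_mul]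
    calc (U.uw w : B) * U.val (d * e) * (U.uw w⁻¹ : Bˣ) =
        (U.uw w : B) * U.val d * 1 * U.val e * (U.uw w⁻¹ : Bˣ) := by
          rw [mul_one, map_mul, ← mul_assoc (U.uw w : B)]
      _ = _ := by rw [← h]; simp only [mul_assoc]

theorem val_smul (w : FreeGroup I) (d : U.DD) :
    U.val (w • d) = (U.uw w : B) * U.val d * (U.uw w⁻¹ : Bˣ) := rfl

/-- the homomorphism from the twisted free group algebra -/
def phi : SA U.DD I →+* B :=
  SkewMonoidAlgebra.liftNCRingHom U.val ((Units.coeHom B).comp U.uw) (by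
    intro d w
    change U.val (w • d) * (U.uw w : B) = (U.uw w : B) * U.val d
    rw [val_smul, mul_assoc, map_inv, Units.inv_mul, mul_one])

theorem phi_dd (d : U.DD) : U.phi (dd d) = U.val d := by
  change SkewMonoidAlgebra.liftNC _ _ (SkewMonoidAlgebra.single 1 d) = U.val d
  rw [SkewMonoidAlgebra.liftNC_single]
  change U.val d * (U.uw 1 : B) = U.val d
  rw [map_one, Units.val_one, mul_one]

theorem phi_uu (w : FreeGroup I) : U.phi (uu w) = (U.uw w : B) := by
  change SkewMonoidAlgebra.liftNC _ _ (SkewMonoidAlgebra.single w 1) = (U.uw w : B)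
  rw [SkewMonoidAlgebra.liftNC_single]
  change U.val 1 * (U.uw w : B) = U.uw w
  rw [map_one, one_mul]

theorem phi_dd_uu (d : U.DD) (w : FreeGroup I) :
    U.phi (dd d * uu w) = U.val d * (U.uw w : B) := by
  rw [map_mul, phi_dd, phi_uu]

/-! ### words in the kernel -/

/-- the scalar `c_w` for a word `w` in the kernel -/
def cw (w : FreeGroup I) (hw : FreeGroup.lift x w = 1) : U.DD :=
  U.inD (U.uw w : B) (by
    have h := U.uw_hom w
    rw [hw] at h
    exact h)

theorem val_cw (w : FreeGroup I) (hw : FreeGroup.lift x w = 1) : U.val (U.cw w hw) = (U.uw w : B) :=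
  rfl

theorem cw_ne_zero (w : FreeGroup I) (hw : FreeGroup.lift x w = 1) : U.cw w hw ≠ 0 := by
  have : Nontrivial B := nontrivial_of R U.hne
  intro h
  have h1 := U.val_cw w hw
  rw [h, map_zero] at h1
  exact (U.uw w).ne_zero h1.symm

/-- conjugation by `c_w` -/
theorem ker_smul (w : FreeGroup I) (hw : FreeGroup.lift x w = 1) (d : U.DD) :
    w • d = U.cw w hw * d * (U.cw w hw)⁻¹ := by
  have h : w • d * U.cw w hw = U.cw w hw * d := by
    refine U.val_inj ?_
    rw [map_mul, map_mul, val_smul, val_cw, mul_assoc, map_inv, Units.inv_mul, mul_one]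
  rw [← h, mul_assoc, mul_inv_cancel₀ (U.cw_ne_zero w hw), mul_one]

/-- the relation `c_w⁻¹ w - 1` -/
def rel (w : FreeGroup I) (hw : FreeGroup.lift x w = 1) : SA U.DD I :=
  dd (U.cw w hw)⁻¹ * uu w - 1

theorem rel_comm (w : FreeGroup I) (hw : FreeGroup.lift x w = 1) (d : U.DD) :
    dd d * U.rel w hw = U.rel w hw * dd d := by
  have h : (dd (U.cw w hw)⁻¹ * uu w * dd d : SA U.DD I) = dd d * (dd (U.cw w hw)⁻¹ * uu w) := by
    rw [mul_assoc, uu_mul_dd, ker_smul U w hw, ← mul_assoc, ← mul_assoc, ← map_mul, ← map_mul,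
      ← mul_assoc, ← mul_assoc, inv_mul_cancel₀ (U.cw_ne_zero w hw), one_mul]
  unfold rel
  rw [mul_sub, sub_mul, mul_one, one_mul, h]

theorem phi_rel (w : FreeGroup I) (hw : FreeGroup.lift x w = 1) : U.phi (U.rel w hw) = 0 := by
  unfold rel
  rw [map_sub, map_mul, phi_dd, phi_uu, map_one, ← val_cw U w hw, ← map_mul,
    inv_mul_cancel₀ (U.cw_ne_zero w hw), map_one, sub_self]

/-! ### homogeneous lifts -/

section lift

variable (σ : G → FreeGroup I) (hσ : ∀ g, FreeGroup.lift x (σ g) = g)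

/-- the coefficient of `b` at `g` -/
def pr (g : G) : B →+ U.DD where
  toFun b := U.inD (R.p g b * (U.uw (σ g))⁻¹) (by
    have h1 := R.mul g g⁻¹ _ _ (R.pp g b) (inv_hom R (U.uw (σ g)) (by
      have h := U.uw_hom (σ g)
      rw [hσ] at h
      exact h))
    rw [mul_inv_cancel] at h1
    exact h1)
  map_zero' := by
    refine U.val_inj ?_
    rw [val_inD, map_zero, zero_mul, map_zero]
  map_add' b c := by
    refine U.val_inj ?_
    rw [val_inD, map_add, map_add, add_mul]
    rfl

theorem val_pr (g : G) (b : B) : U.val (U.pr σ hσ g b) * (U.uw (σ g) : B) = R.p g b := by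
  change R.p g b * (U.uw (σ g))⁻¹ * (U.uw (σ g) : B) = R.p g b
  rw [mul_assoc, Units.inv_mul, mul_one]

/-- the homogeneous lift of `b` -/
def lft : B →+ SA U.DD I where
  toFun b := (R.dec b).sum fun g c => dd (U.pr σ hσ g c) * uu (σ g)
  map_zero' := by
    rw [map_zero, Finsupp.sum_zero_index]
  map_add' b c := by
    rw [map_add, Finsupp.sum_add_index']
    · intro g
      rw [map_zero, map_zero, zero_mul]
    · intro g b c
      rw [map_add, map_add, add_mul]

theorem lft_apply (b : B) :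
    U.lft σ hσ b = ∑ g ∈ (R.dec b).support, dd (U.pr σ hσ g b) * uu (σ g) := by
  change (R.dec b).sum (fun g c => (dd (U.pr σ hσ g c) * uu (σ g) : SA U.DD I)) = _
  rw [Finsupp.sum]
  refine Finset.sum_congr rfl fun g _ => ?_
  congr 2
  refine U.val_inj ?_
  change R.p g (R.p g b) * (U.uw (σ g))⁻¹ = R.p g b * (U.uw (σ g))⁻¹
  rw [R.pp]

theorem lft_hom {g : G} {b : B} (hb : R.p g b = b) :
    U.lft σ hσ b = dd (U.pr σ hσ g b) * uu (σ g) := by
  change (R.dec b).sum (fun g c => (dd (U.pr σ hσ g c) * uu (σ g) : SA U.DD I)) = _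
  rw [R.dec_of_hom hb, Finsupp.sum_single_index]
  rw [map_zero, map_zero, zero_mul]

theorem phi_lft (b : B) : U.phi (U.lft σ hσ b) = b := by
  rw [lft_apply, map_sum]
  conv_rhs => rw [← R.sum_dec b, Finsupp.sum]
  refine Finset.sum_congr rfl fun g _ => ?_
  rw [phi_dd_uu, val_pr, R.dec_apply]

include hσ in
theorem phi_surj : Function.Surjective U.phi := fun b => ⟨_, U.phi_lft σ hσ b⟩

end lift

/-! ### homogeneous lifts with scalars on the right -/

section liftr

variable (σ : G → FreeGroup I) (hσ : ∀ g, FreeGroup.lift x (σ g) = g)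

/-- the right coefficient of `b` at `g` -/
def pl (g : G) (b : B) : U.DD :=
  U.inD ((U.uw (σ g))⁻¹ * R.p g b) (by
    have h1 := R.mul g⁻¹ g _ _ (inv_hom R (U.uw (σ g)) (by
      have h := U.uw_hom (σ g)
      rw [hσ] at h
      exact h)) (R.pp g b)
    rw [inv_mul_cancel] at h1
    exact h1)

theorem val_pl (g : G) (b : B) : (U.uw (σ g) : B) * U.val (U.pl σ hσ g b) = R.p g b := by
  change (U.uw (σ g) : B) * ((U.uw (σ g))⁻¹ * R.p g b) = R.p g b
  rw [← mul_assoc, Units.mul_inv, one_mul]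

include hσ in
theorem exists_lift (a : SA U.DD I) :
    ∃ d : G →₀ U.DD, U.phi a = U.phi (d.sum fun g c => uu (σ g) * dd c) := by
  classical
  refine ⟨Finsupp.onFinset (R.dec (U.phi a)).support (fun g => U.pl σ hσ g (U.phi a)) ?_, ?_⟩
  · intro g hg
    rw [Finsupp.mem_support_iff, R.dec_apply]
    intro h
    apply hg
    refine U.val_inj ?_
    change (U.uw (σ g))⁻¹ * R.p g (U.phi a) = U.val 0
    rw [h, mul_zero, map_zero]
  · rw [Finsupp.sum_of_support_subset (s := (R.dec (U.phi a)).support) _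
      Finsupp.support_onFinset_subset _ (fun g _ => by rw [map_zero, mul_zero]), _root_.map_sum]
    conv_lhs => rw [← R.sum_dec (U.phi a), Finsupp.sum]
    refine Finset.sum_congr rfl fun g _ => ?_
    rw [Finsupp.onFinset_apply, map_mul, phi_uu, phi_dd, val_pl, R.dec_apply]

include hσ in
theorem lift_indep (d : G →₀ U.DD) (hd : U.phi (d.sum fun g c => uu (σ g) * dd c) = 0) :
    d = 0 := by
  classical
  ext h
  have h1 : ∀ g, R.p h (U.phi (uu (σ g) * dd (d g))) =
      if g = h then (U.uw (σ h) : B) * U.val (d h) else 0 := by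
    intro g
    have h2 := R.mul _ _ _ _ (U.uw_hom (σ g)) (U.p_val (d g))
    rw [mul_one, hσ] at h2
    rw [map_mul, phi_uu, phi_dd]
    split_ifs with hg
    · subst hg; exact h2
    · exact p_of_hom R h2 (Ne.symm hg)
  have h3 := congrArg (R.p h) hd
  rw [Finsupp.sum, _root_.map_sum, _root_.map_sum, Finset.sum_congr rfl fun g _ => h1 g,
    Finset.sum_ite_eq', map_zero] at h3
  by_cases hh : h ∈ d.support
  · rw [if_pos hh] at h3
    refine U.val_inj ?_
    rw [Finsupp.zero_apply, map_zero]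
    calc U.val (d h) = (U.uw (σ h))⁻¹ * ((U.uw (σ h) : B) * U.val (d h)) := by
          rw [← mul_assoc, Units.inv_mul, one_mul]
      _ = 0 := by rw [h3, mul_zero]
  · exact Finsupp.notMem_support_iff.1 hh

end liftr

/-! ### the kernel -/

section ker

variable {J : Type} (ρ : J → FreeGroup I) (hρ : ∀ j, FreeGroup.lift x (ρ j) = 1)

/-- the two-sided ideal generated by the relations, as a left ideal -/
def relI : Submodule (SA U.DD I) (SA U.DD I) :=
  Submodule.span _ {z | ∃ (j : J) (c : SA U.DD I), z = U.rel (ρ j) (hρ j) * c}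

theorem relI_mul_right {a : SA U.DD I} (ha : a ∈ U.relI ρ hρ) (b : SA U.DD I) :
    a * b ∈ U.relI ρ hρ := by
  unfold relI at ha
  induction ha using Submodule.span_induction with
  | mem z hz =>
    obtain ⟨j, c, rfl⟩ := hz
    rw [mul_assoc]
    exact Submodule.subset_span ⟨j, c * b, rfl⟩
  | zero => rw [zero_mul]; exact Submodule.zero_mem _
  | add y z _ _ hy hz => rw [add_mul]; exact Submodule.add_mem _ hy hz
  | smul c z _ hz =>
    change c * z * b ∈ _
    rw [mul_assoc]
    exact Submodule.smul_mem _ c hz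

theorem relI_mul_left {a : SA U.DD I} (ha : a ∈ U.relI ρ hρ) (b : SA U.DD I) :
    b * a ∈ U.relI ρ hρ := Submodule.smul_mem _ b ha

/-- the words `w` in the kernel with `w ≡ c_w` -/
def good : Subgroup (FreeGroup I) where
  carrier := {w | ∃ hw : FreeGroup.lift x w = 1,
    (uu w - dd (U.cw w hw) : SA U.DD I) ∈ U.relI ρ hρ}
  one_mem' := by
    refine ⟨map_one _, ?_⟩
    have h : U.cw (1 : FreeGroup I) (map_one _) = 1 := by
      refine U.val_inj ?_
      rw [val_cw, map_one, map_one, Units.val_one]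
    rw [h, map_one, map_one, sub_self]
    exact Submodule.zero_mem _
  mul_mem' {v w} hv hw := by
    obtain ⟨hv, hv'⟩ := hv
    obtain ⟨hw, hw'⟩ := hw
    refine ⟨by rw [map_mul, hv, hw, one_mul], ?_⟩
    have h : U.cw (v * w) (by rw [map_mul, hv, hw, one_mul]) = U.cw v hv * U.cw w hw := by
      refine U.val_inj ?_
      rw [val_cw, map_mul, map_mul, val_cw, val_cw, Units.val_mul]
    have e : (uu (v * w) - dd (U.cw v hv * U.cw w hw) : SA U.DD I) =
        (uu v - dd (U.cw v hv)) * uu w + dd (U.cw v hv) * (uu w - dd (U.cw w hw)) := by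
      rw [map_mul, map_mul, sub_mul, mul_sub]
      abel
    rw [h, e]
    exact Submodule.add_mem _ (U.relI_mul_right ρ hρ hv' _) (U.relI_mul_left ρ hρ hw' _)
  inv_mem' {w} hw := by
    obtain ⟨hw, hw'⟩ := hw
    refine ⟨by rw [map_inv, hw, inv_one], ?_⟩
    have h : U.cw w⁻¹ (by rw [map_inv, hw, inv_one]) = (U.cw w hw)⁻¹ := by
      refine eq_inv_of_mul_eq_one_left ?_
      refine U.val_inj ?_
      rw [map_mul, val_cw, val_cw, map_inv, Units.inv_mul, map_one]
    have e : (uu w⁻¹ - dd (U.cw w hw)⁻¹ : SA U.DD I) =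
        -(uu w⁻¹ * ((uu w - dd (U.cw w hw)) * dd (U.cw w hw)⁻¹)) := by
      rw [sub_mul, mul_sub, ← map_mul dd,
        mul_inv_cancel₀ (U.cw_ne_zero w hw), map_one, mul_one, ← mul_assoc, uu_inv_mul, one_mul]
      abel
    rw [h, e]
    exact Submodule.neg_mem _ (U.relI_mul_left ρ hρ (U.relI_mul_right ρ hρ hw' _) _)

instance good_normal : (U.good ρ hρ).Normal where
  conj_mem w hw v := by
    obtain ⟨hw, hw'⟩ := hw
    refine ⟨by rw [map_mul, map_mul, hw, mul_one, map_inv, mul_inv_cancel], ?_⟩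
    have h : U.cw (v * w * v⁻¹) (by rw [map_mul, map_mul, hw, mul_one, map_inv, mul_inv_cancel]) =
        v • U.cw w hw := by
      refine U.val_inj ?_
      rw [val_cw, val_smul, map_mul, map_mul, val_cw, Units.val_mul, Units.val_mul]
    have e : (uu (v * w * v⁻¹) - dd (v • U.cw w hw) : SA U.DD I) =
        uu v * ((uu w - dd (U.cw w hw)) * uu v⁻¹) := by
      rw [sub_mul, mul_sub, ← mul_assoc (uu v) (uu w), ← mul_assoc (uu v) (dd _), uu_mul_dd,
        mul_assoc (dd _), uu_mul_inv, mul_one, ← map_mul, ← map_mul]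
    rw [h, e]
    exact U.relI_mul_left ρ hρ (U.relI_mul_right ρ hρ hw' _) _

theorem rho_mem_good (j : J) : ρ j ∈ U.good ρ hρ := by
  refine ⟨hρ j, ?_⟩
  have e : (uu (ρ j) - dd (U.cw (ρ j) (hρ j)) : SA U.DD I) =
      dd (U.cw (ρ j) (hρ j)) * (U.rel (ρ j) (hρ j) * 1) := by
    unfold rel
    rw [mul_one, mul_sub, ← mul_assoc, ← map_mul,
      mul_inv_cancel₀ (U.cw_ne_zero _ _), map_one, one_mul, mul_one]
  rw [e]
  exact U.relI_mul_left ρ hρ (Submodule.subset_span ⟨j, 1, rfl⟩) _

theorem ker_good (hker : (FreeGroup.lift x).ker = Subgroup.normalClosure (Set.range ρ))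
    (w : FreeGroup I) (hw : FreeGroup.lift x w = 1) :
    (uu w - dd (U.cw w hw) : SA U.DD I) ∈ U.relI ρ hρ := by
  have h1 : w ∈ Subgroup.normalClosure (Set.range ρ) := by
    rw [← hker]
    exact hw
  have h2 : Subgroup.normalClosure (Set.range ρ) ≤ U.good ρ hρ :=
    Subgroup.normalClosure_le_normal (by
      rintro _ ⟨j, rfl⟩
      exact U.rho_mem_good ρ hρ j)
  obtain ⟨h3, h4⟩ := h2 h1
  exact h4

variable (σ : G → FreeGroup I) (hσ : ∀ g, FreeGroup.lift x (σ g) = g)

theorem sub_lft_mem (hker : (FreeGroup.lift x).ker = Subgroup.normalClosure (Set.range ρ))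
    (a : SA U.DD I) : a - U.lft σ hσ (U.phi a) ∈ U.relI ρ hρ := by
  induction a using SA_induction with
  | h0 => rw [map_zero, map_zero, sub_zero]; exact Submodule.zero_mem _
  | ha a b ha hb =>
    rw [map_add, map_add, add_sub_add_comm]
    exact Submodule.add_mem _ ha hb
  | hm d w =>
    set g := FreeGroup.lift x w with hg
    have hv : FreeGroup.lift x (w * (σ g)⁻¹) = 1 := by
      rw [map_mul, map_inv, hσ, ← hg, mul_inv_cancel]
    have hh : R.p g (U.phi (dd d * uu w)) = U.phi (dd d * uu w) := by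
      have h := R.mul 1 g _ _ (U.p_val d) (U.uw_hom w)
      rw [one_mul] at h
      rw [phi_dd_uu]
      exact h
    have h1 : U.pr σ hσ g (U.phi (dd d * uu w)) = d * U.cw _ hv := by
      refine U.val_inj ?_
      change R.p g (U.phi (dd d * uu w)) * (U.uw (σ g))⁻¹ = U.val (d * U.cw _ hv)
      rw [hh, phi_dd_uu, map_mul, val_cw, map_mul, map_inv, Units.val_mul, mul_assoc]
    rw [U.lft_hom σ hσ hh, h1]
    have e : (dd d * uu w - dd (d * U.cw _ hv) * uu (σ g) : SA U.DD I) =
        dd d * ((uu (w * (σ g)⁻¹) - dd (U.cw _ hv)) * uu (σ g)) := by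
      rw [sub_mul, mul_sub, map_mul dd, ← map_mul uu, inv_mul_cancel_right,
        mul_assoc (dd d)]
    rw [e]
    exact U.relI_mul_left ρ hρ (U.relI_mul_right ρ hρ (U.ker_good ρ hρ hker _ hv) _) _

include hσ in
/-- the kernel is generated by the relations -/
theorem ker_phi (hker : (FreeGroup.lift x).ker = Subgroup.normalClosure (Set.range ρ))
    (a : SA U.DD I) : U.phi a = 0 ↔ a ∈ U.relI ρ hρ := by
  constructor
  · intro h
    have h1 := U.sub_lft_mem ρ hρ σ hσ hker a
    rw [h, map_zero, sub_zero] at h1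
    exact h1
  · intro h
    unfold relI at h
    induction h using Submodule.span_induction with
    | mem z hz =>
      obtain ⟨j, c, rfl⟩ := hz
      rw [map_mul, phi_rel, zero_mul]
    | zero => rw [map_zero]
    | add y z _ _ hy hz => rw [map_add, hy, hz, add_zero]
    | smul c z _ hz =>
      change U.phi (c * z) = 0
      rw [map_mul, hz, mul_zero]

end ker

/-- the crossed product data -/
def dat {J : Type} (T : Tri G I J) (U : UN R T.x) (hT : T.Pres) (hH : T.H2) :
    Dat U.DD I G J B :=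
  have hρ : ∀ j, FreeGroup.lift T.x (T.rl j) = 1 := fun j => by
    unfold Tri.rl
    rw [map_mul, map_mul, map_inv, FreeGroup.lift_apply_of, FreeGroup.lift_apply_of,
      FreeGroup.lift_apply_of, T.rel, mul_inv_cancel]
  { T := T
    tsurj := hT.surj
    h2 := hH
    γ := fun j => (U.cw (T.rl j) (hρ j))⁻¹
    γ0 := fun j => inv_ne_zero (U.cw_ne_zero _ _)
    γ_smul := fun j d => by
      rw [U.ker_smul _ (hρ j), ← mul_assoc, ← mul_assoc, inv_mul_cancel₀ (U.cw_ne_zero _ _),
        one_mul]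
    φ := U.phi
    surj := by
      choose σ hσ using hT.surj
      exact U.phi_surj σ hσ
    φ_r := fun j => by
      have h := U.phi_rel (T.rl j) (hρ j)
      unfold rel at h
      rw [map_sub, map_one, sub_eq_zero] at h
      exact h
    ker := fun a ha => by
      choose σ hσ using hT.surj
      exact (U.ker_phi T.rl hρ σ hσ hT.ker a).1 ha
    lift := fun w w' h => by
      have hw : FreeGroup.lift T.x (w'⁻¹ * w) = 1 := by
        rw [map_mul, map_inv, h, inv_mul_cancel]
      refine ⟨U.cw _ hw, ?_⟩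
      rw [map_mul, U.phi_uu, U.phi_uu, U.phi_dd, U.val_cw, ← Units.val_mul, ← map_mul,
        mul_inv_cancel_left] }

end UN

/-- a graded division ring over a group with the triangular presentation `T` is a crossed product -/
theorem exists_dat {G I J B : Type} [Group G] [Ring B] (R : RG G B)
    (hdiv : ∀ g b, R.p g b = b → b ≠ 0 → IsUnit b) (hne : ∀ g, ∃ b, b ≠ 0 ∧ R.p g b = b)
    (T : Tri G I J) (hT : T.Pres) (hH : T.H2) :
    ∃ (D : Type) (_ : DivisionRing D) (_ : MulSemiringAction (FreeGroup I) D) (X : Dat D I G J B),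
      X.T = T := by
  obtain ⟨U⟩ := exists_UN R hdiv hne T.x
  exact ⟨U.DD, inferInstance, inferInstance, U.dat T hT hH, rfl⟩

end

end Pool.Agent.Lib.EDG
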