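import Pool.Agent.Lib.EDG.Xd

/-!
# EDG: existence of a stage for a module with two relation matrices
-/

set_option autoImplicit false
set_option linter.unusedSectionVars false

namespace Pool.Agent.Lib.EDG

open Pool.Agent.Lib.GD2 (Tri)

noncomputable section

variable {D I G J B : Type} [DivisionRing D] [MulSemiringAction (FreeGroup I) D] [Group G]
    [Ring B] (X : Dat D I G J B)

/-- `I Aⁿ` is generated by the `r j • v` -/
theorem Dat.mem_span_r {n : ℕ} (z : Fin n → SA D I) (hz : ∀ k, X.φ (z k) = 0) :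
    z ∈ Submodule.span (SA D I) {x : Fin n → SA D I | ∃ j v, x = X.r j • v} := by
  have e : z = ∑ k, LinearMap.single (SA D I) (fun _ : Fin n => SA D I) k (z k) := by
    conv_lhs => rw [← Finset.univ_sum_single z]
    rfl
  rw [e]
  refine Submodule.sum_mem _ fun k _ => ?_
  have h := Submodule.mem_map_of_mem
    (f := LinearMap.single (SA D I) (fun _ : Fin n => SA D I) k) (X.ker (z k) (hz k))
  rw [Submodule.map_span] at h
  refine Submodule.span_mono ?_ h
  rintro _ ⟨_, ⟨j, y, rfl⟩, rfl⟩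
  refine ⟨j, LinearMap.single (SA D I) (fun _ : Fin n => SA D I) k y, ?_⟩
  rw [← map_smul]
  rfl

/-- finitely many of them suffice for finitely many vectors -/
theorem Dat.exists_loops {n : ℕ} {ι : Type} [Finite ι] (z : ι → Fin n → SA D I)
    (hz : ∀ p k, X.φ (z p k) = 0) :
    ∃ (Λ : Type) (_ : Fintype Λ) (j : Λ → J) (y : Λ → Fin n → SA D I),
      ∀ p, z p ∈ Submodule.span (SA D I) (Set.range fun l => X.r (j l) • y l) := by
  classical
  have := Fintype.ofFinite ι
  choose T hT1 hT2 using fun p =>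
    Submodule.mem_span_finite_of_mem_span (X.mem_span_r (z p) (hz p))
  let U : Finset (Fin n → SA D I) := Finset.univ.biUnion T
  have hU : ∀ x : U, ∃ j v, x.1 = X.r j • v := by
    rintro ⟨x, hx⟩
    obtain ⟨p, -, hp⟩ := Finset.mem_biUnion.1 hx
    exact hT1 p hp
  choose j y hjy using hU
  refine ⟨U, inferInstance, j, y, fun p => ?_⟩
  refine Submodule.span_mono ?_ (hT2 p)
  intro x hx
  have hxU : x ∈ U := Finset.mem_biUnion.2 ⟨p, Finset.mem_univ p, hx⟩
  exact ⟨⟨x, hxU⟩, (hjy ⟨x, hxU⟩).symm⟩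

/-- **existence of a stage** -/
theorem Dat.exists_stg {n m l : ℕ} (b : Matrix (Fin m) (Fin n) B) (s : Matrix (Fin l) (Fin m) B)
    (hs : ∀ v : Fin m → B, Matrix.vecMul v b = 0 ↔ ∃ u : Fin l → B, v = Matrix.vecMul u s) :
    ∃ (Λ : Type) (_ : Fintype Λ) (j : Λ → J) (y : Λ → Fin n → SA D I),
      Nonempty (Stg X.xd (LinearMap.range (Matrix.vecMulLinear b)) j y Finset.univ) := by
  classical
  choose b' hb' using fun i k => X.surj (b i k)
  choose s' hs' using fun p i => X.surj (s p i)
  have hΦ : ∀ x : Fin m → SA D I, (fun k => X.φ ((∑ i, x i • b' i) k)) =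
      Matrix.vecMul (fun i => X.φ (x i)) b := by
    intro x
    funext k
    rw [Finset.sum_apply, map_sum]
    change _ = ∑ i, X.φ (x i) * b i k
    exact Finset.sum_congr rfl fun i _ => by rw [Pi.smul_apply, smul_eq_mul, map_mul, hb']
  let z : Fin l → Fin n → SA D I := fun p => ∑ i, s' p i • b' i
  have hz : ∀ p k, X.φ (z p k) = 0 := by
    intro p k
    have h1 := congrFun (hΦ (s' p)) k
    change X.φ ((∑ i, s' p i • b' i) k) = 0
    rw [h1]
    have h2 : (fun i => X.φ (s' p i)) = Matrix.vecMul (Pi.single p 1) s := by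
      rw [Matrix.single_one_vecMul]
      funext i
      exact hs' p i
    rw [(hs _).2 ⟨_, h2⟩]
    rfl
  obtain ⟨Λ, hΛ, j, y, hzs⟩ := X.exists_loops z hz
  refine ⟨Λ, hΛ, j, y, ⟨?_⟩⟩
  let R0 : Submodule (SA D I) (Fin n → SA D I) :=
    Submodule.span (SA D I) (Set.range fun l => X.r (j l) • y l)
  let K : Submodule (SA D I) (Fin n → SA D I) := Submodule.span (SA D I) (Set.range b') ⊔ R0
  have hR0 : R0 ≤ IM X.φ ⊤ := by
    refine Submodule.span_le.2 ?_
    rintro _ ⟨l, rfl⟩
    exact smul_mem_IM X.φ (X.φ_r0 _) trivial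
  have hbK : ∀ i, b' i ∈ K := fun i => Submodule.mem_sup_left (Submodule.subset_span ⟨i, rfl⟩)
  refine ⟨K, ?_, fun l => Submodule.mem_sup_right (Submodule.subset_span ⟨l, rfl⟩), fun v => ?_, ?_⟩
  · exact (Submodule.fg_span (Set.finite_range _)).sup (Submodule.fg_span (Set.finite_range _))
  · constructor
    · intro hv
      obtain ⟨k, hk, t, ht, rfl⟩ := Submodule.mem_sup.1 hv
      obtain ⟨k1, hk1, k2, hk2, rfl⟩ := Submodule.mem_sup.1 hk
      obtain ⟨x, rfl⟩ := (Submodule.mem_span_range_iff_exists_fun _).1 hk1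
      refine ⟨fun i => X.φ (x i), ?_⟩
      rw [Matrix.vecMulLinear_apply, ← hΦ]
      funext k
      rw [Pi.add_apply, Pi.add_apply, map_add, map_add, (mem_IM_top X.φ _).1 ht k,
        (mem_IM_top X.φ _).1 (hR0 hk2) k, add_zero, add_zero]
    · rintro ⟨x, hx⟩
      choose x' hx' using fun i => X.surj (x i)
      have e : v = ∑ i, x' i • b' i + (v - ∑ i, x' i • b' i) := by abel
      rw [e]
      refine Submodule.add_mem_sup (Submodule.sum_mem _ fun i _ => K.smul_mem _ (hbK i)) ?_
      rw [mem_IM_top]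
      intro k
      have h1 := congrFun (hΦ x') k
      have h2 := congrFun hx k
      rw [Matrix.vecMulLinear_apply] at h2
      rw [Pi.sub_apply, map_sub, h1, ← h2, sub_eq_zero]
      congr 1
      funext i
      rw [hx']
  · rintro κ ⟨hκ1, hκ2⟩
    obtain ⟨k1, hk1, k2, hk2, rfl⟩ := Submodule.mem_sup.1 hκ1
    obtain ⟨β, rfl⟩ := (Submodule.mem_span_range_iff_exists_fun _).1 hk1
    have h1 : Matrix.vecMul (fun i => X.φ (β i)) b = 0 := by
      rw [← hΦ]
      funext k
      have h2 := (mem_IM_top X.φ _).1 hκ2 k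
      rw [Pi.add_apply, map_add, (mem_IM_top X.φ _).1 (hR0 hk2) k, add_zero] at h2
      exact h2
    obtain ⟨u, hu⟩ := (hs _).1 h1
    choose u' hu' using fun p => X.surj (u p)
    have h3 : ∀ i, X.φ (β i - ∑ p, u' p * s' p i) = 0 := by
      intro i
      have h4 := congrFun hu i
      rw [map_sub, h4, map_sum, sub_eq_zero]
      change ∑ p, u p * s p i = _
      exact Finset.sum_congr rfl fun p _ => by rw [map_mul, hu', hs']
    have h5 : ∑ i, β i • b' i = ∑ i, (β i - ∑ p, u' p * s' p i) • b' i + ∑ p, u' p • z p := by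
      have h6 : ∑ p, u' p • z p = ∑ i, (∑ p, u' p * s' p i) • b' i := by
        change ∑ p, u' p • (∑ i, s' p i • b' i) = _
        simp only [Finset.smul_sum, Finset.sum_smul, mul_smul]
        exact Finset.sum_comm
      rw [h6, ← Finset.sum_add_distrib]
      exact Finset.sum_congr rfl fun i _ => by rw [sub_smul, sub_add_cancel]
    have himg : (fun l => X.xd.r (j l) • y l) '' ((Finset.univ : Finset Λ) : Set Λ) =
        Set.range fun l => X.r (j l) • y l := by
      rw [Finset.coe_univ, Set.image_univ]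
      rfl
    rw [himg, h5, add_assoc]
    refine Submodule.add_mem_sup (Submodule.sum_mem _ fun i _ => smul_mem_IM X.φ (h3 i) (hbK i)) ?_
    exact Submodule.add_mem _ (Submodule.sum_mem _ fun p _ => Submodule.smul_mem _ _ (hzs p)) hk2

end

end Pool.Agent.Lib.EDG
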