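import Pool.Agent.Lib.EDG.Ext

/-!
# EDG: the tree of the free group

`lt x` is the element of a letter `x = (i, b)`; for every letter `x` and `w : F` exactly one of `x w`
and `w` is the parent of the other one.
-/

set_option autoImplicit false
set_option linter.unusedSectionVars false

namespace Pool.Agent.Lib.EDG

noncomputable section

variable {I : Type} [DecidableEq I]

/-- the group element of a letter -/
def lt (x : I × Bool) : FreeGroup I := FreeGroup.mk [x]

theorem lt_true (i : I) : lt (i, true) = FreeGroup.of i := rfl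

theorem lt_false (i : I) : lt (i, false) = (FreeGroup.of i)⁻¹ := by
  unfold lt FreeGroup.of
  rw [FreeGroup.inv_mk]
  rfl

theorem lt_inv (x : I × Bool) : (lt x)⁻¹ = lt (x.1, !x.2) := by
  unfold lt
  rw [FreeGroup.inv_mk]
  rfl

/-- `w` is the parent of `lt x * w`: the word of `lt x * w` is `x :: w` -/
def Par (x : I × Bool) (w : FreeGroup I) : Prop := (lt x * w).toWord = x :: w.toWord


theorem toWord_lt_mul (x : I × Bool) (w : FreeGroup I) :
    (lt x * w).toWord = FreeGroup.reduce (x :: w.toWord) := by
  rw [FreeGroup.toWord_mul]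
  unfold lt
  rw [FreeGroup.toWord_mk, FreeGroup.reduce_singleton]
  rfl

theorem par_or (x : I × Bool) (w : FreeGroup I) : Par x w ∨ Par (x.1, !x.2) (lt x * w) := by

  unfold Par
  rw [← lt_inv, ← mul_assoc, inv_mul_cancel, one_mul, toWord_lt_mul, FreeGroup.reduce.cons,
    FreeGroup.reduce_toWord]
  cases h : w.toWord with
  | nil => left; rfl
  | cons y L =>
    by_cases h2 : x.1 = y.1 ∧ x.2 = !y.2
    · right
      simp only [h2, and_self, ite_true]
      obtain ⟨h3, h4⟩ := h2
      rw [Bool.not_not]
    · left
      simp only [h2, ite_false]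

theorem par_norm {x : I × Bool} {w : FreeGroup I} (h : Par x w) :
    (lt x * w).norm = w.norm + 1 := by
  unfold Par at h
  unfold FreeGroup.norm
  rw [h, List.length_cons]

/-- the parent is unique -/
theorem par_unique {x y : I × Bool} {w w' : FreeGroup I} (h : Par x w) (h' : Par y w')
    (h2 : lt x * w = lt y * w') : x = y ∧ w = w' := by
  unfold Par at h h'
  rw [h2, h'] at h
  obtain ⟨h3, h4⟩ := List.cons.inj h
  exact ⟨h3.symm, (FreeGroup.toWord_injective h4).symm⟩

/-- every element different from `1` has a parent -/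
theorem exists_par {w : FreeGroup I} (hw : w ≠ 1) : ∃ x w', Par x w' ∧ lt x * w' = w := by

  cases h : w.toWord with
  | nil => exact absurd (FreeGroup.toWord_eq_nil_iff.1 h) hw
  | cons x L =>
    have hL : FreeGroup.reduce (x :: L) = x :: L := by rw [← h, FreeGroup.reduce_toWord]
    have hL' : FreeGroup.reduce L = L := by
      have h2 : FreeGroup.IsReduced (x :: L) := FreeGroup.isReduced_iff_reduce_eq.2 hL
      exact FreeGroup.isReduced_iff_reduce_eq.1 h2.tail
    have hw2 : lt x * FreeGroup.mk L = w := by
      unfold lt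
      rw [FreeGroup.mul_mk, ← FreeGroup.mk_toWord (x := w), h]
      rfl
    refine ⟨x, FreeGroup.mk L, ?_, hw2⟩
    unfold Par
    rw [hw2, h, FreeGroup.toWord_mk, hL']

/-- a set closed under parents -/
def Closed (κ : Type) (S : Set (FreeGroup I × κ)) : Prop :=
  ∀ x w k, Par x w → (lt x * w, k) ∈ S → (w, k) ∈ S

theorem Closed.ins {κ : Type} {S : Set (FreeGroup I × κ)} (hS : Closed κ S) {x : I × Bool}
    {w : FreeGroup I} {k : κ} (h : Par x w) (hw : (w, k) ∈ S) :
    Closed κ (insert (lt x * w, k) S) := by
  intro y w' k' h' hm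
  rcases Set.mem_insert_iff.1 hm with h2 | h2
  · obtain ⟨h3, h4⟩ := Prod.mk.inj h2
    obtain ⟨-, h5⟩ := par_unique h h' h3.symm
    right
    rw [← h5, h4]
    exact hw
  · right
    exact hS y w' k' h' h2

theorem Closed.ins_root {κ : Type} {S : Set (FreeGroup I × κ)} (hS : Closed κ S) (k : κ) :
    Closed κ (insert (1, k) S) := by
  intro y w' k' h' hm
  rcases Set.mem_insert_iff.1 hm with h2 | h2
  · exfalso
    have h3 := par_norm h'
    rw [(Prod.mk.inj h2).1, FreeGroup.norm_one] at h3
    omega
  · right
    exact hS y w' k' h' h2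

theorem Closed.root {κ : Type} {S : Set (FreeGroup I × κ)} (hS : Closed κ S) {w : FreeGroup I}
    {k : κ} (h : (w, k) ∈ S) : (1, k) ∈ S := by
  induction hn : w.norm generalizing w with
  | zero =>
    rw [← FreeGroup.norm_eq_zero.1 hn]
    exact h
  | succ n ih =>
    have hw : w ≠ 1 := by
      rintro rfl
      rw [FreeGroup.norm_one] at hn
      omega
    obtain ⟨x, w', hp, rfl⟩ := exists_par hw
    refine ih (hS x w' k hp h) ?_
    have := par_norm hp
    omega

end

end Pool.Agent.Lib.EDG
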