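import Pool.Agent.Lib.EDG.Fin
import Pool.Agent.Lib.EDG.Dat

/-!
# EDG: from `Dat` to `XD`
-/

set_option autoImplicit false
set_option linter.unusedSectionVars false

namespace Pool.Agent.Lib.EDG

open Pool.Agent.Lib.GD2 (Tri)

noncomputable section

theorem IM_eq_IK {A B V : Type} [Ring A] [Ring B] [AddCommGroup V] [Module A V] (φ : A →+* B)
    (K : Submodule A V) : IM φ K = IK φ K := by
  unfold IM IK
  congr 1
  ext x
  constructor
  · rintro ⟨a, ha, z, hz, rfl⟩; exact ⟨a, z, ha, hz, rfl⟩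
  · rintro ⟨a, z, ha, hz, rfl⟩; exact ⟨a, ha, z, hz, rfl⟩

variable {D I G J B : Type} [DivisionRing D] [MulSemiringAction (FreeGroup I) D] [Group G]
    [Ring B] (X : Dat D I G J B)

theorem Dat.hex (a : SA D I) : ∃ d : G →₀ D, X.φ a = X.φ (d.sum fun g x => uu (X.w g) * dd x) := by
  induction a using SA_induction with
  | h0 => exact ⟨0, by rw [Finsupp.sum_zero_index]⟩
  | ha a b h h' =>
    obtain ⟨d, hd⟩ := h
    obtain ⟨d', hd'⟩ := h'
    refine ⟨d + d', ?_⟩
    rw [map_add, hd, hd', ← map_add, Finsupp.sum_add_index']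
    · intro g; rw [map_zero, mul_zero]
    · intro g x x'; rw [map_add, mul_add]
  | hm e v =>
    obtain ⟨d, hd⟩ := X.lift v (X.w (FreeGroup.lift X.T.x v)) (X.lift_w _).symm
    refine ⟨Finsupp.single (FreeGroup.lift X.T.x v)
      ((X.w (FreeGroup.lift X.T.x v))⁻¹ • e * d), ?_⟩
    rw [Finsupp.sum_single_index (by rw [map_zero, mul_zero]), map_mul, hd, map_mul, map_mul dd,
      ← mul_assoc (uu _), uu_mul_dd, smul_inv_smul, mul_assoc, map_mul, map_mul]

/-- the data of `Fin` -/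
def Dat.xd : XD G J X.φ where
  surj := X.surj
  r := X.r
  φr := X.φ_r0
  rd := X.r_dd
  w g := uu (X.w g)
  hex := X.hex

@[simp] theorem Dat.xd_r (j : J) : X.xd.r j = X.r j := rfl

@[simp] theorem Dat.xd_w (g : G) : X.xd.w g = uu (X.w g) := rfl

end

end Pool.Agent.Lib.EDG
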